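import Mathlib

namespace Pool.Agent.Helper21.Toric

/-- class index of the sorted labels, from the four strictness bits -/
def clf (b1 b2 b3 b4 : Bool) (k : Fin 5) : ℕ :=
  match k with
  | 0 => 0
  | 1 => b1.toNat
  | 2 => b1.toNat + b2.toNat
  | 3 => b1.toNat + b2.toNat + b3.toNat
  | 4 => b1.toNat + b2.toNat + b3.toNat + b4.toNat

/-- the value sequence on the edges: label `k` sits at `a_k`, label `4` sits at `0` -/
def seqOf (c : Fin 5 → ℕ) (a0 a1 a2 a3 : Fin 5) (i : Fin 5) : ℕ :=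
  if i = a0 then c 0 else if i = a1 then c 1 else if i = a2 then c 2 else
  if i = a3 then c 3 else c 4

def isAdj (a b x : Fin 5) : Bool := (a == x && b == x + 1) || (b == x && a == x + 1)
def xAdj (a b : Fin 5) : Option (Fin 5) :=
  if b = a + 1 then some a else if a = b + 1 then some b else none

def mem3 (a x y z : Fin 5) : Bool := a == x || a == y || a == z

def isPath (a b c x : Fin 5) : Bool :=
  mem3 a x (x+1) (x+2) && mem3 b x (x+1) (x+2) && mem3 c x (x+1) (x+2)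
def isSep (a b c x : Fin 5) : Bool :=
  mem3 a x (x+1) (x+3) && mem3 b x (x+1) (x+3) && mem3 c x (x+1) (x+3)

def findFin (p : Fin 5 → Bool) : Option (Fin 5) :=
  if p 0 then some 0 else if p 1 then some 1 else if p 2 then some 2 else
  if p 3 then some 3 else if p 4 then some 4 else none

def inv2 (b2 : Bool) (sq : Fin 5 → ℕ) (a0 a1 : Fin 5) : ℕ :=
  if b2 then (match xAdj a0 a1 with
    | some x => 1 + sq (x+3)
    | none => 0) else 100

def inv3 (b1 b3 : Bool) (sq : Fin 5 → ℕ) (a0 a1 a2 : Fin 5) : ℕ :=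
  if b3 then (match findFin (isPath a0 a1 a2) with
    | some x => if b1 then (if a0 = x + 1 then 1 else 2) else 0
    | none => match findFin (isSep a0 a1 a2) with
      | some x => 3 + sq (x+3)
      | none => 50) else 100

def inv4 (b4 : Bool) (sq : Fin 5 → ℕ) : ℕ × ℕ :=
  if b4 then (min (sq 2) (sq 3), max (sq 2) (sq 3)) else (100, 100)

def concl (sa sc : Fin 5 → ℕ) : Bool :=
  decide (∃ k : Fin 5, (∀ i, sc (i + k) = sa i) ∨ (∀ i, sc (k - i) = sa i))

def distinct4 (a0 a1 a2 a3 : Fin 5) : Bool :=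
  a0 != 0 && a1 != 0 && a2 != 0 && a3 != 0 && a0 != a1 && a0 != a2 && a0 != a3 && a1 != a2 &&
  a1 != a3 && a2 != a3

set_option maxRecDepth 100000 in
theorem comb_check : ∀ b1 b2 b3 b4 : Bool, ∀ a0 a1 a2 a3 : Fin 5, distinct4 a0 a1 a2 a3 = true →
    ∀ c0 c1 c2 c3 : Fin 5, distinct4 c0 c1 c2 c3 = true →
    inv2 b2 (seqOf (clf b1 b2 b3 b4) a0 a1 a2 a3) a0 a1 =
      inv2 b2 (seqOf (clf b1 b2 b3 b4) c0 c1 c2 c3) c0 c1 →
    inv3 b1 b3 (seqOf (clf b1 b2 b3 b4) a0 a1 a2 a3) a0 a1 a2 =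
      inv3 b1 b3 (seqOf (clf b1 b2 b3 b4) c0 c1 c2 c3) c0 c1 c2 →
    inv4 b4 (seqOf (clf b1 b2 b3 b4) a0 a1 a2 a3) =
      inv4 b4 (seqOf (clf b1 b2 b3 b4) c0 c1 c2 c3) →
    concl (seqOf (clf b1 b2 b3 b4) a0 a1 a2 a3) (seqOf (clf b1 b2 b3 b4) c0 c1 c2 c3) = true := by
  decide +kernel

end Pool.Agent.Helper21.Toric
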