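import Pool.Agent.Helper21.PentUniq
import Pool.Agent.Helper21.PentComb

namespace Pool.Agent.Helper21.Toric

open MvPolynomial

lemma solve0 (p r : Fin 5 → ℕ) (h : ∀ i, r i + r (i+1) = p i + p (i+1)) (i : Fin 5) : r i = p i := by
  have h0 := h i
  have h1 := h (i+1)
  have h2 := h (i+2)
  have h3 := h (i+3)
  have h4 := h (i+4)
  rw [f11] at h1
  rw [f21] at h2
  rw [f31] at h3
  rw [f41] at h4
  omega

lemma g1 (i k : Fin 5) : i + 1 + k = i + k + 1 := by revert i k; decide
lemma g2 (i k : Fin 5) : k + 1 - (i+1) = k - i := by revert i k; decide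
lemma g3 (i k : Fin 5) : k + 1 - i = k - i + 1 := by revert i k; decide

lemma solve1 (p q : Fin 5 → ℕ) (k : Fin 5) (h : ∀ i, q (i+k) + q (i+k+1) = p i + p (i+1)) :
    ∀ i, q (i+k) = p i := by
  apply solve0 p (fun i => q (i+k))
  intro i
  have : i + 1 + k = i + k + 1 := g1 i k
  simp only [this]
  exact h i

lemma solve2 (p q : Fin 5 → ℕ) (k : Fin 5) (h : ∀ i, q (k-i) + q (k-i+1) = p i + p (i+1)) :
    ∀ i, q (k+1-i) = p i := by
  apply solve0 p (fun i => q (k+1-i))
  intro i
  have e1 : k + 1 - (i+1) = k - i := g2 i k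
  have e2 : k + 1 - i = k - i + 1 := g3 i k
  simp only [e1, e2]
  rw [add_comm]
  exact h i

lemma sum5 (p : Fin 5 → ℕ) (x : Fin 5) :
    p x + p (x+1) + p (x+2) + p (x+3) + p (x+4) = p 0 + p 1 + p 2 + p 3 + p 4 := by
  fin_cases x
  · simp
  · show p 1 + p 2 + p 3 + p 4 + p 0 = _; omega
  · show p 2 + p 3 + p 4 + p 0 + p 1 = _; omega
  · show p 3 + p 4 + p 0 + p 1 + p 2 = _; omega
  · show p 4 + p 0 + p 1 + p 2 + p 3 = _; omega

lemma clf_iff (u : Fin 5 → ℕ) (h01 : u 0 ≤ u 1) (h12 : u 1 ≤ u 2) (h23 : u 2 ≤ u 3) (h34 : u 3 ≤ u 4)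
    (i j : Fin 5) :
    clf (decide (u 0 < u 1)) (decide (u 1 < u 2)) (decide (u 2 < u 3)) (decide (u 3 < u 4)) i =
    clf (decide (u 0 < u 1)) (decide (u 1 < u 2)) (decide (u 2 < u 3)) (decide (u 3 < u 4)) j ↔
    u i = u j := by
  by_cases c1 : u 0 < u 1 <;> by_cases c2 : u 1 < u 2 <;> by_cases c3 : u 2 < u 3 <;>
    by_cases c4 : u 3 < u 4 <;> simp only [c1, c2, c3, c4, decide_true, decide_false] <;>
    fin_cases i <;> fin_cases j <;> simp [clf] <;> omega

lemma xAdj_spec : ∀ a b : Fin 5, a ≠ b →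
    (∃ x, xAdj a b = some x ∧ ({a, b} : Finset (Fin 5)) = {x, x+1}) ∨
    (xAdj a b = none ∧ ∃ x, ({a, b} : Finset (Fin 5)) = {x, x+2}) := by decide

lemma path_spec : ∀ a b c : Fin 5, a ≠ b → a ≠ c → b ≠ c →
    (∃ x, findFin (isPath a b c) = some x ∧ ({a, b, c} : Finset (Fin 5)) = {x, x+1, x+2}) ∨
    (findFin (isPath a b c) = none ∧ ∃ x, findFin (isSep a b c) = some x ∧
      ({a, b, c} : Finset (Fin 5)) = {x, x+1, x+3}) := by decide +kernel

/-- threshold ideals agree -/
lemma JJ_threshold {A B : Fin 5 → Multiset V}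
    (h : Ideal.span (Set.range (PP A)) = Ideal.span (Set.range (PP B))) (d : ℕ) :
    JJ A {i | sd A i ≤ d} = JJ B {i | sd B i ≤ d} :=
  span_le_deg (PP_homog A) (PP_homog B) h d

section core
variable {A B : Fin 5 → Multiset V} (hA : Pent A) (hB : Pent B)
  (h : Ideal.span (Set.range (PP A)) = Ideal.span (Set.range (PP B)))
  (a b : Fin 5 → Fin 5) (ha : Function.Injective a) (hb : Function.Injective b)
  (ha4 : a 4 = 0) (hb4 : b 4 = 0) (u : Fin 5 → ℕ)
  (hua : ∀ k, sd A (a k) = u k) (hub : ∀ k, sd B (b k) = u k)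
  (h01 : u 0 ≤ u 1) (h12 : u 1 ≤ u 2) (h23 : u 2 ≤ u 3) (h34 : u 3 ≤ u 4)

lemma surj_of {a : Fin 5 → Fin 5} (ha : Function.Injective a) (i : Fin 5) : ∃ k, a k = i :=
  (Finite.injective_iff_surjective.1 ha) i

include ha hua h01 h12 h23 h34 in
lemma thr0 (hs : u 0 < u 1) : {i | sd A i ≤ u 0} = ({a 0} : Set (Fin 5)) := by
  ext i
  obtain ⟨k, rfl⟩ := surj_of ha i
  show sd A (a k) ≤ u 0 ↔ _
  rw [hua]
  fin_cases k <;> simp [ha.eq_iff] <;> omega

include ha hua h01 h12 h23 h34 in
lemma thr1 (hs : u 1 < u 2) : {i | sd A i ≤ u 1} = ({a 0, a 1} : Set (Fin 5)) := by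
  ext i
  obtain ⟨k, rfl⟩ := surj_of ha i
  show sd A (a k) ≤ u 1 ↔ _
  rw [hua]
  fin_cases k <;> simp [ha.eq_iff] <;> omega

include ha hua h01 h12 h23 h34 in
lemma thr2 (hs : u 2 < u 3) : {i | sd A i ≤ u 2} = ({a 0, a 1, a 2} : Set (Fin 5)) := by
  ext i
  obtain ⟨k, rfl⟩ := surj_of ha i
  show sd A (a k) ≤ u 2 ↔ _
  rw [hua]
  fin_cases k <;> simp [ha.eq_iff] <;> omega

include ha hua h01 h12 h23 h34 in
lemma thr3 (hs : u 3 < u 4) : {i | sd A i ≤ u 3} = ({i | i ≠ a 4} : Set (Fin 5)) := by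
  ext i
  obtain ⟨k, rfl⟩ := surj_of ha i
  show sd A (a k) ≤ u 3 ↔ a k ≠ a 4
  rw [hua, ha.ne_iff]
  fin_cases k <;> simp <;> omega

include ha ha4 in
lemma seq_a (c : Fin 5 → ℕ) (k : Fin 5) : seqOf c (a 0) (a 1) (a 2) (a 3) (a k) = c k := by
  unfold seqOf
  fin_cases k <;> simp [ha.eq_iff]

end core

/-- card function -/
def cd (A : Fin 5 → Multiset V) (i : Fin 5) : ℕ := Multiset.card (A i)

lemma sd_eq (A : Fin 5 → Multiset V) (i : Fin 5) : sd A i = cd A i + cd A (i+1) := rfl

lemma sum_sd {A : Fin 5 → Multiset V} {a : Fin 5 → Fin 5} (ha : Function.Injective a)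
    {u : Fin 5 → ℕ} (hua : ∀ k, sd A (a k) = u k) :
    2 * (cd A 0 + cd A 1 + cd A 2 + cd A 3 + cd A 4) = u 0 + u 1 + u 2 + u 3 + u 4 := by
  have h1 : ∑ i, sd A i = ∑ k, u k := by
    rw [← (Equiv.ofBijective a (Finite.injective_iff_bijective.1 ha)).sum_comp]
    apply Finset.sum_congr rfl
    intro k _
    exact hua k
  rw [Fin.sum_univ_five, Fin.sum_univ_five] at h1
  rw [← h1]
  simp only [sd_eq]
  have e : ∀ (i j : Fin 5), i + 1 = j → cd A (i + 1) = cd A j := fun i j h => by rw [h]
  rw [e 0 1 rfl, e 1 2 rfl, e 2 3 rfl, e 3 4 rfl, e 4 0 rfl]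
  omega

lemma coe_pair_eq {a b x y : Fin 5} (h : ({a, b} : Finset (Fin 5)) = {x, y}) :
    ({a, b} : Set (Fin 5)) = {x, y} := by
  have := congrArg (fun s : Finset (Fin 5) => (s : Set (Fin 5))) h
  simpa using this

lemma coe_triple_eq {a b c x y z : Fin 5} (h : ({a, b, c} : Finset (Fin 5)) = {x, y, z}) :
    ({a, b, c} : Set (Fin 5)) = {x, y, z} := by
  have := congrArg (fun s : Finset (Fin 5) => (s : Set (Fin 5))) h
  simpa using this

lemma pair_sum {A : Fin 5 → Multiset V} {a b x y : Fin 5} (hab : a ≠ b) (hxy : x ≠ y)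
    (h : ({a, b} : Finset (Fin 5)) = {x, y}) : sd A a + sd A b = sd A x + sd A y := by
  have := congrArg (fun s : Finset (Fin 5) => ∑ i ∈ s, sd A i) h
  beta_reduce at this
  rwa [Finset.sum_pair hab, Finset.sum_pair hxy] at this

lemma triple_sum {A : Fin 5 → Multiset V} {a b c x y z : Fin 5} (hab : a ≠ b) (hac : a ≠ c)
    (hbc : b ≠ c) (hxy : x ≠ y) (hxz : x ≠ z) (hyz : y ≠ z)
    (h : ({a, b, c} : Finset (Fin 5)) = {x, y, z}) :
    sd A a + sd A b + sd A c = sd A x + sd A y + sd A z := by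
  have := congrArg (fun s : Finset (Fin 5) => ∑ i ∈ s, sd A i) h
  beta_reduce at this
  rw [Finset.sum_insert (by simp [hab, hac]), Finset.sum_pair hbc,
    Finset.sum_insert (by simp [hxy, hxz]), Finset.sum_pair hyz] at this
  omega

lemma distinct4_of {a : Fin 5 → Fin 5} (ha : Function.Injective a) (ha4 : a 4 = 0) :
    distinct4 (a 0) (a 1) (a 2) (a 3) = true := by
  have h1 : ∀ i j : Fin 5, i ≠ j → (a i != a j) = true := by
    intro i j hij
    simpa using fun h => hij (ha h)
  have h2 : ∀ i : Fin 5, i ≠ 4 → (a i != 0) = true := by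
    intro i hi
    have := h1 i 4 hi
    rwa [ha4] at this
  unfold distinct4
  rw [h2 0 (by decide), h2 1 (by decide), h2 2 (by decide),
    h2 3 (by decide), h1 0 1 (by decide), h1 0 2 (by decide), h1 0 3 (by decide),
    h1 1 2 (by decide), h1 1 3 (by decide), h1 2 3 (by decide)]
  rfl

section core
variable {A B : Fin 5 → Multiset V} (hA : Pent A) (hB : Pent B)
  (h : Ideal.span (Set.range (PP A)) = Ideal.span (Set.range (PP B)))
  (a b : Fin 5 → Fin 5) (ha : Function.Injective a) (hb : Function.Injective b)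
  (ha4 : a 4 = 0) (hb4 : b 4 = 0) (u : Fin 5 → ℕ)
  (hua : ∀ k, sd A (a k) = u k) (hub : ∀ k, sd B (b k) = u k)
  (h01 : u 0 ≤ u 1) (h12 : u 1 ≤ u 2) (h23 : u 2 ≤ u 3) (h34 : u 3 ≤ u 4)

include hA hB h ha hb ha4 hb4 hua hub h01 h12 h23 h34 in
theorem pent_core : ∃ k : Fin 5, (∀ i, Multiset.card (B (i+k)) = Multiset.card (A i)) ∨
    (∀ i, Multiset.card (B (k-i)) = Multiset.card (A i)) := by
  set c : Fin 5 → ℕ := clf (decide (u 0 < u 1)) (decide (u 1 < u 2)) (decide (u 2 < u 3))
    (decide (u 3 < u 4)) with hc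
  have hcu : ∀ i j, c i = c j ↔ u i = u j := clf_iff u h01 h12 h23 h34
  set sa := seqOf c (a 0) (a 1) (a 2) (a 3) with hsa
  set sb := seqOf c (b 0) (b 1) (b 2) (b 3) with hsb
  have hsa' : ∀ k, sa (a k) = c k := seq_a a ha ha4 c
  have hsb' : ∀ k, sb (b k) = c k := seq_a b hb hb4 c
  have hseq : ∀ i j, sa i = sb j ↔ sd A i = sd B j := by
    intro i j
    obtain ⟨k, rfl⟩ := surj_of ha i
    obtain ⟨l, rfl⟩ := surj_of hb j
    rw [hsa', hsb', hua, hub, hcu]
  have hma := sum_sd ha hua
  have hmb := sum_sd hb hub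
  have hsumA := sum5 (cd A)
  have hsumB := sum5 (cd B)
  have ne01 : a 0 ≠ a 1 := fun h => by simpa using ha h
  have ne02 : a 0 ≠ a 2 := fun h => by simpa using ha h
  have ne12 : a 1 ≠ a 2 := fun h => by simpa using ha h
  have me01 : b 0 ≠ b 1 := fun h => by simpa using hb h
  have me02 : b 0 ≠ b 2 := fun h => by simpa using hb h
  have me12 : b 1 ≠ b 2 := fun h => by simpa using hb h
  -- first invariant
  have i2 : inv2 (decide (u 1 < u 2)) sa (a 0) (a 1) = inv2 (decide (u 1 < u 2)) sb (b 0) (b 1) := by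
    unfold inv2
    by_cases hs : u 1 < u 2
    · simp only [hs, decide_true, if_true]
      have hJ := JJ_threshold h (u 1)
      rw [thr1 a ha u hua h01 h12 h23 h34 hs, thr1 b hb u hub h01 h12 h23 h34 hs] at hJ
      rcases xAdj_spec (a 0) (a 1) ne01 with ⟨x, hx1, hx2⟩ | ⟨hx1, x, hx2⟩ <;>
      rcases xAdj_spec (b 0) (b 1) me01 with ⟨y, hy1, hy2⟩ | ⟨hy1, y, hy2⟩
      · rw [coe_pair_eq hx2, coe_pair_eq hy2] at hJ
        have hcard := fact_adj_adj hA hB x y hJ
        rw [hx1, hy1]
        simp only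
        have e1 : sd A (x+3) = sd B (y+3) := by
          have p1 := pair_sum (A := A) ne01 (n01 x) hx2
          have p2 := pair_sum (A := B) me01 (n01 y) hy2
          rw [hua, hua] at p1
          rw [hub, hub] at p2
          have q1 := hsumA x
          have q2 := hsumB y
          simp only [sd_eq, f11, f31] at p1 p2 ⊢
          have hcard' : cd A (x+1) = cd B (y+1) := hcard
          omega
        rw [(hseq _ _).2 e1]
      · exfalso
        rw [coe_pair_eq hx2, coe_pair_eq hy2] at hJ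
        exact fact_adj_gap hB hA x y hJ
      · exfalso
        rw [coe_pair_eq hx2, coe_pair_eq hy2] at hJ
        exact fact_adj_gap hA hB y x hJ.symm
      · rw [hx1, hy1]
    · simp [hs]
  -- second invariant
  have i3 : inv3 (decide (u 0 < u 1)) (decide (u 2 < u 3)) sa (a 0) (a 1) (a 2) =
      inv3 (decide (u 0 < u 1)) (decide (u 2 < u 3)) sb (b 0) (b 1) (b 2) := by
    unfold inv3
    by_cases hs : u 2 < u 3
    · simp only [hs, decide_true, if_true]
      have hJ := JJ_threshold h (u 2)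
      rw [thr2 a ha u hua h01 h12 h23 h34 hs, thr2 b hb u hub h01 h12 h23 h34 hs] at hJ
      rcases path_spec (a 0) (a 1) (a 2) ne01 ne02 ne12 with ⟨x, hx1, hx2⟩ | ⟨hx1, x, hx3, hx2⟩ <;>
      rcases path_spec (b 0) (b 1) (b 2) me01 me02 me12 with ⟨y, hy1, hy2⟩ | ⟨hy1, y, hy3, hy2⟩
      · rw [coe_triple_eq hx2, coe_triple_eq hy2] at hJ
        rw [hx1, hy1]
        simp only
        by_cases hs1 : u 0 < u 1
        · simp only [hs1, decide_true, if_true]
          have hK := JJ_threshold h (u 0)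
          rw [thr0 a ha u hua h01 h12 h23 h34 hs1, thr0 b hb u hub h01 h12 h23 h34 hs1] at hK
          have hK' : Ideal.span ({PP A (a 0)} : Set S) = Ideal.span {PP B (b 0)} := by
            unfold JJ at hK
            rwa [Set.image_singleton, Set.image_singleton] at hK
          have ma : a 0 = x ∨ a 0 = x + 1 ∨ a 0 = x + 2 := by
            have : a 0 ∈ ({a 0, a 1, a 2} : Finset (Fin 5)) := by simp
            rw [hx2] at this
            simpa using this
          have mb : b 0 = y ∨ b 0 = y + 1 ∨ b 0 = y + 2 := by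
            have : b 0 ∈ ({b 0, b 1, b 2} : Finset (Fin 5)) := by simp
            rw [hy2] at this
            simpa using this
          by_cases e1 : a 0 = x + 1
          · by_cases e2 : b 0 = y + 1
            · simp [e1, e2]
            · exfalso
              rw [e1] at hK'
              rcases mb with mb | mb | mb
              · rw [mb] at hK'
                exact fact_mid' hB x y hJ hK'
              · exact e2 mb
              · rw [mb] at hK'
                exact fact_mid hB x y hJ hK'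
          · by_cases e2 : b 0 = y + 1
            · exfalso
              rw [e2] at hK'
              rcases ma with ma | ma | ma
              · rw [ma] at hK'
                exact fact_mid' hA y x hJ.symm hK'.symm
              · exact e1 ma
              · rw [ma] at hK'
                exact fact_mid hA y x hJ.symm hK'.symm
            · simp [e1, e2]
        · simp [hs1]
      · exfalso
        rw [coe_triple_eq hx2, coe_triple_eq hy2] at hJ
        exact fact_sep_path hB hA y x hJ.symm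
      · exfalso
        rw [coe_triple_eq hx2, coe_triple_eq hy2] at hJ
        exact fact_sep_path hA hB x y hJ
      · rw [coe_triple_eq hx2, coe_triple_eq hy2] at hJ
        have hcard := fact_sep_sep hA hB x y hJ
        rw [hx1, hx3, hy1, hy3]
        simp only
        have e1 : sd A (x+3) = sd B (y+3) := by
          have p1 := triple_sum (A := A) ne01 ne02 ne12 (n01 x) (n03 x) (n13 x) hx2
          have p2 := triple_sum (A := B) me01 me02 me12 (n01 y) (n03 y) (n13 y) hy2
          rw [hua, hua, hua] at p1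
          rw [hub, hub, hub] at p2
          have q1 := hsumA x
          have q2 := hsumB y
          have hcard' : (cd A (x+1) = cd B (y+1) ∧ sd A (x+3) = sd B (y+3)) ∨
            (cd A (x+1) = sd B (y+3) ∧ sd A (x+3) = cd B (y+1)) := hcard
          simp only [sd_eq, f11, f31] at p1 p2 hcard' ⊢
          omega
        rw [(hseq _ _).2 e1]
    · simp [hs]
  -- third invariant
  have i4 : inv4 (decide (u 3 < u 4)) sa = inv4 (decide (u 3 < u 4)) sb := by
    unfold inv4
    by_cases hs : u 3 < u 4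
    · simp only [hs, decide_true, if_true]
      have hJ := JJ_threshold h (u 3)
      rw [thr3 a ha u hua h01 h12 h23 h34 hs, thr3 b hb u hub h01 h12 h23 h34 hs, ha4, hb4] at hJ
      have hcard := fact_four hA hB 0 0 hJ
      have hcard' : (cd A 2 = cd B 2 ∧ cd A 4 = cd B 4) ∨ (cd A 2 = cd B 4 ∧ cd A 4 = cd B 2) := hcard
      have s0A : sd A 0 = u 4 := by rw [← ha4, hua]
      have s0B : sd B 0 = u 4 := by rw [← hb4, hub]
      have t0A : cd A 0 + cd A 1 = u 4 := s0A
      have t0B : cd B 0 + cd B 1 = u 4 := s0B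
      have t2A : sd A 2 = cd A 2 + cd A 3 := rfl
      have t3A : sd A 3 = cd A 3 + cd A 4 := rfl
      have t2B : sd B 2 = cd B 2 + cd B 3 := rfl
      have t3B : sd B 3 = cd B 3 + cd B 4 := rfl
      have key : (sd A 2 = sd B 2 ∧ sd A 3 = sd B 3) ∨ (sd A 2 = sd B 3 ∧ sd A 3 = sd B 2) := by
        omega
      rcases key with ⟨k1, k2⟩ | ⟨k1, k2⟩
      · rw [(hseq _ _).2 k1, (hseq _ _).2 k2]
      · rw [(hseq _ _).2 k1, (hseq _ _).2 k2, min_comm, max_comm]
    · simp [hs]
  have da : distinct4 (a 0) (a 1) (a 2) (a 3) = true := distinct4_of ha ha4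
  have db : distinct4 (b 0) (b 1) (b 2) (b 3) = true := distinct4_of hb hb4
  have hfin := comb_check _ _ _ _ _ _ _ _ da _ _ _ _ db i2 i3 i4
  have hfin' : ∃ k : Fin 5, (∀ i, sb (i + k) = sa i) ∨ (∀ i, sb (k - i) = sa i) := by
    have := of_decide_eq_true hfin
    exact this
  obtain ⟨k, hk | hk⟩ := hfin'
  · refine ⟨k, Or.inl ?_⟩
    apply solve1 (cd A) (cd B) k
    intro i
    have := (hseq i (i+k)).1 (hk i).symm
    exact this.symm
  · refine ⟨k + 1, Or.inr ?_⟩
    apply solve2 (cd A) (cd B) k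
    intro i
    have := (hseq i (k-i)).1 (hk i).symm
    exact this.symm

end core

lemma PP_rot (A : Fin 5 → Multiset V) (k i : Fin 5) : PP (fun i => A (i+k)) i = PP A (i+k) := by
  unfold PP
  beta_reduce
  rw [g1 i k]

lemma sd_rot (A : Fin 5 → Multiset V) (k i : Fin 5) : sd (fun i => A (i+k)) i = sd A (i+k) := by
  unfold sd
  beta_reduce
  rw [g1 i k]

lemma range_rot (A : Fin 5 → Multiset V) (k : Fin 5) :
    Set.range (PP (fun i => A (i+k))) = Set.range (PP A) := by
  ext x
  constructor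
  · rintro ⟨i, rfl⟩
    exact ⟨i + k, (PP_rot A k i).symm⟩
  · rintro ⟨i, rfl⟩
    refine ⟨i - k, ?_⟩
    rw [PP_rot]
    have : i - k + k = i := by simp
    rw [this]

lemma t1 (i k l : Fin 5) : i + (k - l) = (i - l) + k := by revert i k l; decide
lemma t2 (i k l m : Fin 5) : k - (i - l) + m = (k + l + m) - i := by revert i k l m; decide
lemma t3 (i l : Fin 5) : i - l + l = i := by revert i l; decide
lemma t4 (i k l m : Fin 5) : i - l + k + m = i + (k - l + m) := by revert i k l m; decide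

/-- **Uniqueness of pentagonal presentations.** -/
theorem pent_unique {A B : Fin 5 → Multiset V} (hA : Pent A) (hB : Pent B)
    (h : Ideal.span (Set.range (PP A)) = Ideal.span (Set.range (PP B))) :
    ∃ k : Fin 5, (∀ i, Multiset.card (B (i+k)) = Multiset.card (A i)) ∨
      (∀ i, Multiset.card (B (k-i)) = Multiset.card (A i)) := by
  obtain ⟨e, he⟩ := exists_equiv_of_card (card_deg_eq (PP_homog A) (PP_homog B) (PP_min hA)
    (PP_min hB) h)
  set σ := Tuple.sort (sd A) with hσ
  have hmono : Monotone (sd A ∘ σ) := Tuple.monotone_sort _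
  set A' : Fin 5 → Multiset V := fun i => A (i + σ 4) with hA'
  set B' : Fin 5 → Multiset V := fun i => B (i + e (σ 4)) with hB'
  have h1 : ∃ k : Fin 5, (∀ i, Multiset.card (B' (i+k)) = Multiset.card (A' i)) ∨
      (∀ i, Multiset.card (B' (k-i)) = Multiset.card (A' i)) := by
    apply pent_core (hA.rot _) (hB.rot _) (by rw [range_rot, range_rot]; exact h)
      (fun k => σ k - σ 4) (fun k => e (σ k) - e (σ 4)) _ _ (by simp) (by simp)
      (fun k => sd A (σ k))
    · intro k
      show sd (fun i => A (i + σ 4)) (σ k - σ 4) = _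
      rw [sd_rot, t3]
    · intro k
      show sd (fun i => B (i + e (σ 4))) (e (σ k) - e (σ 4)) = _
      rw [sd_rot, t3, he]
    · exact hmono (by decide)
    · exact hmono (by decide)
    · exact hmono (by decide)
    · exact hmono (by decide)
    · intro i j hij
      exact σ.injective (sub_left_injective hij)
    · intro i j hij
      exact σ.injective (e.injective (sub_left_injective hij))
  obtain ⟨k, hk | hk⟩ := h1
  · refine ⟨k - σ 4 + e (σ 4), Or.inl ?_⟩
    intro i
    have := hk (i - σ 4)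
    simp only [hA', hB'] at this
    rw [t3, t4] at this
    exact this
  · refine ⟨k + σ 4 + e (σ 4), Or.inr ?_⟩
    intro i
    have := hk (i - σ 4)
    simp only [hA', hB'] at this
    rw [t3, t2] at this
    exact this

end Pool.Agent.Helper21.Toric
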