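import Pool.Agent.Helper21.Transport
import Pool.Agent.Helper21.PentFinal

namespace Pool.Agent.Helper21.Toric

open MvPolynomial

/-- rational vector of an integer vector -/
def qv (v : Fin 3 → ℤ) : V := fun s => (v s : ℚ)

lemma det3_qv (a b c : Z3) : det3 (qv a) (qv b) (qv c) = (zdet a b c : ℚ) := by
  rw [det3_eq, zdet_eq]
  simp only [qv]
  push_cast
  ring

section
variable {m : ℕ} {κ : Type} [DecidableEq κ]

/-- the multiset of linear forms of the rays in one block -/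
def fam (p : Fin m → κ) (E : Fin m → Fin 3 → ℤ) (k : κ) : Multiset V :=
  (Finset.univ.filter (fun i => p i = k)).val.map (fun i => qv (E i))

lemma pr_fam (p : Fin m → κ) (E : Fin m → Fin 3 → ℤ) (k : κ) :
    pr (fam p E k) = ∏ i ∈ Finset.univ.filter (fun i => p i = k), lf (qv (E i)) := by
  unfold pr fam
  rw [Multiset.map_map]
  rfl

lemma card_fam (p : Fin m → κ) (E : Fin m → Fin 3 → ℤ) (k : κ) :
    Multiset.card (fam p E k) = (Finset.univ.filter (fun i => p i = k)).card := by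
  unfold fam
  rw [Multiset.card_map]
  rfl

lemma mem_fam {p : Fin m → κ} {E : Fin m → Fin 3 → ℤ} {k : κ} {a : V} :
    a ∈ fam p E k ↔ ∃ i, p i = k ∧ qv (E i) = a := by
  unfold fam
  simp

/-- the rational ideal -/
noncomputable def QQI (K : Set (Finset (Fin m))) (E : Fin m → Fin 3 → ℤ) : Ideal S :=
  Ideal.span {q | ∃ σ : Finset (Fin m), σ ∉ K ∧ q = ∏ i ∈ σ, lf (qv (E i))}

lemma map_zl (v : Fin 3 → ℤ) : MvPolynomial.map (Int.castRingHom ℚ) (zl v) = lf (qv v) := by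
  unfold zl lf
  rw [map_sum]
  simp [qv]

lemma map_JJI (K : Set (Finset (Fin m))) (E : Fin m → Fin 3 → ℤ) :
    (JJI K E).map (MvPolynomial.map (Int.castRingHom ℚ)) = QQI K E := by
  unfold JJI QQI
  rw [Ideal.map_span]
  congr 1
  ext q
  simp only [Set.mem_image, Set.mem_ofPred_eq]
  constructor
  · rintro ⟨_, ⟨σ, hσ, rfl⟩, rfl⟩
    refine ⟨σ, hσ, ?_⟩
    rw [map_prod]
    exact Finset.prod_congr rfl (fun i _ => map_zl _)
  · rintro ⟨σ, hσ, rfl⟩
    refine ⟨_, ⟨σ, hσ, rfl⟩, ?_⟩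
    rw [map_prod]
    exact Finset.prod_congr rfl (fun i _ => map_zl _)

lemma QQI_of_cover {ι : Type} {K : Set (Finset (Fin m))} (E : Fin m → Fin 3 → ℤ)
    (U : ι → Finset (Fin m)) (hU : ∀ σ, σ ∉ K ↔ ∃ k, U k ⊆ σ) :
    QQI K E = Ideal.span (Set.range fun k => ∏ i ∈ U k, lf (qv (E i))) := by
  unfold QQI
  apply le_antisymm
  · rw [Ideal.span_le]
    rintro _ ⟨σ, hσ, rfl⟩
    obtain ⟨k, hk⟩ := (hU σ).1 hσ
    rw [SetLike.mem_coe, ← Finset.prod_sdiff hk]
    exact Ideal.mul_mem_left _ _ (Ideal.subset_span ⟨k, rfl⟩)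
  · rw [Ideal.span_le]
    rintro _ ⟨k, rfl⟩
    exact Ideal.subset_span ⟨U k, (hU _).2 ⟨k, Finset.Subset.refl _⟩, rfl⟩

end

section
variable {n : ℕ} {X : Fan n (n+3)}

lemma face_iff (σ : Finset (Fin (n+3))) :
    σ ∈ X.faces ↔ ∃ i j k, Bt X i j k ∧ i ∉ σ ∧ j ∉ σ ∧ k ∉ σ := by
  constructor
  · intro hσ
    obtain ⟨τ, hτ, hsub, hcard⟩ := exists_facet hσ
    have h3 : (τᶜ).card = 3 := by
      rw [Finset.card_compl, hcard, Fintype.card_fin]; omega
    rw [Finset.card_eq_three] at h3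
    obtain ⟨i, j, k, hij, hik, hjk, h⟩ := h3
    refine ⟨i, j, k, ⟨hij, hjk, hik, ?_⟩, ?_, ?_, ?_⟩
    · rw [← h, compl_compl]; exact hτ
    · intro hi
      have : i ∈ τᶜ := by rw [h]; simp
      exact (Finset.mem_compl.1 this) (hsub hi)
    · intro hi
      have : j ∈ τᶜ := by rw [h]; simp
      exact (Finset.mem_compl.1 this) (hsub hi)
    · intro hi
      have : k ∈ τᶜ := by rw [h]; simp
      exact (Finset.mem_compl.1 this) (hsub hi)
  · rintro ⟨i, j, k, ⟨_, _, _, hf⟩, hi, hj, hk⟩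
    apply X.down_closed _ hf
    intro x hx
    simp only [Finset.mem_compl, Finset.mem_insert, Finset.mem_singleton, not_or]
    exact ⟨fun h => hi (h ▸ hx), fun h => hj (h ▸ hx), fun h => hk (h ▸ hx)⟩

lemma exists_Bt (X : Fan n (n+3)) : ∃ i j k, Bt X i j k := by
  obtain ⟨i, j, k, h, _⟩ := (face_iff (X := X) ∅).1 X.empty_mem
  exact ⟨i, j, k, h⟩

lemma dec5 : ∀ u : Fin 5 → Bool, (∃ k, u k = true ∧ u (k+1) = true ∧ u (k+3) = true) ↔
    ¬ ∃ k, u k = false ∧ u (k+1) = false := by decide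

open Classical in
lemma nonface5 {p : Fin (n+3) → Fin 5}
    (hp : ∀ x y z, Bt X x y z ↔ Good5 (p x) (p y) (p z)) (σ : Finset (Fin (n+3))) :
    σ ∉ X.faces ↔ ∃ k, Finset.univ.filter (fun i => p i = k ∨ p i = k+1) ⊆ σ := by
  let u : Fin 5 → Bool := fun k => decide (∃ i, i ∉ σ ∧ p i = k)
  have hu : ∀ k, u k = true ↔ ∃ i, i ∉ σ ∧ p i = k := fun k => by simp [u]
  have hu' : ∀ k, u k = false ↔ ∀ i, p i = k → i ∈ σ := fun k => by
    simp only [u, decide_eq_false_iff_not, not_exists, not_and]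
    exact ⟨fun h i hi => by by_contra hc; exact h i hc hi, fun h i hi hk => hi (h i hk)⟩
  have h1 : σ ∈ X.faces ↔ ∃ k, u k = true ∧ u (k+1) = true ∧ u (k+3) = true := by
    rw [face_iff]
    constructor
    · rintro ⟨i, j, l, hb, hi, hj, hl⟩
      rw [hp] at hb
      obtain ⟨k, hk⟩ := hb
      have key : ∀ a, a ∈ ({k, k+1, k+3} : Finset (Fin 5)) → u a = true := by
        intro a ha
        rw [← hk] at ha
        simp only [Finset.mem_insert, Finset.mem_singleton] at ha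
        rw [hu]
        rcases ha with rfl | rfl | rfl
        · exact ⟨i, hi, rfl⟩
        · exact ⟨j, hj, rfl⟩
        · exact ⟨l, hl, rfl⟩
      exact ⟨k, key _ (by simp), key _ (by simp), key _ (by simp)⟩
    · rintro ⟨k, h0, h1, h3⟩
      rw [hu] at h0 h1 h3
      obtain ⟨i, hi, hpi⟩ := h0
      obtain ⟨j, hj, hpj⟩ := h1
      obtain ⟨l, hl, hpl⟩ := h3
      refine ⟨i, j, l, ?_, hi, hj, hl⟩
      rw [hp, hpi, hpj, hpl]
      exact ⟨k, rfl⟩
  rw [h1, dec5, not_not]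
  apply exists_congr
  intro k
  rw [hu', hu']
  constructor
  · rintro ⟨h2, h3⟩ i hi
    rw [Finset.mem_filter] at hi
    rcases hi.2 with h | h
    · exact h2 i h
    · exact h3 i h
  · intro h2
    exact ⟨fun i hi => h2 (by simp [hi]), fun i hi => h2 (by simp [hi])⟩

lemma good3_iff' : ∀ a b c : Fin 3, Good3 a b c → ∀ k, k = a ∨ k = b ∨ k = c := by decide

open Classical in
lemma nonface3 {p : Fin (n+3) → Fin 3}
    (hp : ∀ x y z, Bt X x y z ↔ Good3 (p x) (p y) (p z)) (σ : Finset (Fin (n+3))) :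
    σ ∉ X.faces ↔ ∃ k, Finset.univ.filter (fun i => p i = k) ⊆ σ := by
  have h1 : σ ∈ X.faces ↔ ∀ k, ∃ i, i ∉ σ ∧ p i = k := by
    rw [face_iff]
    constructor
    · rintro ⟨i, j, l, hb, hi, hj, hl⟩ k
      rw [hp] at hb
      rcases good3_iff' _ _ _ hb k with rfl | rfl | rfl
      · exact ⟨i, hi, rfl⟩
      · exact ⟨j, hj, rfl⟩
      · exact ⟨l, hl, rfl⟩
    · intro h
      obtain ⟨i, hi, hpi⟩ := h 0
      obtain ⟨j, hj, hpj⟩ := h 1
      obtain ⟨l, hl, hpl⟩ := h 2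
      refine ⟨i, j, l, ?_, hi, hj, hl⟩
      rw [hp, hpi, hpj, hpl]
      unfold Good3
      decide
  rw [h1]
  push Not
  apply exists_congr
  intro k
  constructor
  · intro h2 i hi
    rw [Finset.mem_filter] at hi
    by_contra hc
    exact h2 i hc hi.2
  · intro h2 i hi hk
    exact hi (h2 (by simp [hk]))

end

section types
variable {n : ℕ} {X : Fan n (n+3)} {E : Fin (n+3) → Fin 3 → ℤ}

lemma fam_ne_zero {m : ℕ} {κ : Type} [DecidableEq κ] {p : Fin m → κ} {E : Fin m → Fin 3 → ℤ}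
    (hs : Function.Surjective p) (k : κ) : fam p E k ≠ 0 := by
  obtain ⟨i, hi⟩ := hs k
  intro h
  have : qv (E i) ∈ fam p E k := mem_fam.2 ⟨i, hi, rfl⟩
  rw [h] at this
  exact Multiset.notMem_zero _ this

lemma pent_of {p : Fin (n+3) → Fin 5} (hs : Function.Surjective p)
    (hp : ∀ x y z, Bt X x y z ↔ Good5 (p x) (p y) (p z))
    (hE : ∀ x y z, Bt X x y z → zdet (E x) (E y) (E z) ≠ 0) : Pent (fam p E) := by
  refine ⟨fam_ne_zero hs, ?_⟩
  intro i a ha b hb c hc
  obtain ⟨x, hx, rfl⟩ := mem_fam.1 ha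
  obtain ⟨y, hy, rfl⟩ := mem_fam.1 hb
  obtain ⟨z, hz, rfl⟩ := mem_fam.1 hc
  rw [det3_qv]
  have h1 : Bt X x y z := by
    rw [hp, hx, hy, hz]
    exact ⟨i, rfl⟩
  exact_mod_cast hE x y z h1

lemma QQI5 {p : Fin (n+3) → Fin 5}
    (hp : ∀ x y z, Bt X x y z ↔ Good5 (p x) (p y) (p z)) :
    QQI X.faces E = Ideal.span (Set.range (PP (fam p E))) := by
  rw [QQI_of_cover E _ (nonface5 hp)]
  congr 2
  ext1 k
  unfold PP
  rw [pr_fam, pr_fam, ← Finset.prod_union]
  · apply Finset.prod_congr _ (fun _ _ => rfl)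
    rw [← Finset.filter_or]
  · rw [Finset.disjoint_filter]
    intro i _ h1 h2
    rw [h1] at h2
    exact n01 k h2

lemma QQI3 {p : Fin (n+3) → Fin 3}
    (hp : ∀ x y z, Bt X x y z ↔ Good3 (p x) (p y) (p z)) :
    QQI X.faces E = Ideal.span (Set.range (fun k => pr (fam p E k))) := by
  rw [QQI_of_cover E _ (nonface3 hp)]
  congr 2
  ext1 k
  rw [pr_fam]

lemma min3 {p : Fin (n+3) → Fin 3} (hs : Function.Surjective p)
    (hp : ∀ x y z, Bt X x y z ↔ Good3 (p x) (p y) (p z))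
    (hE : ∀ x y z, Bt X x y z → zdet (E x) (E y) (E z) ≠ 0) (k : Fin 3) :
    pr (fam p E k) ∉ Ideal.span ((fun k => pr (fam p E k)) '' {j | j ≠ k}) := by
  have h3 : ∀ k : Fin 3, k + 1 ≠ k ∧ k + 2 ≠ k ∧ k + 1 ≠ k + 2 := by decide
  have h4 : ∀ k j : Fin 3, j ≠ k → j = k + 1 ∨ j = k + 2 := by decide
  obtain ⟨x, hx⟩ := hs (k+1)
  obtain ⟨y, hy⟩ := hs (k+2)
  have hmx : qv (E x) ∈ fam p E (k+1) := mem_fam.2 ⟨x, hx, rfl⟩
  have hmy : qv (E y) ∈ fam p E (k+2) := mem_fam.2 ⟨y, hy, rfl⟩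
  set q := cross (qv (E x)) (qv (E y)) with hq
  have z1 : eval q (pr (fam p E (k+1))) = 0 :=
    eval_pr_eq_zero hmx (by rw [hq, eval_lf_cross, det3_self1])
  have z2 : eval q (pr (fam p E (k+2))) = 0 :=
    eval_pr_eq_zero hmy (by rw [hq, eval_lf_cross, det3_self2])
  have n0 : eval q (pr (fam p E k)) ≠ 0 := by
    apply eval_pr_ne_zero
    intro c hc
    obtain ⟨z, hz, rfl⟩ := mem_fam.1 hc
    rw [hq, eval_lf_cross, det3_qv]
    have h1 : Bt X x y z := by
      rw [hp, hx, hy, hz]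
      exact ⟨(h3 k).2.2, (h3 k).2.1, (h3 k).1⟩
    exact_mod_cast hE x y z h1
  intro hmem
  have hle : Ideal.span ((fun k => pr (fam p E k)) '' {j | j ≠ k}) ≤ RingHom.ker (eval q) := by
    rw [Ideal.span_le]
    rintro _ ⟨j, hj, rfl⟩
    rw [SetLike.mem_coe, RingHom.mem_ker]
    rcases h4 k j hj with rfl | rfl
    · exact z1
    · exact z2
  have := hle hmem
  rw [RingHom.mem_ker] at this
  exact n0 this

/-- equal block sizes give an equivalence of vertices -/
lemma equiv_of_blocks {m m' : ℕ} {κ : Type} [DecidableEq κ] {p : Fin m → κ} {q : Fin m' → κ}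
    (g : κ ≃ κ)
    (h : ∀ k, (Finset.univ.filter (fun i => q i = g k)).card =
      (Finset.univ.filter (fun i => p i = k)).card) :
    ∃ φ : Fin m' ≃ Fin m, ∀ y, g (p (φ y)) = q y := by
  have h1 : ∀ c : κ, Nonempty ({y // q y = c} ≃ {x // g (p x) = c}) := by
    intro c
    apply Fintype.card_eq.1
    rw [Fintype.card_subtype, Fintype.card_subtype]
    have h2 := h (g.symm c)
    rw [g.apply_symm_apply] at h2
    rw [h2]
    congr 1
    ext x
    simp only [Finset.mem_filter, Finset.mem_univ, true_and]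
    exact ⟨fun h => by rw [h, g.apply_symm_apply], fun h => by rw [← h, g.symm_apply_apply]⟩
  let e := fun c => (h1 c).some
  refine ⟨Equiv.ofFiberEquiv e, ?_⟩
  intro y
  exact Equiv.ofFiberEquiv_map e y

end types

section final
variable {n n' : ℕ} {X : Fan n (n+3)} {Y : Fan n' (n'+3)} {E : Fin (n+3) → Fin 3 → ℤ}
  {E' : Fin (n'+3) → Fin 3 → ℤ}

lemma iso_of_cover {m m' : ℕ} {K : Set (Finset (Fin m))} {L : Set (Finset (Fin m'))}
    {ι : Type} {U : ι → Finset (Fin m)} {W : ι → Finset (Fin m')}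
    (hU : ∀ σ, σ ∉ K ↔ ∃ k, U k ⊆ σ) (hW : ∀ σ, σ ∉ L ↔ ∃ k, W k ⊆ σ)
    (φ : Fin m' ≃ Fin m) (g : ι ≃ ι) (h : ∀ k y, y ∈ W (g k) ↔ φ y ∈ U k) : ComplexIso L K := by
  refine ⟨φ, ?_⟩
  intro σ
  rw [← not_iff_not, hU, hW]
  constructor
  · rintro ⟨k, hk⟩
    refine ⟨g.symm k, ?_⟩
    intro x hx
    rw [Finset.mem_map_equiv]
    apply hk
    have := h (g.symm k) (φ.symm x)
    rw [g.apply_symm_apply, φ.apply_symm_apply] at this
    exact this.2 hx
  · rintro ⟨k, hk⟩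
    refine ⟨g k, ?_⟩
    intro y hy
    have h1 := hk ((h k y).1 hy)
    rw [Finset.mem_map_equiv, φ.symm_apply_apply] at h1
    exact h1

theorem iso55 {p : Fin (n+3) → Fin 5} {p' : Fin (n'+3) → Fin 5} (hs : Function.Surjective p)
    (hs' : Function.Surjective p')
    (hp : ∀ x y z, Bt X x y z ↔ Good5 (p x) (p y) (p z))
    (hp' : ∀ x y z, Bt Y x y z ↔ Good5 (p' x) (p' y) (p' z))
    (hE : ∀ x y z, Bt X x y z → zdet (E x) (E y) (E z) ≠ 0)
    (hE' : ∀ x y z, Bt Y x y z → zdet (E' x) (E' y) (E' z) ≠ 0)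
    (h : QQI X.faces E = QQI Y.faces E') : ComplexIso Y.faces X.faces := by
  classical
  rw [QQI5 hp, QQI5 hp'] at h
  obtain ⟨k, hk | hk⟩ := pent_unique (pent_of hs hp hE) (pent_of hs' hp' hE') h
  · simp_rw [card_fam] at hk
    obtain ⟨φ, hφ⟩ := equiv_of_blocks (p := p) (q := p') (Equiv.addRight k) hk
    refine iso_of_cover (nonface5 hp) (nonface5 hp') φ (Equiv.addRight k) ?_
    intro l y
    have h1 : ∀ a b k : Fin 5, (a + k = b + k ↔ a = b) := by decide
    have h2 : ∀ a b k : Fin 5, (a + k = b + k + 1 ↔ a = b + 1) := by decide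
    simp only [Finset.mem_filter, Finset.mem_univ, true_and, ← hφ y, Equiv.coe_addRight]
    rw [h1, h2]
  · simp_rw [card_fam] at hk
    obtain ⟨φ, hφ⟩ := equiv_of_blocks (p := p) (q := p') (Equiv.subLeft k) hk
    refine iso_of_cover (nonface5 hp) (nonface5 hp') φ (Equiv.subLeft (k-1)) ?_
    intro l y
    have h1 : ∀ a b k : Fin 5, (k - a = k - 1 - b ↔ a = b + 1) := by decide
    have h2 : ∀ a b k : Fin 5, (k - a = k - 1 - b + 1 ↔ a = b) := by decide
    simp only [Finset.mem_filter, Finset.mem_univ, true_and, ← hφ y, Equiv.subLeft_apply]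
    rw [h1, h2]
    exact or_comm

theorem iso33 {p : Fin (n+3) → Fin 3} {p' : Fin (n'+3) → Fin 3} (hs : Function.Surjective p)
    (hs' : Function.Surjective p')
    (hp : ∀ x y z, Bt X x y z ↔ Good3 (p x) (p y) (p z))
    (hp' : ∀ x y z, Bt Y x y z ↔ Good3 (p' x) (p' y) (p' z))
    (hE : ∀ x y z, Bt X x y z → zdet (E x) (E y) (E z) ≠ 0)
    (hE' : ∀ x y z, Bt Y x y z → zdet (E' x) (E' y) (E' z) ≠ 0)
    (h : QQI X.faces E = QQI Y.faces E') : ComplexIso Y.faces X.faces := by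
  classical
  rw [QQI3 hp, QQI3 hp'] at h
  have h1 := card_deg_eq (fun k => pr_homog (fam p E k)) (fun k => pr_homog (fam p' E' k))
    (min3 hs hp hE) (min3 hs' hp' hE') h
  obtain ⟨g, hg⟩ := exists_equiv_of_card h1
  have hg' : ∀ k, (Finset.univ.filter (fun i => p' i = g k)).card =
      (Finset.univ.filter (fun i => p i = k)).card := by
    intro k
    have := hg k
    rwa [card_fam, card_fam] at this
  obtain ⟨φ, hφ⟩ := equiv_of_blocks (p := p) (q := p') g hg'
  refine iso_of_cover (nonface3 hp) (nonface3 hp') φ g ?_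
  intro l y
  simp only [Finset.mem_filter, Finset.mem_univ, true_and, ← hφ y, g.apply_eq_iff_eq]

theorem no35 {p : Fin (n+3) → Fin 3} {p' : Fin (n'+3) → Fin 5} (hs : Function.Surjective p)
    (hs' : Function.Surjective p')
    (hp : ∀ x y z, Bt X x y z ↔ Good3 (p x) (p y) (p z))
    (hp' : ∀ x y z, Bt Y x y z ↔ Good5 (p' x) (p' y) (p' z))
    (hE : ∀ x y z, Bt X x y z → zdet (E x) (E y) (E z) ≠ 0)
    (hE' : ∀ x y z, Bt Y x y z → zdet (E' x) (E' y) (E' z) ≠ 0)
    (h : QQI X.faces E = QQI Y.faces E') : False := by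
  classical
  rw [QQI3 hp, QQI5 hp'] at h
  have h1 := card_deg_eq (fun k => pr_homog (fam p E k)) (PP_homog (fam p' E'))
    (min3 hs hp hE) (PP_min (pent_of hs' hp' hE')) h
  obtain ⟨g, hg⟩ := exists_equiv_of_card h1
  have := Fintype.card_congr g
  simp at this

theorem iso_of_QQI {D : Fin (n+3) → Z3} {t : Fin 3 → Fin (n+3)} (hX : Gale X D t)
    {D' : Fin (n'+3) → Z3} {t' : Fin 3 → Fin (n'+3)} (hY : Gale Y D' t')
    (hE : ∀ x y z, Bt X x y z → zdet (E x) (E y) (E z) ≠ 0)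
    (h : QQI X.faces E = QQI Y.faces D') : ComplexIso Y.faces X.faces := by
  have hE' : ∀ x y z, Bt Y x y z → zdet (D' x) (D' y) (D' z) ≠ 0 := by
    intro x y z hb
    rcases zdet_of_gale hY hb with h1 | h1 <;> rw [h1] <;> norm_num
  rcases classify (dual3_of_gale hX) (exists_Bt X) with ⟨p, hs, hp⟩ | ⟨p, hs, hp⟩
  · rcases classify (dual3_of_gale hY) (exists_Bt Y) with ⟨p', hs', hp'⟩ | ⟨p', hs', hp'⟩
    · exact iso33 hs hs' hp hp' hE hE' h
    · exact (no35 hs hs' hp hp' hE hE' h).elim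
  · rcases classify (dual3_of_gale hY) (exists_Bt Y) with ⟨p', hs', hp'⟩ | ⟨p', hs', hp'⟩
    · exact (no35 hs' hs hp' hp hE' hE h.symm).elim
    · exact iso55 hs hs' hp hp' hE hE' h

end final

lemma zdet_vecMul (a b c : Z3) (M : Matrix (Fin 3) (Fin 3) ℤ) :
    zdet (Matrix.vecMul a M) (Matrix.vecMul b M) (Matrix.vecMul c M) = zdet a b c * M.det := by
  have h : zmat (Matrix.vecMul a M) (Matrix.vecMul b M) (Matrix.vecMul c M) = zmat a b c * M := by
    ext r s
    fin_cases r <;> rfl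
  unfold zdet
  rw [h, Matrix.det_mul]

/-- Main comparison theorem. -/
theorem main {n n' m' : ℕ} (X : Fan n (n+3)) (Y : Fan n' m') (h : GradedIso X Y) :
    ComplexIso Y.faces X.faces := by
  obtain ⟨F, hF, _, hFc⟩ := exists_facet X.empty_mem
  obtain ⟨D, t, hX⟩ := exists_gale X hF hFc (r := 3) rfl
  obtain ⟨F', hF', _, hFc'⟩ := exists_facet Y.empty_mem
  have hle : n' ≤ m' := by
    have := Finset.card_le_univ F'
    rwa [hFc', Fintype.card_fin] at this
  obtain ⟨r', rfl⟩ := Nat.exists_eq_add_of_le hle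
  obtain ⟨D', t', hY⟩ := exists_gale Y hF' hFc' (r := r') rfl
  obtain ⟨M, M', h1, h2, h3⟩ := transport hX hY h
  have hr : Fintype.card (Fin 3) = Fintype.card (Fin r') := Matrix.square_of_invertible M M' h1 h2
  rw [Fintype.card_fin, Fintype.card_fin] at hr
  subst hr
  have h4 : QQI X.faces (fun i => Matrix.vecMul (D i) M) = QQI Y.faces D' := by
    rw [← map_JJI, ← map_JJI, h3]
  refine iso_of_QQI hX hY ?_ h4
  intro x y z hb
  rw [zdet_vecMul]
  have hM : M.det ≠ 0 := by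
    intro h0
    have := congrArg Matrix.det h1
    rw [Matrix.det_mul, h0, zero_mul, Matrix.det_one] at this
    exact zero_ne_one this
  rcases zdet_of_gale hX hb with h5 | h5 <;> rw [h5]
  · simpa using hM
  · simpa using hM

lemma ComplexIso.trans {m m' m'' : ℕ} {K : Set (Finset (Fin m))} {L : Set (Finset (Fin m'))}
    {N : Set (Finset (Fin m''))} (h1 : ComplexIso K L) (h2 : ComplexIso L N) : ComplexIso K N := by
  obtain ⟨φ, hφ⟩ := h1
  obtain ⟨ψ, hψ⟩ := h2
  refine ⟨φ.trans ψ, ?_⟩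
  intro σ
  rw [hφ, hψ, Finset.map_map]
  rfl

lemma ComplexIso.symm {m m' : ℕ} {K : Set (Finset (Fin m))} {L : Set (Finset (Fin m'))}
    (h1 : ComplexIso K L) : ComplexIso L K := by
  obtain ⟨φ, hφ⟩ := h1
  refine ⟨φ.symm, ?_⟩
  intro σ
  rw [hφ, Finset.map_map]
  have : (φ.symm.toEmbedding.trans φ.toEmbedding) = Function.Embedding.refl _ := by
    ext x; simp
  rw [this, Finset.map_refl]

lemma ComplexIso.refl {m : ℕ} (K : Set (Finset (Fin m))) : ComplexIso K K :=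
  ⟨Equiv.refl _, fun σ => by simp⟩

/-- the dimension is determined by the complex -/
lemma dim_eq {n m n' m' : ℕ} {X : Fan n m} {Z : Fan n' m'} (h : ComplexIso X.faces Z.faces) :
    n = n' ∧ m = m' := by
  obtain ⟨φ, hφ⟩ := h
  have hm : m = m' := by simpa using Fintype.card_congr φ
  refine ⟨?_, hm⟩
  apply le_antisymm
  · obtain ⟨F, hF, _, hFc⟩ := exists_facet X.empty_mem
    have := card_le ((hφ F).1 hF)
    rwa [Finset.card_map, hFc] at this
  · obtain ⟨F, hF, _, hFc⟩ := exists_facet Z.empty_mem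
    have h2 : F.map φ.symm.toEmbedding ∈ X.faces := by
      rw [hφ, Finset.map_map]
      have : (φ.symm.toEmbedding.trans φ.toEmbedding) = Function.Embedding.refl _ := by
        ext x; simp
      rw [this, Finset.map_refl]; exact hF
    have := card_le h2
    rwa [Finset.card_map, hFc] at this

/-- Every complex of a toric manifold of complex dimension `n` with `n + 3` vertices is rigid. -/
theorem rigid_add_three (n : ℕ) (Z : Fan n (n+3)) : Rigid Z.faces := by
  refine ⟨⟨n, Z, ComplexIso.refl _⟩, ?_⟩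
  intro n1 X hX n' m' Y hXY
  obtain ⟨h1, _⟩ := dim_eq hX
  subst h1
  exact (main X Y hXY).trans hX

end Pool.Agent.Helper21.Toric
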