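import Pool.Agent.Helper21.ToricDefs

namespace Pool.Agent.Helper21.Toric

open Finset

section
variable {n m : ℕ}

/-- real combination of the rays -/
def vec (ray : Fin m → Fin n → ℤ) (c : Fin m → ℝ) : Fin n → ℝ := fun j => ∑ i, c i * (ray i j : ℝ)

lemma vec_add (ray : Fin m → Fin n → ℤ) (c d : Fin m → ℝ) :
    vec ray (c + d) = vec ray c + vec ray d := by
  ext j
  simp only [vec, Pi.add_apply]
  rw [← Finset.sum_add_distrib]
  exact Finset.sum_congr rfl (fun i _ => by ring)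

lemma vec_sub (ray : Fin m → Fin n → ℤ) (c d : Fin m → ℝ) :
    vec ray (c - d) = vec ray c - vec ray d := by
  ext j
  simp only [vec, Pi.sub_apply]
  rw [← Finset.sum_sub_distrib]
  exact Finset.sum_congr rfl (fun i _ => by ring)

lemma vec_smul (ray : Fin m → Fin n → ℤ) (t : ℝ) (c : Fin m → ℝ) :
    vec ray (t • c) = t • vec ray c := by
  ext j
  simp only [vec, Pi.smul_apply, smul_eq_mul]
  rw [Finset.mul_sum]
  exact Finset.sum_congr rfl (fun i _ => by ring)

/-- pairing of an integer covector with a real vector -/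
def ipr (u : Fin n → ℤ) (v : Fin n → ℝ) : ℝ := ∑ j, (u j : ℝ) * v j
/-- pairing of an integer covector with an integer vector -/
def ipz (u : Fin n → ℤ) (v : Fin n → ℤ) : ℤ := ∑ j, u j * v j

lemma ipr_cast (u v : Fin n → ℤ) : ipr u (fun j => (v j : ℝ)) = (ipz u v : ℝ) := by
  simp [ipr, ipz]

lemma ipr_vec (ray : Fin m → Fin n → ℤ) (u : Fin n → ℤ) (c : Fin m → ℝ) :
    ipr u (vec ray c) = ∑ i, c i * (ipz u (ray i) : ℝ) := by
  simp only [ipr, vec, ipz]
  push_cast
  simp_rw [Finset.mul_sum]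
  rw [Finset.sum_comm]
  exact Finset.sum_congr rfl (fun i _ => Finset.sum_congr rfl (fun j _ => by ring))

lemma mem_realCone (ray : Fin m → Fin n → ℤ) (σ : Finset (Fin m)) (v : Fin n → ℝ) :
    v ∈ realCone ray σ ↔ ∃ c : Fin m → ℝ, (∀ i, 0 ≤ c i) ∧ (∀ i, i ∉ σ → c i = 0) ∧
      v = vec ray c := by
  constructor
  · rintro ⟨c, hc, rfl⟩
    refine ⟨fun i => if i ∈ σ then c i else 0, ?_, ?_, ?_⟩
    · intro i; dsimp only; split_ifs
      · exact hc i
      · exact le_rfl
    · intro i hi; simp [hi]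
    · ext j
      simp only [vec]
      rw [← Finset.sum_filter_add_sum_filter_not univ (fun i => i ∈ σ)]
      rw [Finset.sum_eq_zero (s := univ.filter (fun i => ¬ i ∈ σ))]
      · rw [add_zero]
        rw [Finset.filter_mem_eq_inter, Finset.univ_inter]
        exact Finset.sum_congr rfl (fun i hi => by simp [hi])
      · intro i hi
        rw [Finset.mem_filter] at hi
        simp [hi.2]
  · rintro ⟨c, hc, hc0, rfl⟩
    refine ⟨c, hc, ?_⟩
    ext j
    simp only [vec]
    symm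
    apply Finset.sum_subset (Finset.subset_univ σ)
    intro i _ hi
    rw [hc0 i hi, zero_mul]

variable (X : Fan n m)

lemma smooth' {σ : Finset (Fin m)} (hσ : σ ∈ X.faces) :
    ∃ (b u : Fin n → Fin n → ℤ) (f : Fin m → Fin n), Set.InjOn f σ ∧
      (∀ i ∈ σ, b (f i) = X.ray i) ∧ (∀ k l, ipz (u k) (b l) = if k = l then 1 else 0) ∧
      (∀ v : Fin n → ℤ, v = ∑ k, ipz (u k) v • b k) := by
  obtain ⟨b, f, hf, hb⟩ := X.smooth σ hσ
  have key : ∀ k v, ipz (fun j => b.coord k (Pi.single j 1)) v = b.coord k v := by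
    intro k v
    rw [LinearMap.pi_apply_eq_sum_univ (b.coord k) v]
    unfold ipz
    apply Finset.sum_congr rfl
    intro j _
    have h1 : (Pi.single j 1 : Fin n → ℤ) = fun l => if j = l then 1 else 0 := by
      ext l; simp [Pi.single_apply, eq_comm]
    beta_reduce
    rw [h1, smul_eq_mul, mul_comm]
  refine ⟨b, fun k j => b.coord k (Pi.single j 1), f, hf, hb, ?_, ?_⟩
  · intro k l
    rw [key]
    simp only [Module.Basis.coord_apply, Module.Basis.repr_self, Finsupp.single_apply]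
    simp [eq_comm]
  · intro v
    conv_lhs => rw [← b.sum_repr v]
    apply Finset.sum_congr rfl
    intro k _
    rw [key]
    rfl

variable {X}

lemma card_le {σ : Finset (Fin m)} (hσ : σ ∈ X.faces) : σ.card ≤ n := by
  obtain ⟨b, u, f, hf, _⟩ := smooth' X hσ
  have := Finset.card_le_card_of_injOn f (t := univ) (fun _ _ => Finset.mem_univ _) hf
  simpa using this

/-- dual vectors -/
lemma exists_dual {σ : Finset (Fin m)} (hσ : σ ∈ X.faces) {i : Fin m} (hi : i ∈ σ) :
    ∃ u : Fin n → ℤ, ∀ j ∈ σ, ipz u (X.ray j) = if i = j then 1 else 0 := by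
  obtain ⟨b, u, f, hf, hb, hub, _⟩ := smooth' X hσ
  refine ⟨u (f i), ?_⟩
  intro j hj
  rw [← hb j hj, hub]
  by_cases h : i = j
  · simp [h]
  · rw [if_neg h, if_neg]
    intro h2
    exact h (hf hi hj h2)

lemma indep {σ : Finset (Fin m)} (hσ : σ ∈ X.faces) {c : Fin m → ℝ} (hc : ∀ i, i ∉ σ → c i = 0)
    (h : vec X.ray c = 0) : c = 0 := by
  ext i
  by_cases hi : i ∈ σ
  · obtain ⟨u, hu⟩ := exists_dual hσ hi
    have h1 : ipr u (vec X.ray c) = 0 := by rw [h]; simp [ipr]
    rw [ipr_vec] at h1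
    rw [Finset.sum_eq_single i] at h1
    · rw [hu i hi] at h1
      simpa using h1
    · intro j _ hj
      by_cases hjs : j ∈ σ
      · rw [hu j hjs, if_neg hj.symm]; simp
      · rw [hc j hjs, zero_mul]
    · intro h; exact absurd (Finset.mem_univ i) h
  · exact hc i hi

lemma uniq {σ τ : Finset (Fin m)} (hσ : σ ∈ X.faces) (hτ : τ ∈ X.faces) {c d : Fin m → ℝ}
    (hc : ∀ i, 0 ≤ c i) (hcσ : ∀ i, i ∉ σ → c i = 0)
    (hd : ∀ i, 0 ≤ d i) (hdτ : ∀ i, i ∉ τ → d i = 0)
    (h : vec X.ray c = vec X.ray d) : c = d := by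
  have h1 : vec X.ray c ∈ realCone X.ray σ ∩ realCone X.ray τ := by
    refine ⟨(mem_realCone _ _ _).2 ⟨c, hc, hcσ, rfl⟩, (mem_realCone _ _ _).2 ⟨d, hd, hdτ, h⟩⟩
  rw [X.inter σ hσ τ hτ, mem_realCone] at h1
  obtain ⟨e, _, he0, hee⟩ := h1
  have h2 : c - e = 0 := by
    apply indep hσ
    · intro i hi
      rw [Pi.sub_apply, hcσ i hi, he0 i (fun h => hi (Finset.mem_inter.1 h).1), sub_zero]
    · rw [vec_sub, hee, sub_self]
  have h3 : d - e = 0 := by
    apply indep hτ
    · intro i hi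
      rw [Pi.sub_apply, hdτ i hi, he0 i (fun h => hi (Finset.mem_inter.1 h).2), sub_zero]
    · rw [vec_sub, ← h, hee, sub_self]
  rw [sub_eq_zero.1 h2, sub_eq_zero.1 h3]

/-- indicator -/
def ind1 (σ : Finset (Fin m)) : Fin m → ℝ := fun i => if i ∈ σ then 1 else 0

/-- The star of a face is a neighbourhood of the face. -/
lemma ext_face {σ : Finset (Fin m)} (hσ : σ ∈ X.faces) (w : Fin n → ℝ) :
    ∃ τ ∈ X.faces, σ ⊆ τ ∧ ∃ b : Fin m → ℝ, (∀ i, i ∉ τ → b i = 0) ∧ (∀ i, i ∉ σ → 0 ≤ b i) ∧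
      w = vec X.ray b := by
  have h1 : ∀ k : ℕ, ∃ (τ : Finset (Fin m)) (c : Fin m → ℝ), τ ∈ X.faces ∧ (∀ i, 0 ≤ c i) ∧
      (∀ i, i ∉ τ → c i = 0) ∧ (k : ℝ) • vec X.ray (ind1 σ) + w = vec X.ray c := by
    intro k
    obtain ⟨τ, hτ, hv⟩ := X.complete ((k : ℝ) • vec X.ray (ind1 σ) + w)
    rw [mem_realCone] at hv
    obtain ⟨c, hc, hc0, h⟩ := hv
    exact ⟨τ, c, hτ, hc, hc0, h⟩
  choose T c hT hc hc0 hcv using h1
  obtain ⟨τ, hτ⟩ := Finite.exists_infinite_fiber T
  have hinf : (T ⁻¹' {τ}).Infinite := Set.infinite_coe_iff.1 hτ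
  have hmem : ∀ k ∈ T ⁻¹' {τ}, T k = τ := fun k hk => hk
  obtain ⟨k0, hk0⟩ := hinf.nonempty
  obtain ⟨k1, hk1, hlt⟩ := hinf.exists_gt k0
  have hτf : τ ∈ X.faces := by rw [← hmem k0 hk0]; exact hT k0
  have hne : ((k1 : ℝ) - k0) ≠ 0 := by
    have : (k0 : ℝ) < k1 := by exact_mod_cast hlt
    linarith
  -- the direction `a` and the offset `b`
  set a : Fin m → ℝ := ((k1 : ℝ) - k0)⁻¹ • (c k1 - c k0) with ha
  have hav : vec X.ray a = vec X.ray (ind1 σ) := by
    rw [ha, vec_smul, vec_sub, ← hcv, ← hcv]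
    ext j
    simp only [Pi.smul_apply, Pi.sub_apply, Pi.add_apply, smul_eq_mul]
    field_simp
    ring
  set b : Fin m → ℝ := c k0 - (k0 : ℝ) • a with hb
  have hbv : vec X.ray b = w := by
    rw [hb, vec_sub, vec_smul, ← hcv, hav]
    ext j
    simp
  have hcτ : ∀ k ∈ T ⁻¹' {τ}, ∀ i, i ∉ τ → c k i = 0 := by
    intro k hk i hi
    exact hc0 k i (by rw [hmem k hk]; exact hi)
  have ha0 : ∀ i, i ∉ τ → a i = 0 := by
    intro i hi
    simp [ha, hcτ k1 hk1 i hi, hcτ k0 hk0 i hi]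
  have hb0 : ∀ i, i ∉ τ → b i = 0 := by
    intro i hi
    simp [hb, ha0 i hi, hcτ k0 hk0 i hi]
  have hck : ∀ k ∈ T ⁻¹' {τ}, c k = (k : ℝ) • a + b := by
    intro k hk
    rw [← sub_eq_zero]
    apply indep hτf
    · intro i hi
      simp [hcτ k hk i hi, ha0 i hi, hb0 i hi]
    · rw [vec_sub, vec_add, vec_smul, ← hcv, hav, hbv, sub_self]
  have hapos : ∀ i, 0 ≤ a i := by
    intro i
    by_contra hneg
    push Not at hneg
    obtain ⟨N, hN⟩ := exists_nat_gt (b i / (- a i))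
    obtain ⟨k, hk, hkN⟩ := hinf.exists_gt N
    have h2 := hc k i
    rw [hck k hk] at h2
    simp only [Pi.add_apply, Pi.smul_apply, smul_eq_mul] at h2
    have h3 : (N : ℝ) < k := by exact_mod_cast hkN
    have h4 : b i / (- a i) < k := lt_trans hN h3
    rw [div_lt_iff₀ (by linarith)] at h4
    linarith
  have haσ : a = ind1 σ := by
    apply uniq hτf hσ hapos ha0 _ _ hav
    · intro i; simp only [ind1]; split_ifs <;> norm_num
    · intro i hi; simp [ind1, hi]
  refine ⟨τ, hτf, ?_, b, hb0, ?_, hbv.symm⟩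
  · intro i hi
    by_contra hiτ
    have := ha0 i hiτ
    rw [haσ] at this
    simp [ind1, hi] at this
  · intro i hi
    have h2 := hc k0 i
    rw [hck k0 hk0, haσ] at h2
    simpa [ind1, hi] using h2

/-- Every face of size `< n` is contained in a bigger face. -/
lemma exists_bigger {σ : Finset (Fin m)} (hσ : σ ∈ X.faces) (hlt : σ.card < n) :
    ∃ k, k ∉ σ ∧ insert k σ ∈ X.faces := by
  obtain ⟨b, u, f, hf, hb, hub, _⟩ := smooth' X hσ
  have hex : ∃ k0, k0 ∉ σ.image f := by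
    by_contra hcon
    push Not at hcon
    have h1 : (σ.image f) = univ := by ext k; simpa using hcon k
    have h2 : (σ.image f).card ≤ σ.card := Finset.card_image_le
    rw [h1, Finset.card_univ, Fintype.card_fin] at h2
    omega
  obtain ⟨k0, hk0⟩ := hex
  obtain ⟨τ, hτ, hστ, c, hc0, _, hw⟩ := ext_face hσ (fun j => ((b k0) j : ℝ))
  have h1 : ipr (u k0) (fun j => ((b k0) j : ℝ)) = 1 := by
    rw [ipr_cast, hub]; simp
  have hne : ∃ k ∈ τ, k ∉ σ := by
    by_contra hcon
    push Not at hcon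
    rw [hw, ipr_vec, Finset.sum_eq_zero] at h1
    · norm_num at h1
    · intro i _
      by_cases hi : i ∈ τ
      · have his := hcon i hi
        rw [← hb i his, hub, if_neg]
        · simp
        · intro h; exact hk0 (Finset.mem_image.2 ⟨i, his, h.symm⟩)
      · rw [hc0 i hi, zero_mul]
  obtain ⟨k, hk, hkσ⟩ := hne
  exact ⟨k, hkσ, X.down_closed τ hτ _ (Finset.insert_subset hk hστ)⟩

/-- Every face is contained in a facet of size `n`. -/
lemma exists_facet {σ : Finset (Fin m)} (hσ : σ ∈ X.faces) :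
    ∃ τ ∈ X.faces, σ ⊆ τ ∧ τ.card = n := by
  induction hk : n - σ.card using Nat.strong_induction_on generalizing σ with
  | _ k ih =>
    rcases Nat.lt_or_ge σ.card n with h | h
    · obtain ⟨i, hi, hins⟩ := exists_bigger hσ h
      have hc : (insert i σ).card = σ.card + 1 := Finset.card_insert_of_notMem hi
      obtain ⟨τ, hτ, hsub, hcard⟩ := ih (n - (insert i σ).card) (by omega) hins rfl
      exact ⟨τ, hτ, (Finset.subset_insert _ _).trans hsub, hcard⟩
    · exact ⟨σ, hσ, Finset.Subset.refl _, le_antisymm (card_le hσ) h⟩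

/-- In a facet every integer vector is an integer combination of the rays. -/
lemma facet_basis {σ : Finset (Fin m)} (hσ : σ ∈ X.faces) (hcard : σ.card = n) (v : Fin n → ℤ) :
    ∃ a : Fin m → ℤ, (∀ i, i ∉ σ → a i = 0) ∧ v = ∑ i, a i • X.ray i := by
  classical
  obtain ⟨b, u, f, hf, hb, hub, hv⟩ := smooth' X hσ
  have himg : σ.image f = univ := by
    apply Finset.eq_univ_of_card
    rw [Finset.card_image_of_injOn hf, hcard, Fintype.card_fin]
  refine ⟨fun i => if i ∈ σ then ipz (u (f i)) v else 0, fun i hi => by simp [hi], ?_⟩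
  conv_lhs => rw [hv v, ← himg]
  rw [Finset.sum_image hf]
  have h1 : ∑ i, (if i ∈ σ then ipz (u (f i)) v else 0) • X.ray i =
      ∑ i ∈ σ, (if i ∈ σ then ipz (u (f i)) v else 0) • X.ray i := by
    symm
    apply Finset.sum_subset (Finset.subset_univ σ)
    intro i _ hi
    simp [hi]
  rw [h1]
  apply Finset.sum_congr rfl
  intro i hi
  rw [if_pos hi, hb i hi]

end

end Pool.Agent.Helper21.Toric
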