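import Mathlib

namespace Pool.Agent.Helper21.Toric

abbrev Z3 := Fin 3 → ℤ

def zmat (a b c : Z3) : Matrix (Fin 3) (Fin 3) ℤ := Matrix.of ![a, b, c]
def zdet (a b c : Z3) : ℤ := (zmat a b c).det

lemma zdet_eq (a b c : Z3) : zdet a b c =
    a 0 * b 1 * c 2 - a 0 * b 2 * c 1 - a 1 * b 0 * c 2 + a 1 * b 2 * c 0 +
        a 2 * b 0 * c 1 - a 2 * b 1 * c 0 := by
  unfold zdet
  rw [Matrix.det_fin_three]
  simp [zmat]

/-- Combinatorial and arithmetic data of the Gale dual of a complete nonsingular fan with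
`n + 3` rays. `B i j k` means: `{i, j, k}` is the complement of a maximal cone. -/
structure Dual3 {α : Type} (B : α → α → α → Prop) (D : α → Z3) : Prop where
  swap12 : ∀ i j k, B i j k → B j i k
  swap23 : ∀ i j k, B i j k → B i k j
  ne : ∀ i j k, B i j k → i ≠ j
  four : ∀ i j k l, B i j k → l ≠ i → l ≠ j → l ≠ k →
    (B i j l ∧ ¬ B i k l ∧ ¬ B j k l) ∨ (¬ B i j l ∧ B i k l ∧ ¬ B j k l) ∨
    (¬ B i j l ∧ ¬ B i k l ∧ B j k l)
  det : ∀ i j k, B i j k → zdet (D i) (D j) (D k) = 1 ∨ zdet (D i) (D j) (D k) = -1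
  sign : ∀ i j k l, B i j k → B i j l → zdet (D i) (D j) (D k) = zdet (D i) (D j) (D l)

lemma num_aux (q2 r2 q3 r3 x2 y2 x3 y3 : ℤ)
    (f4 : y2 * r3 - q3 - q2 * x2 * r3 + q2 + r2 * x2 * q3 - r2 * y2 = 1)
    (g4 : y3 - y2 - q3 * x3 + q3 * x2 + r3 * x3 * y2 - r3 * y3 * x2 = 1)
    (e25 : q2 - r2 * y2 = 1) (g1 : y2 - q2 * x2 = 1) (f3 : -(x2 * r3) + 1 = 1)
    (e26 : q2 - r2 * y3 = 1) (g2 : y3 - q2 * x3 = 1) (e36 : q3 - r3 * y3 = 1)
    (g3 : y3 - q3 * x3 = 1) : False := by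
  have h0 : x2 * r3 = 0 := by linarith
  rcases mul_eq_zero.1 h0 with rfl | rfl
  · have h1 : y2 = 1 := by linarith
    subst h1
    have h2 : r3 = q3 := by linarith
    subst h2
    have h3 : y3 = 2 := by linarith
    subst h3
    have h4 : r3 = -1 := by linarith
    subst h4
    have h5 : x3 = -1 := by linarith
    subst h5
    linarith
  · have h1 : q3 = 1 := by linarith
    subst h1
    have h2 : r2 * x2 = 1 := by linarith
    have h3 : y2 = x2 := by linarith
    subst h3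
    rcases Int.eq_one_or_neg_one_of_mul_eq_one h2 with rfl | rfl
    · have h4 : y2 = 1 := by linarith
      subst h4
      linarith
    · have h4 : y2 = -1 := by linarith
      subst h4
      have h5 : q2 = 2 := by linarith
      subst h5
      have h6 : y3 = -1 := by linarith
      subst h6
      have h7 : x3 = -1 := by linarith
      subst h7
      linarith

lemma hept_num (D : Fin 7 → Z3)
    (h012 : zdet (D 0) (D 1) (D 4) = 1)
    (e15 : zdet (D 0) (D 1) (D 5) = 1) (e16 : zdet (D 0) (D 1) (D 6) = 1)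
    (e25 : zdet (D 0) (D 2) (D 5) = 1) (e26 : zdet (D 0) (D 2) (D 6) = 1)
    (e36 : zdet (D 0) (D 3) (D 6) = 1)
    (f1 : zdet (D 1) (D 4) (D 2) = 1) (f2 : zdet (D 1) (D 4) (D 3) = 1)
    (f3 : zdet (D 1) (D 5) (D 3) = 1) (f4 : zdet (D 2) (D 5) (D 3) = 1)
    (g1 : zdet (D 2) (D 5) (D 4) = 1) (g2 : zdet (D 2) (D 6) (D 4) = 1)
    (g3 : zdet (D 3) (D 6) (D 4) = 1) (g4 : zdet (D 3) (D 6) (D 5) = 1) : False := by
  -- change of coordinates
  let N := zmat (D 0) (D 1) (D 4)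
  have hN : N.det = 1 := h012
  have hNu : IsUnit N.det := by rw [hN]; exact isUnit_one
  let E : Fin 7 → Z3 := fun i => Matrix.vecMul (D i) N⁻¹
  have hE : ∀ i, D i = Matrix.vecMul (E i) N := by
    intro i
    simp only [E]
    rw [Matrix.vecMul_vecMul, Matrix.nonsing_inv_mul _ hNu, Matrix.vecMul_one]
  have hdet : ∀ i j k, zdet (D i) (D j) (D k) = zdet (E i) (E j) (E k) := by
    intro i j k
    have : zmat (D i) (D j) (D k) = zmat (E i) (E j) (E k) * N := by
      ext r c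
      fin_cases r
      · show D i c = _
        rw [hE i]; rfl
      · show D j c = _
        rw [hE j]; rfl
      · show D k c = _
        rw [hE k]; rfl
    unfold zdet
    rw [this, Matrix.det_mul, hN, mul_one]
  have hrow : ∀ (r : Fin 3), Matrix.vecMul (N r) N⁻¹ = (1 : Matrix (Fin 3) (Fin 3) ℤ) r := by
    intro r
    have := congrFun (Matrix.mul_nonsing_inv N hNu) r
    rw [← this]
    rfl
  have E0 : E 0 = ![1, 0, 0] := by
    have := hrow 0
    show Matrix.vecMul (N 0) N⁻¹ = _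
    rw [this]; ext c; fin_cases c <;> rfl
  have E1 : E 1 = ![0, 1, 0] := by
    have := hrow 1
    show Matrix.vecMul (N 1) N⁻¹ = _
    rw [this]; ext c; fin_cases c <;> rfl
  have E4 : E 4 = ![0, 0, 1] := by
    have := hrow 2
    show Matrix.vecMul (N 2) N⁻¹ = _
    rw [this]; ext c; fin_cases c <;> rfl
  rw [hdet, zdet_eq] at *
  simp only [E0, E1, E4, Matrix.cons_val_zero, Matrix.cons_val_one, Matrix.cons_val] at *
  generalize E 2 0 = p2 at *
  generalize E 2 1 = q2 at *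
  generalize E 2 2 = r2 at *
  generalize E 3 0 = p3 at *
  generalize E 3 1 = q3 at *
  generalize E 3 2 = r3 at *
  generalize E 5 0 = x2 at *
  generalize E 5 1 = y2 at *
  generalize E 5 2 = z2 at *
  generalize E 6 0 = x3 at *
  generalize E 6 1 = y3 at *
  generalize E 6 2 = z3 at *
  simp only [zero_mul, mul_zero, one_mul, mul_one, sub_zero, zero_sub, add_zero, zero_add] at *
  subst f1 f2 e15 e16
  simp only [one_mul, mul_one] at *
  exact num_aux q2 r2 q3 r3 x2 y2 x3 y3 f4 g4 e25 g1 f3 e26 g2 e36 g3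


section Classify

variable {α : Type} {B : α → α → α → Prop} {D : α → Z3}

lemma zdet_swap12 (a b c : Z3) : zdet b a c = - zdet a b c := by
  rw [zdet_eq, zdet_eq]; ring

lemma zdet_swap23 (a b c : Z3) : zdet a c b = - zdet a b c := by
  rw [zdet_eq, zdet_eq]; ring

lemma zdet_rot (a b c : Z3) : zdet b c a = zdet a b c := by
  rw [zdet_eq, zdet_eq]; ring

namespace Dual3

lemma rot (h : Dual3 B D) {i j k : α} (hb : B i j k) : B j k i :=
  h.swap23 _ _ _ (h.swap12 _ _ _ hb)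

lemma ne12 (h : Dual3 B D) {i j k : α} (hb : B i j k) : i ≠ j := h.ne _ _ _ hb
lemma ne23 (h : Dual3 B D) {i j k : α} (hb : B i j k) : j ≠ k := h.ne _ _ _ (h.rot hb)
lemma ne13 (h : Dual3 B D) {i j k : α} (hb : B i j k) : i ≠ k :=
  (h.ne _ _ _ (h.rot (h.rot hb))).symm

open Classical in
lemma parity (h : Dual3 B D) (w x y z : α) :
    B x y z ↔ (B w x y ∧ ¬ B w y z ∧ ¬ B w x z) ∨ (¬ B w x y ∧ B w y z ∧ ¬ B w x z) ∨
      (¬ B w x y ∧ ¬ B w y z ∧ B w x z) := by
  by_cases hxy : x = y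
  · subst hxy
    have h1 : ¬ B x x z := fun hb => h.ne12 hb rfl
    have h2 : ¬ B w x x := fun hb => h.ne23 hb rfl
    tauto
  by_cases hyz : y = z
  · subst hyz
    have h1 : ¬ B x y y := fun hb => h.ne23 hb rfl
    have h2 : ¬ B w y y := fun hb => h.ne23 hb rfl
    tauto
  by_cases hxz : x = z
  · subst hxz
    have h1 : ¬ B x y x := fun hb => h.ne13 hb rfl
    have h2 : ¬ B w x x := fun hb => h.ne23 hb rfl
    have h3 : B w x y ↔ B w y x := ⟨fun hb => h.swap23 _ _ _ hb, fun hb => h.swap23 _ _ _ hb⟩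
    tauto
  by_cases hwx : w = x
  · subst hwx
    have h1 : ¬ B w w y := fun hb => h.ne12 hb rfl
    have h2 : ¬ B w w z := fun hb => h.ne12 hb rfl
    tauto
  by_cases hwy : w = y
  · subst hwy
    have h1 : ¬ B w x w := fun hb => h.ne13 hb rfl
    have h2 : ¬ B w w z := fun hb => h.ne12 hb rfl
    have h3 : B w x z ↔ B x w z := ⟨fun hb => h.swap12 _ _ _ hb, fun hb => h.swap12 _ _ _ hb⟩
    tauto
  by_cases hwz : w = z
  · subst hwz
    have h1 : ¬ B w x w := fun hb => h.ne13 hb rfl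
    have h2 : ¬ B w y w := fun hb => h.ne13 hb rfl
    have h3 : B w x y ↔ B x y w := ⟨fun hb => h.rot hb, fun hb => h.rot (h.rot hb)⟩
    tauto
  have e1 : B x y w ↔ B w x y := ⟨fun hb => h.rot (h.rot hb), fun hb => h.rot hb⟩
  have e2 : B y z w ↔ B w y z := ⟨fun hb => h.rot (h.rot hb), fun hb => h.rot hb⟩
  have e3 : B x z w ↔ B w x z := ⟨fun hb => h.rot (h.rot hb), fun hb => h.rot hb⟩
  constructor
  · intro hb
    have := h.four x y z w hb hwx hwy hwz
    rw [e1, e2, e3] at this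
    tauto
  · rintro (⟨h1, h2, h3⟩ | ⟨h1, h2, h3⟩ | ⟨h1, h2, h3⟩)
    · have := h.four w x y z h1 (Ne.symm hwz) (Ne.symm hxz) (Ne.symm hyz)
      tauto
    · have := h.four w y z x h2 (Ne.symm hwx) hxy hxz
      have f1 : B w y x ↔ B w x y := ⟨fun hb => h.swap23 _ _ _ hb, fun hb => h.swap23 _ _ _ hb⟩
      have f2 : B w z x ↔ B w x z := ⟨fun hb => h.swap23 _ _ _ hb, fun hb => h.swap23 _ _ _ hb⟩
      have f3 : B y z x ↔ B x y z := ⟨fun hb => h.rot (h.rot hb), fun hb => h.rot hb⟩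
      rw [f1, f2, f3] at this
      tauto
    · have := h.four w x z y h3 (Ne.symm hwy) (Ne.symm hxy) hyz
      have f1 : B w z y ↔ B w y z := ⟨fun hb => h.swap23 _ _ _ hb, fun hb => h.swap23 _ _ _ hb⟩
      have f2 : B x z y ↔ B x y z := ⟨fun hb => h.swap23 _ _ _ hb, fun hb => h.swap23 _ _ _ hb⟩
      rw [f1, f2] at this
      tauto

/-- `E w a b`: the oriented edge of the link of `w`. -/
def E (B : α → α → α → Prop) (D : α → Z3) (w a b : α) : Prop :=
  B w a b ∧ zdet (D w) (D a) (D b) = 1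

lemma E_or (h : Dual3 B D) {w a b : α} (hb : B w a b) : E B D w a b ∨ E B D w b a := by
  rcases h.det _ _ _ hb with h1 | h1
  · exact Or.inl ⟨hb, h1⟩
  · refine Or.inr ⟨h.swap23 _ _ _ hb, ?_⟩
    rw [zdet_swap23, h1]; norm_num

/-- sources and sinks are disjoint -/
lemma E_disj (h : Dual3 B D) {w a b c : α} (h1 : E B D w a b) (h2 : E B D w c a) : False := by
  have h3 := h.sign w a b c h1.1 (h.swap23 _ _ _ h2.1)
  rw [h1.2, zdet_swap23, h2.2] at h3
  norm_num at h3

/-- If `a` is a source and `b` a sink, then an edge between them is oriented from `a` to `b`. -/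
lemma E_of (h : Dual3 B D) {w a b b' : α} (hb : B w a b) (h1 : E B D w a b') : E B D w a b := by
  rcases h.E_or hb with h3 | h3
  · exact h3
  · exact (h.E_disj h1 h3).elim

lemma no_src_src (h : Dual3 B D) {w a a' b b' : α} (h1 : E B D w a b) (h2 : E B D w a' b') :
    ¬ B w a a' := by
  intro hb
  rcases h.E_or hb with h3 | h3
  · exact h.E_disj h2 h3
  · exact h.E_disj h1 h3

lemma no_snk_snk (h : Dual3 B D) {w a a' b b' : α} (h1 : E B D w a b) (h2 : E B D w a' b') :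
    ¬ B w b b' := by
  intro hb
  rcases h.E_or hb with h3 | h3
  · exact h.E_disj h3 h1
  · exact h.E_disj h3 h2

/-- nestedness -/
lemma nested (h : Dual3 B D) {w a a' b b' : α} (h1 : E B D w a b) (h2 : E B D w a' b')
    (h3 : ¬ B w a b') (h4 : ¬ B w a' b) : False := by
  have n1 := h.no_src_src h1 h2
  have n2 := h.no_snk_snk h1 h2
  have n4 : ¬ B w b a' := fun hb => h4 (h.swap23 _ _ _ hb)
  have n3 : ¬ B w b' a := fun hb => h3 (h.swap23 _ _ _ hb)
  have t1 : B a a' b := (h.parity w a a' b).2 (Or.inr (Or.inr ⟨n1, h4, h1.1⟩))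
  have t2 : B a a' b' := (h.parity w a a' b').2 (Or.inr (Or.inl ⟨n1, h2.1, h3⟩))
  have t3 : B a b b' := (h.parity w a b b').2 (Or.inl ⟨h1.1, n2, h3⟩)
  have hbb : b' ≠ b := by
    rintro rfl; exact h3 h1.1
  have := h.four a a' b b' t1 (h.ne13 t2).symm (h.ne23 t2).symm hbb
  tauto

/-- `zdet` is one for a triple containing an edge. -/
lemma tri (h : Dual3 B D) {w a b c : α} (h1 : E B D w a b) (h2 : B a b c) :
    zdet (D a) (D b) (D c) = 1 := by
  have h3 := h.sign a b w c (h.rot h1.1) h2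
  rw [← h3, zdet_rot, h1.2]

lemma hept (h : Dual3 B D) {w a1 a2 a3 b1 b2 b3 : α}
    (e11 : E B D w a1 b1) (e12 : E B D w a1 b2) (e13 : E B D w a1 b3)
    (e22 : E B D w a2 b2) (e23 : E B D w a2 b3) (e33 : E B D w a3 b3)
    (n21 : ¬ B w a2 b1) (n31 : ¬ B w a3 b1) (n32 : ¬ B w a3 b2) : False := by
  have m21 : ¬ B w b1 a2 := fun hb => n21 (h.swap23 _ _ _ hb)
  have m31 : ¬ B w b1 a3 := fun hb => n31 (h.swap23 _ _ _ hb)
  have m32 : ¬ B w b2 a3 := fun hb => n32 (h.swap23 _ _ _ hb)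
  refine hept_num ![D w, D a1, D a2, D a3, D b1, D b2, D b3] e11.2 e12.2 e13.2 e22.2 e23.2 e33.2
    ?_ ?_ ?_ ?_ ?_ ?_ ?_ ?_
  · exact h.tri e11 ((h.parity w a1 b1 a2).2 (Or.inl ⟨e11.1, m21, h.no_src_src e11 e22⟩))
  · exact h.tri e11 ((h.parity w a1 b1 a3).2 (Or.inl ⟨e11.1, m31, h.no_src_src e11 e33⟩))
  · exact h.tri e12 ((h.parity w a1 b2 a3).2 (Or.inl ⟨e12.1, m32, h.no_src_src e11 e33⟩))
  · exact h.tri e22 ((h.parity w a2 b2 a3).2 (Or.inl ⟨e22.1, m32, h.no_src_src e22 e33⟩))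
  · exact h.tri e22 ((h.parity w a2 b2 b1).2 (Or.inl ⟨e22.1, h.no_snk_snk e22 e11, n21⟩))
  · exact h.tri e23 ((h.parity w a2 b3 b1).2 (Or.inl ⟨e23.1, h.no_snk_snk e23 e11, n21⟩))
  · exact h.tri e33 ((h.parity w a3 b3 b1).2 (Or.inl ⟨e33.1, h.no_snk_snk e33 e11, n31⟩))
  · exact h.tri e33 ((h.parity w a3 b3 b2).2 (Or.inl ⟨e33.1, h.no_snk_snk e33 e22, n32⟩))

end Dual3

def Good3 (a b c : Fin 3) : Prop := a ≠ b ∧ b ≠ c ∧ a ≠ c

def Good5 (a b c : Fin 5) : Prop := ∃ k : Fin 5, ({a, b, c} : Finset (Fin 5)) = {k, k+1, k+3}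

instance (a b c : Fin 3) : Decidable (Good3 a b c) := by unfold Good3; infer_instance
instance (a b c : Fin 5) : Decidable (Good5 a b c) := by unfold Good5; infer_instance

def edge3 (a b : Fin 3) : Prop := (a = 1 ∧ b = 2) ∨ (a = 2 ∧ b = 1)
def edge5 (a b : Fin 5) : Prop :=
  (a = 3 ∧ b = 1) ∨ (a = 1 ∧ b = 3) ∨ (a = 3 ∧ b = 2) ∨ (a = 2 ∧ b = 3) ∨
  (a = 4 ∧ b = 2) ∨ (a = 2 ∧ b = 4)
instance (a b : Fin 3) : Decidable (edge3 a b) := by unfold edge3; infer_instance
instance (a b : Fin 5) : Decidable (edge5 a b) := by unfold edge5; infer_instance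

lemma good3_iff : ∀ a b c : Fin 3, Good3 a b c ↔
    (edge3 a b ∧ ¬ edge3 b c ∧ ¬ edge3 a c) ∨ (¬ edge3 a b ∧ edge3 b c ∧ ¬ edge3 a c) ∨
      (¬ edge3 a b ∧ ¬ edge3 b c ∧ edge3 a c) := by decide

lemma good5_iff : ∀ a b c : Fin 5, Good5 a b c ↔
    (edge5 a b ∧ ¬ edge5 b c ∧ ¬ edge5 a c) ∨ (¬ edge5 a b ∧ edge5 b c ∧ ¬ edge5 a c) ∨
      (¬ edge5 a b ∧ ¬ edge5 b c ∧ edge5 a c) := by decide


open Classical in
theorem classify (h : Dual3 B D) (hne : ∃ i j k, B i j k) :
    (∃ p : α → Fin 3, Function.Surjective p ∧ ∀ x y z, B x y z ↔ Good3 (p x) (p y) (p z)) ∨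
    (∃ p : α → Fin 5, Function.Surjective p ∧ ∀ x y z, B x y z ↔ Good5 (p x) (p y) (p z)) := by
  obtain ⟨w, a0, b0, hb0⟩ := hne
  obtain ⟨a0, b0, he0⟩ : ∃ a b, Dual3.E B D w a b := by
    rcases h.E_or hb0 with h1 | h1
    · exact ⟨_, _, h1⟩
    · exact ⟨_, _, h1⟩
  set E := Dual3.E B D w with hE
  have hBE : ∀ x y, B w x y ↔ E x y ∨ E y x := fun x y =>
    ⟨fun hb => h.E_or hb, fun hb => hb.elim (fun q => q.1) (fun q => h.swap23 _ _ _ q.1)⟩
  by_cases hc : ∀ a b a' b', E a b' → E a' b → E a b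
  · -- three parts
    left
    let p : α → Fin 3 := fun x => if ∃ b, E x b then 1 else if ∃ a, E a x then 2 else 0
    have p1 : ∀ x, p x = 1 ↔ ∃ b, E x b := by
      intro x
      simp only [p]
      split_ifs with q1 q2 <;> simp_all
    have p2 : ∀ x, p x = 2 ↔ ∃ a, E a x := by
      intro x
      simp only [p]
      split_ifs with q1 q2
      · simp only [show (1 : Fin 3) ≠ 2 by decide, false_iff]
        rintro ⟨a, ha⟩
        obtain ⟨b, hb⟩ := q1
        exact h.E_disj hb ha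
      · simp only [true_iff]; exact q2
      · simp only [show (0 : Fin 3) ≠ 2 by decide, false_iff]
        exact q2
    have key : ∀ x y, E x y ↔ p x = 1 ∧ p y = 2 := by
      intro x y
      rw [p1, p2]
      constructor
      · intro q; exact ⟨⟨y, q⟩, ⟨x, q⟩⟩
      · rintro ⟨⟨b, hb⟩, ⟨a, ha⟩⟩
        exact hc _ _ _ _ hb ha
    refine ⟨p, ?_, ?_⟩
    · intro c
      fin_cases c
      · refine ⟨w, ?_⟩
        simp only [p]
        rw [if_neg, if_neg]
        · rfl
        · rintro ⟨a, ha⟩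
          exact h.ne13 ha.1 rfl
        · rintro ⟨a, ha⟩
          exact h.ne12 ha.1 rfl
      · exact ⟨a0, (p1 _).2 ⟨b0, he0⟩⟩
      · exact ⟨b0, (p2 _).2 ⟨a0, he0⟩⟩
    · intro x y z
      rw [h.parity w x y z, good3_iff]
      have hB : ∀ x y, B w x y ↔ edge3 (p x) (p y) := by
        intro x y
        rw [hBE, key, key]
        generalize p x = u
        generalize p y = v
        revert u v
        decide
      rw [hB, hB, hB]
  · right
    push Not at hc
    obtain ⟨a2, b1, a1, b2, h22, h11, h21⟩ := hc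
    -- a2 ~ b2, a1 ~ b1, not a2 ~ b1
    have nE : ∀ {x y x' y' : α}, E x y' → E x' y → ¬ E x y → ¬ B w x y := by
      intro x y x' y' q1 q2 q3 q4
      exact q3 (h.E_of q4 q1)
    -- nestedness
    have nest : ∀ {x x' y y'}, E x y → E x' y' → ¬ E x y' → E x' y := by
      intro x x' y y' q1 q2 q3
      by_contra q4
      exact h.nested q1 q2 (nE q1 q2 q3) (nE q2 q1 q4)
    have h12 : E a1 b2 := nest h22 h11 h21
    -- chain of length at most two
    have chain : ∀ {x1 x2 x3 y1 y2 y3}, E x1 y1 → E x2 y2 → E x3 y3 →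
        ¬ E x2 y1 → ¬ E x3 y2 → False := by
      intro x1 x2 x3 y1 y2 y3 q1 q2 q3 q4 q5
      have r1 : E x1 y2 := nest q2 q1 q4
      have r2 : E x2 y3 := nest q3 q2 q5
      have r3 : E x1 y3 := nest q3 r1 q5
      have r4 : ¬ E x3 y1 := by
        intro r
        have := nest q2 r q4
        exact q5 this
      exact h.hept q1 r1 r3 q2 r2 q3 (nE q2 q1 q4) (nE q3 q1 r4) (nE q3 q2 q5)
    let p : α → Fin 5 := fun x => if ∃ b, E x b then (if E x b1 then 3 else 4) else
      if ∃ a, E a x then (if E a2 x then 2 else 1) else 0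
    have p3 : ∀ x, p x = 3 ↔ E x b1 := by
      intro x
      simp only [p]
      split_ifs with q1 q2 q3 q4
      · simp [q2]
      · simp [q2]
      · simp only [show (2 : Fin 5) ≠ 3 by decide, false_iff]
        intro q; exact q1 ⟨_, q⟩
      · simp only [show (1 : Fin 5) ≠ 3 by decide, false_iff]
        intro q; exact q1 ⟨_, q⟩
      · simp only [show (0 : Fin 5) ≠ 3 by decide, false_iff]
        intro q; exact q1 ⟨_, q⟩
    have p4 : ∀ x, p x = 4 ↔ (∃ b, E x b) ∧ ¬ E x b1 := by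
      intro x
      simp only [p]
      split_ifs with q1 q2 q3 q4
      · simp [q2]
      · simp [q2, q1]
      · simp [q1]
      · simp [q1]
      · simp [q1]
    have nsrc : ∀ x y z, E x y → ¬ E z x := by
      intro x y z q1 q2
      exact h.E_disj q1 q2
    have p2 : ∀ x, p x = 2 ↔ E a2 x := by
      intro x
      simp only [p]
      split_ifs with q1 q2 q3 q4
      · simp only [show (3 : Fin 5) ≠ 2 by decide, false_iff]
        exact nsrc _ _ _ q2
      · simp only [show (4 : Fin 5) ≠ 2 by decide, false_iff]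
        obtain ⟨b, hb⟩ := q1
        exact nsrc _ _ _ hb
      · simp [q4]
      · simp [q4]
      · simp only [show (0 : Fin 5) ≠ 2 by decide, false_iff]
        intro q; exact q3 ⟨_, q⟩
    have p1 : ∀ x, p x = 1 ↔ (∃ a, E a x) ∧ ¬ E a2 x := by
      intro x
      simp only [p]
      split_ifs with q1 q2 q3 q4
      · simp only [show (3 : Fin 5) ≠ 1 by decide, false_iff]
        rintro ⟨⟨a, ha⟩, _⟩
        exact nsrc _ _ _ q2 ha
      · simp only [show (4 : Fin 5) ≠ 1 by decide, false_iff]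
        obtain ⟨b, hb⟩ := q1
        rintro ⟨⟨a, ha⟩, _⟩
        exact nsrc _ _ _ hb ha
      · simp [q4]
      · simp [q3, q4]
      · simp [q3]
    have key : ∀ x y, E x y ↔ (p x = 3 ∧ p y = 1) ∨ (p x = 3 ∧ p y = 2) ∨ (p x = 4 ∧ p y = 2) := by
      intro x y
      rw [p1, p2, p3, p4]
      constructor
      · intro q
        by_cases r1 : E x b1
        · by_cases r2 : E a2 y
          · right; left; exact ⟨r1, r2⟩
          · left; exact ⟨r1, ⟨x, q⟩, r2⟩
        · right; right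
          refine ⟨⟨⟨y, q⟩, r1⟩, ?_⟩
          by_contra r2
          -- x ~ y, not x ~ b1, not a2 ~ y : x > a2 and a1 > x : contradiction
          exact chain h11 q h22 r1 r2
      · rintro (⟨r1, ⟨a, ha⟩, r2⟩ | ⟨r1, r2⟩ | ⟨⟨⟨b, hb⟩, r1⟩, r2⟩)
        · by_contra q
          -- a ~ y, not x ~ y, x ~ b1, not a2 ~ b1
          exact chain ha r1 h22 q h21
        · by_contra q
          exact h21 (nest r1 r2 q)
        · by_contra q
          -- not x ~ y, a2 ~ y, x ~ b; not a2 ~ b1, a1 ~ b1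
          exact chain h11 r2 hb h21 q
    refine ⟨p, ?_, ?_⟩
    · intro c
      fin_cases c
      · refine ⟨w, ?_⟩
        simp only [p]
        rw [if_neg, if_neg]
        · rfl
        · rintro ⟨a, ha⟩
          exact h.ne13 ha.1 rfl
        · rintro ⟨a, ha⟩
          exact h.ne12 ha.1 rfl
      · exact ⟨b1, (p1 _).2 ⟨⟨a1, h11⟩, h21⟩⟩
      · exact ⟨b2, (p2 _).2 h22⟩
      · exact ⟨a1, (p3 _).2 h11⟩
      · exact ⟨a2, (p4 _).2 ⟨⟨b2, h22⟩, h21⟩⟩
    · intro x y z
      rw [h.parity w x y z, good5_iff]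
      have hB : ∀ x y, B w x y ↔ edge5 (p x) (p y) := by
        intro x y
        rw [hBE, key, key]
        generalize p x = u
        generalize p y = v
        revert u v
        decide
      rw [hB, hB, hB]

end Classify

end Pool.Agent.Helper21.Toric
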