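import Pool.Agent.Helper21.FanBasic
import Pool.Agent.Helper21.TwoGraph

namespace Pool.Agent.Helper21.Toric

open Finset

section
variable {n m : ℕ}

lemma ipz_sum (u : Fin n → ℤ) (ray : Fin m → Fin n → ℤ) (a : Fin m → ℤ) :
    ipz u (∑ i, a i • ray i) = ∑ i, a i * ipz u (ray i) := by
  unfold ipz
  simp only [Finset.sum_apply, Pi.smul_apply, smul_eq_mul, Finset.mul_sum]
  rw [Finset.sum_comm]
  exact Finset.sum_congr rfl (fun i _ => Finset.sum_congr rfl (fun j _ => by ring))

lemma ipz_add (u v w : Fin n → ℤ) : ipz u (v + w) = ipz u v + ipz u w := by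
  unfold ipz; rw [← Finset.sum_add_distrib]
  exact Finset.sum_congr rfl (fun j _ => by simp only [Pi.add_apply]; ring)

lemma ipz_sub (u v w : Fin n → ℤ) : ipz u (v - w) = ipz u v - ipz u w := by
  unfold ipz; rw [← Finset.sum_sub_distrib]
  exact Finset.sum_congr rfl (fun j _ => by simp only [Pi.sub_apply]; ring)

lemma ipz_neg_neg (u v : Fin n → ℤ) : ipz (-u) (-v) = ipz u v := by
  unfold ipz
  exact Finset.sum_congr rfl (fun j _ => by simp only [Pi.neg_apply]; ring)

lemma ipz_neg_left (u v : Fin n → ℤ) : ipz (-u) v = - ipz u v := by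
  unfold ipz
  rw [← Finset.sum_neg_distrib]
  exact Finset.sum_congr rfl (fun j _ => by simp only [Pi.neg_apply]; ring)

variable {X : Fan n m}

/-- unit values on the extra ray of a facet over a ridge -/
lemma unit_value {ρ : Finset (Fin m)} (hcard : ρ.card + 1 = n) {u w : Fin n → ℤ}
    (hu : ∀ i ∈ ρ, ipz u (X.ray i) = 0) (hw : ipz u w = 1) {p : Fin m} (hp : p ∉ ρ)
    (hf : insert p ρ ∈ X.faces) : ipz u (X.ray p) = 1 ∨ ipz u (X.ray p) = -1 := by
  have hc : (insert p ρ).card = n := by rw [Finset.card_insert_of_notMem hp, hcard]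
  obtain ⟨a, ha0, ha⟩ := facet_basis hf hc w
  rw [ha, ipz_sum, Finset.sum_eq_single p] at hw
  · exact Int.eq_one_or_neg_one_of_mul_eq_one (by rw [mul_comm]; exact hw)
  · intro j _ hj
    by_cases hjρ : j ∈ ρ
    · rw [hu j hjρ, mul_zero]
    · rw [ha0 j (by simp [hj, hjρ]), zero_mul]
  · intro h; exact absurd (Finset.mem_univ p) h

lemma side_exists {ρ : Finset (Fin m)} (hρ : ρ ∈ X.faces) (hcard : ρ.card + 1 = n)
    {u w : Fin n → ℤ} (hu : ∀ i ∈ ρ, ipz u (X.ray i) = 0) (hw : ipz u w = 1) :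
    ∃ k, k ∉ ρ ∧ insert k ρ ∈ X.faces ∧ ipz u (X.ray k) = 1 := by
  obtain ⟨τ, hτ, hρτ, c, hc0, hcpos, hv⟩ := ext_face hρ (fun j => (w j : ℝ))
  have h1 : ipr u (fun j => (w j : ℝ)) = 1 := by rw [ipr_cast, hw]; simp
  rw [hv, ipr_vec] at h1
  have h2 : ∃ i, 0 < c i * (ipz u (X.ray i) : ℝ) := by
    by_contra hcon
    push Not at hcon
    have : ∑ i, c i * (ipz u (X.ray i) : ℝ) ≤ 0 := Finset.sum_nonpos (fun i _ => hcon i)
    linarith
  obtain ⟨i, hi⟩ := h2
  have hiρ : i ∉ ρ := by
    intro h; rw [hu i h] at hi; simp at hi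
  have hci : 0 < c i := by
    rcases (hcpos i hiρ).lt_or_eq with h | h
    · exact h
    · rw [← h] at hi; simp at hi
  have hiτ : i ∈ τ := by
    by_contra h
    rw [hc0 i h] at hci; exact lt_irrefl _ hci
  have hf : insert i ρ ∈ X.faces := X.down_closed τ hτ _ (Finset.insert_subset hiτ hρτ)
  refine ⟨i, hiρ, hf, ?_⟩
  have hpos : (0 : ℝ) < (ipz u (X.ray i) : ℝ) := by
    by_contra h
    push Not at h
    nlinarith
  have hpos' : 0 < ipz u (X.ray i) := by exact_mod_cast hpos
  rcases unit_value hcard hu hw hiρ hf with h | h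
  · exact h
  · omega

lemma ker_ridge {ρ : Finset (Fin m)} (hcard : ρ.card + 1 = n)
    {u : Fin n → ℤ} (hu : ∀ i ∈ ρ, ipz u (X.ray i) = 0) {q : Fin m} (hq : q ∉ ρ)
    (hf : insert q ρ ∈ X.faces) (hq0 : ipz u (X.ray q) ≠ 0) {v : Fin n → ℤ} (hv : ipz u v = 0) :
    ∃ a : Fin m → ℤ, (∀ i, i ∉ ρ → a i = 0) ∧ v = ∑ i, a i • X.ray i := by
  have hc : (insert q ρ).card = n := by rw [Finset.card_insert_of_notMem hq, hcard]
  obtain ⟨a, ha0, ha⟩ := facet_basis hf hc v
  have haq : a q = 0 := by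
    rw [ha, ipz_sum, Finset.sum_eq_single q] at hv
    · exact (mul_eq_zero.1 hv).resolve_right hq0
    · intro j _ hj
      by_cases hjρ : j ∈ ρ
      · rw [hu j hjρ, mul_zero]
      · rw [ha0 j (by simp [hj, hjρ]), zero_mul]
    · intro h; exact absurd (Finset.mem_univ q) h
  refine ⟨a, ?_, ha⟩
  intro i hi
  by_cases hiq : i = q
  · rw [hiq, haq]
  · exact ha0 i (by simp [hiq, hi])

lemma side_unique {ρ : Finset (Fin m)} (hcard : ρ.card + 1 = n)
    {u : Fin n → ℤ} (hu : ∀ i ∈ ρ, ipz u (X.ray i) = 0) {p q : Fin m} (hp : p ∉ ρ) (hq : q ∉ ρ)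
    (hfp : insert p ρ ∈ X.faces) (hfq : insert q ρ ∈ X.faces)
    (hpq : ipz u (X.ray p) = ipz u (X.ray q)) (hq0 : ipz u (X.ray q) ≠ 0) : p = q := by
  by_contra hne
  have hv : ipz u (X.ray p - X.ray q) = 0 := by rw [ipz_sub, hpq, sub_self]
  obtain ⟨a, ha0, ha⟩ := ker_ridge hcard hu hq hfq hq0 hv
  -- a large number
  obtain ⟨N, hN⟩ : ∃ N : ℤ, 0 ≤ N ∧ ∀ i, 0 ≤ N + a i := by
    refine ⟨∑ i, |a i|, Finset.sum_nonneg (fun i _ => abs_nonneg _), ?_⟩
    intro i
    have := Finset.single_le_sum (f := fun i => |a i|) (fun i _ => abs_nonneg _) (Finset.mem_univ i)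
    have h2 := neg_abs_le (a i)
    linarith
  let c : Fin m → ℝ := fun i => (if i ∈ ρ then (N : ℝ) else 0) + (if i = p then 1 else 0)
  let d : Fin m → ℝ := fun i => (if i ∈ ρ then (N : ℝ) + a i else 0) + (if i = q then 1 else 0)
  have hcd : c = d := by
    apply uniq hfp hfq
    · intro i; simp only [c]
      have : (0 : ℝ) ≤ N := by exact_mod_cast hN.1
      split_ifs <;> linarith
    · intro i hi
      rw [Finset.mem_insert, not_or] at hi
      simp [c, hi.1, hi.2]
    · intro i; simp only [d]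
      have : (0 : ℝ) ≤ (N : ℝ) + a i := by exact_mod_cast hN.2 i
      split_ifs <;> linarith
    · intro i hi
      rw [Finset.mem_insert, not_or] at hi
      simp [d, hi.1, hi.2]
    · ext j
      have h1 : (X.ray p j : ℝ) - X.ray q j = ∑ i, (a i : ℝ) * X.ray i j := by
        have := congrFun ha j
        simp only [Pi.sub_apply, Finset.sum_apply, Pi.smul_apply, smul_eq_mul] at this
        exact_mod_cast this
      have h2 : ∑ i, (a i : ℝ) * X.ray i j = ∑ i, (if i ∈ ρ then (a i : ℝ) else 0) * X.ray i j := by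
        apply Finset.sum_congr rfl
        intro i _
        split_ifs with h
        · rfl
        · rw [ha0 i h]; simp
      simp only [vec, c, d]
      have h3 : ∀ i, ((if i ∈ ρ then (N : ℝ) + a i else 0) + (if i = q then 1 else 0)) * (X.ray i j : ℝ)
          = (if i ∈ ρ then (N : ℝ) else 0) * X.ray i j + (if i ∈ ρ then (a i : ℝ) else 0) * X.ray i j
            + (if i = q then 1 else 0) * X.ray i j := by
        intro i; split_ifs <;> ring
      simp_rw [h3]
      rw [Finset.sum_add_distrib, Finset.sum_add_distrib, ← h2, ← h1]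
      simp_rw [add_mul]
      rw [Finset.sum_add_distrib]
      simp only [ite_mul, one_mul, zero_mul, Finset.sum_ite_eq', Finset.mem_univ, if_true]
      ring
  have := congrFun hcd p
  simp only [c, d, if_neg hp, if_neg hne] at this
  norm_num at this

/-- A ridge lies in exactly two facets. -/
lemma ridge {ρ : Finset (Fin m)} (hρ : ρ ∈ X.faces) (hcard : ρ.card + 1 = n) :
    ∃ (u : Fin n → ℤ) (k l : Fin m), (∀ i ∈ ρ, ipz u (X.ray i) = 0) ∧
      ipz u (X.ray k) = 1 ∧ ipz u (X.ray l) = -1 ∧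
      ∀ p, p ∉ ρ → (insert p ρ ∈ X.faces ↔ (p = k ∨ p = l)) := by
  obtain ⟨b, u, f, hf, hb, hub, _⟩ := smooth' X hρ
  have hex : ∃ k0, k0 ∉ ρ.image f := by
    by_contra hcon
    push Not at hcon
    have h1 : (ρ.image f) = univ := by ext k; simpa using hcon k
    have h2 : (ρ.image f).card ≤ ρ.card := Finset.card_image_le
    rw [h1, Finset.card_univ, Fintype.card_fin] at h2
    omega
  obtain ⟨k0, hk0⟩ := hex
  have hu : ∀ i ∈ ρ, ipz (u k0) (X.ray i) = 0 := by
    intro i hi
    rw [← hb i hi, hub, if_neg]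
    intro h; exact hk0 (Finset.mem_image.2 ⟨i, hi, h.symm⟩)
  have hw : ipz (u k0) (b k0) = 1 := by rw [hub]; simp
  have hu' : ∀ i ∈ ρ, ipz (-(u k0)) (X.ray i) = 0 := by
    intro i hi; rw [ipz_neg_left, hu i hi, neg_zero]
  have hw' : ipz (-(u k0)) (-(b k0)) = 1 := by rw [ipz_neg_neg, hw]
  obtain ⟨k, hkρ, hkf, hk⟩ := side_exists hρ hcard hu hw
  obtain ⟨l, hlρ, hlf, hl⟩ := side_exists hρ hcard hu' hw'
  have hl' : ipz (u k0) (X.ray l) = -1 := by rw [ipz_neg_left] at hl; omega
  refine ⟨u k0, k, l, hu, hk, hl', ?_⟩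
  intro p hp
  constructor
  · intro hpf
    rcases unit_value hcard hu hw hp hpf with h | h
    · left
      exact side_unique hcard hu hp hkρ hpf hkf (by rw [h, hk]) (by rw [hk]; norm_num)
    · right
      exact side_unique hcard hu hp hlρ hpf hlf (by rw [h, hl']) (by rw [hl']; norm_num)
  · rintro (rfl | rfl)
    · exact hkf
    · exact hlf

/-- Gale dual coordinates -/
structure Gale {r : ℕ} (X : Fan n m) (D : Fin m → Fin r → ℤ) (t : Fin r → Fin m) : Prop where
  rel : ∀ s, ∑ i, D i s • X.ray i = 0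
  std : ∀ s s', D (t s) s' = if s = s' then 1 else 0
  span : ∀ i, ∃ u : Fin n → ℤ, ∀ j, ipz u (X.ray j) =
    (if i = j then 1 else 0) - ∑ s, D i s * (if j = t s then 1 else 0)

theorem exists_gale (X : Fan n m) {F : Finset (Fin m)} (hF : F ∈ X.faces) (hcard : F.card = n)
    {r : ℕ} (hr : m = n + r) :
    ∃ (D : Fin m → Fin r → ℤ) (t : Fin r → Fin m), Gale X D t := by
  have hc : (Fᶜ).card = r := by
    rw [Finset.card_compl, Fintype.card_fin, hcard]; omega
  let t : Fin r → Fin m := fun s => (Fᶜ).orderEmbOfFin hc s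
  have htinj : Function.Injective t := (Fᶜ.orderEmbOfFin hc).injective
  have htF : ∀ s, t s ∉ F := by
    intro s
    exact Finset.mem_compl.1 (Finset.orderEmbOfFin_mem (Fᶜ) hc s)
  have htsurj : ∀ i, i ∉ F → ∃ s, t s = i := by
    intro i hi
    have h1 : i ∈ Set.range (Fᶜ.orderEmbOfFin hc) := by
      rw [Finset.range_orderEmbOfFin]; simpa using hi
    exact h1
  have hA : ∀ s, ∃ a : Fin m → ℤ, (∀ i, i ∉ F → a i = 0) ∧ X.ray (t s) = ∑ i, a i • X.ray i :=
    fun s => facet_basis hF hcard _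
  choose a ha0 ha using hA
  refine ⟨fun i s => (if i = t s then 1 else 0) - a s i, t, ?_, ?_, ?_⟩
  · intro s
    simp_rw [sub_smul]
    rw [Finset.sum_sub_distrib, ← ha s]
    simp
  · intro s s'
    beta_reduce
    rw [ha0 s' (t s) (htF s), sub_zero]
    simp [htinj.eq_iff]
  · intro i
    by_cases hi : i ∈ F
    · obtain ⟨u, hu⟩ := exists_dual hF hi
      refine ⟨u, ?_⟩
      intro j
      by_cases hj : j ∈ F
      · rw [hu j hj]
        have : ∀ s, j ≠ t s := fun s h => htF s (h ▸ hj)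
        simp [this]
      · obtain ⟨s', rfl⟩ := htsurj j hj
        rw [ha s', ipz_sum]
        have h1 : ∑ l, a s' l * ipz u (X.ray l) = a s' i := by
          rw [Finset.sum_eq_single i]
          · rw [hu i hi]; simp
          · intro l _ hl
            by_cases hlF : l ∈ F
            · rw [hu l hlF, if_neg hl.symm, mul_zero]
            · rw [ha0 s' l hlF, zero_mul]
          · intro h; exact absurd (Finset.mem_univ i) h
        have h2 : ∀ s, i ≠ t s := fun s h => htF s (h ▸ hi)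
        rw [h1]
        simp only [htinj.eq_iff, h2, if_false, zero_sub]
        simp
    · obtain ⟨s0, rfl⟩ := htsurj i hi
      refine ⟨0, ?_⟩
      intro j
      have h0 : ipz 0 (X.ray j) = 0 := by simp [ipz]
      rw [h0]
      simp only [ha0 _ _ (htF s0), sub_zero, htinj.eq_iff]
      rw [Finset.sum_eq_single s0]
      · simp [eq_comm]
      · intro s _ hs
        simp [hs.symm]
      · intro h; exact absurd (Finset.mem_univ _) h

namespace Gale
variable {r : ℕ} {D : Fin m → Fin r → ℤ} {t : Fin r → Fin m}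

lemma relation (h : Gale X D t) {c : Fin m → ℤ} (hc : ∑ i, c i • X.ray i = 0) (i : Fin m) :
    c i = ∑ s, D i s * c (t s) := by
  obtain ⟨u, hu⟩ := h.span i
  have h1 : ipz u (∑ i, c i • X.ray i) = 0 := by rw [hc]; simp [ipz]
  rw [ipz_sum] at h1
  simp_rw [hu, mul_sub] at h1
  rw [Finset.sum_sub_distrib, sub_eq_zero] at h1
  have h2 : ∑ x, c x * (if i = x then 1 else 0) = c i := by simp
  rw [h2] at h1
  rw [h1]
  simp_rw [Finset.mul_sum]
  rw [Finset.sum_comm]
  apply Finset.sum_congr rfl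
  intro s _
  rw [Finset.sum_eq_single (t s)]
  · simp; ring
  · intro j _ hj; simp [hj]
  · intro h; exact absurd (Finset.mem_univ _) h

end Gale
end

section three
variable {n : ℕ}

/-- complements of facets -/
def Bt (X : Fan n (n+3)) (i j k : Fin (n+3)) : Prop :=
  i ≠ j ∧ j ≠ k ∧ i ≠ k ∧ ({i, j, k}ᶜ : Finset (Fin (n+3))) ∈ X.faces

variable {X : Fan n (n+3)}

lemma card_compl3 {i j k : Fin (n+3)} (hij : i ≠ j) (hjk : j ≠ k) (hik : i ≠ k) :
    ({i, j, k}ᶜ : Finset (Fin (n+3))).card = n := by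
  have : ({i, j, k} : Finset (Fin (n+3))).card = 3 := by
    rw [Finset.card_insert_of_notMem (by simp [hij, hik]), Finset.card_insert_of_notMem
      (by simp [hjk]), Finset.card_singleton]
  rw [Finset.card_compl, this, Fintype.card_fin]; omega

lemma card_compl4 {i j k l : Fin (n+3)} (hij : i ≠ j) (hjk : j ≠ k) (hik : i ≠ k)
    (hli : l ≠ i) (hlj : l ≠ j) (hlk : l ≠ k) :
    ({i, j, k, l}ᶜ : Finset (Fin (n+3))).card + 1 = n := by
  have h4 : ({i, j, k, l} : Finset (Fin (n+3))).card = 4 := by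
    rw [Finset.card_insert_of_notMem (by simp [hij, hik, hli.symm]),
      Finset.card_insert_of_notMem (by simp [hjk, hlj.symm]),
      Finset.card_insert_of_notMem (by simp [hlk.symm]), Finset.card_singleton]
  have h5 : ({i, j, k, l} : Finset (Fin (n+3))).card ≤ Fintype.card (Fin (n+3)) :=
    Finset.card_le_univ _
  rw [h4, Fintype.card_fin] at h5
  rw [Finset.card_compl, h4, Fintype.card_fin]
  omega

lemma zdet_of_gale {D : Fin (n+3) → Z3} {t : Fin 3 → Fin (n+3)} (hG : Gale X D t)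
    {i j k : Fin (n+3)} (h : Bt X i j k) :
    zdet (D i) (D j) (D k) = 1 ∨ zdet (D i) (D j) (D k) = -1 := by
  obtain ⟨hij, hjk, hik, hf⟩ := h
  have hcard := card_compl3 hij hjk hik
  -- relations
  have hR : ∀ q ∈ ({i, j, k} : Finset (Fin (n+3))), ∃ c : Fin (n+3) → ℤ,
      (∀ p ∈ ({i, j, k} : Finset (Fin (n+3))), c p = if p = q then 1 else 0) ∧
      ∑ p, c p • X.ray p = 0 := by
    intro q hq
    obtain ⟨a, ha0, ha⟩ := facet_basis hf hcard (X.ray q)
    refine ⟨fun p => (if p = q then 1 else 0) - a p, ?_, ?_⟩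
    · intro p hp
      beta_reduce
      rw [ha0 p (by rw [Finset.mem_compl, not_not]; exact hp), sub_zero]
    · simp_rw [sub_smul]
      rw [Finset.sum_sub_distrib, ← ha]
      simp
  obtain ⟨ci, hci, hci'⟩ := hR i (by simp)
  obtain ⟨cj, hcj, hcj'⟩ := hR j (by simp)
  obtain ⟨ck, hck, hck'⟩ := hR k (by simp)
  let N : Matrix (Fin 3) (Fin 3) ℤ := Matrix.of fun s q => ![ci (t s), cj (t s), ck (t s)] q
  have hmul : zmat (D i) (D j) (D k) * N = 1 := by
    ext a b
    rw [Matrix.mul_apply]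
    have e1 : ∀ p, ∑ s, D p s * ci (t s) = ci p := fun p => (hG.relation hci' p).symm
    have e2 : ∀ p, ∑ s, D p s * cj (t s) = cj p := fun p => (hG.relation hcj' p).symm
    have e3 : ∀ p, ∑ s, D p s * ck (t s) = ck p := fun p => (hG.relation hck' p).symm
    fin_cases a <;> fin_cases b
    · exact (e1 i).trans (by rw [hci i (by simp)]; simp)
    · exact (e2 i).trans (by rw [hcj i (by simp)]; simp [hij])
    · exact (e3 i).trans (by rw [hck i (by simp)]; simp [hik])
    · exact (e1 j).trans (by rw [hci j (by simp)]; simp [hij.symm])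
    · exact (e2 j).trans (by rw [hcj j (by simp)]; simp)
    · exact (e3 j).trans (by rw [hck j (by simp)]; simp [hjk])
    · exact (e1 k).trans (by rw [hci k (by simp)]; simp [hik.symm])
    · exact (e2 k).trans (by rw [hcj k (by simp)]; simp [hjk.symm])
    · exact (e3 k).trans (by rw [hck k (by simp)]; simp)
  have hdet := congrArg Matrix.det hmul
  rw [Matrix.det_mul, Matrix.det_one] at hdet
  exact Int.eq_one_or_neg_one_of_mul_eq_one hdet

lemma compl_insert4 {i j k l : Fin (n+3)} (hli : l ≠ i) (hlj : l ≠ j) (hlk : l ≠ k) :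
    insert l ({i, j, k, l}ᶜ : Finset (Fin (n+3))) = {i, j, k}ᶜ := by
  ext x
  simp only [Finset.mem_insert, Finset.mem_compl, Finset.mem_singleton, not_or]
  constructor
  · rintro (rfl | h)
    · exact ⟨hli, hlj, hlk⟩
    · exact ⟨h.1, h.2.1, h.2.2.1⟩
  · intro h
    by_cases hx : x = l
    · left; exact hx
    · right; exact ⟨h.1, h.2.1, h.2.2, hx⟩

theorem dual3_of_gale {D : Fin (n+3) → Z3} {t : Fin 3 → Fin (n+3)} (hG : Gale X D t) :
    Dual3 (Bt X) D := by
  have hswap12 : ∀ i j k, Bt X i j k → Bt X j i k := by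
    rintro i j k ⟨h1, h2, h3, h4⟩
    refine ⟨h1.symm, h3, h2, ?_⟩
    rwa [Finset.insert_comm]
  have hswap23 : ∀ i j k, Bt X i j k → Bt X i k j := by
    rintro i j k ⟨h1, h2, h3, h4⟩
    refine ⟨h3, h2.symm, h1, ?_⟩
    rwa [Finset.pair_comm]
  have ridge4 : ∀ i j k l, Bt X i j k → l ≠ i → l ≠ j → l ≠ k →
      ∃ (u : Fin n → ℤ) (p q : Fin (n+3)),
        (∀ x ∈ ({i, j, k, l}ᶜ : Finset (Fin (n+3))), ipz u (X.ray x) = 0) ∧
        ipz u (X.ray p) = 1 ∧ ipz u (X.ray q) = -1 ∧
        (Bt X i j k ↔ (l = p ∨ l = q)) ∧ (Bt X i j l ↔ (k = p ∨ k = q)) ∧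
        (Bt X i k l ↔ (j = p ∨ j = q)) ∧ (Bt X j k l ↔ (i = p ∨ i = q)) ∧
        ({i, j, k, l}ᶜ : Finset (Fin (n+3))).card + 1 = n := by
    intro i j k l hb hli hlj hlk
    obtain ⟨hij, hjk, hik, hf⟩ := hb
    have hc4 := card_compl4 hij hjk hik hli hlj hlk
    have hρ : ({i, j, k, l}ᶜ : Finset (Fin (n+3))) ∈ X.faces := by
      apply X.down_closed _ hf
      rw [← compl_insert4 hli hlj hlk]
      exact Finset.subset_insert _ _
    obtain ⟨u, p, q, hu, hp, hq, hpq⟩ := ridge hρ hc4
    refine ⟨u, p, q, hu, hp, hq, ?_, ?_, ?_, ?_, hc4⟩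
    · rw [← hpq l (by simp), compl_insert4 hli hlj hlk]
      exact ⟨fun h => h.2.2.2, fun h => ⟨hij, hjk, hik, h⟩⟩
    · rw [← hpq k (by simp)]
      have : ({i, j, k, l}ᶜ : Finset (Fin (n+3))) = {i, j, l, k}ᶜ := by
        rw [Finset.pair_comm k l]
      rw [this, compl_insert4 hik.symm hjk.symm hlk.symm]
      exact ⟨fun h => h.2.2.2, fun h => ⟨hij, hlj.symm, hli.symm, h⟩⟩
    · rw [← hpq j (by simp)]
      have : ({i, j, k, l}ᶜ : Finset (Fin (n+3))) = {i, k, l, j}ᶜ := by
        rw [Finset.insert_comm j k, Finset.pair_comm j l]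
      rw [this, compl_insert4 hij.symm hjk hlj.symm]
      exact ⟨fun h => h.2.2.2, fun h => ⟨hik, hlk.symm, hli.symm, h⟩⟩
    · rw [← hpq i (by simp)]
      have : ({i, j, k, l}ᶜ : Finset (Fin (n+3))) = {j, k, l, i}ᶜ := by
        rw [Finset.insert_comm i j, Finset.insert_comm i k, Finset.pair_comm i l]
      rw [this, compl_insert4 hij hik hli.symm]
      exact ⟨fun h => h.2.2.2, fun h => ⟨hjk, hlk.symm, hlj.symm, h⟩⟩
  refine ⟨hswap12, hswap23, fun i j k h => h.1, ?_, fun i j k h => zdet_of_gale hG h, ?_⟩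
  · intro i j k l hb hli hlj hlk
    obtain ⟨u, p, q, hu, hp, hq, h1, h2, h3, h4, hc4⟩ := ridge4 i j k l hb hli hlj hlk
    have hpq : p ≠ q := by
      rintro rfl; rw [hp] at hq; norm_num at hq
    obtain ⟨hij, hjk, hik, hf⟩ := hb
    -- membership of p and q in {i,j,k,l}
    have hpm : p = i ∨ p = j ∨ p = k ∨ p = l := by
      by_contra hcon
      have : p ∈ ({i, j, k, l}ᶜ : Finset (Fin (n+3))) := by
        simp only [Finset.mem_compl, Finset.mem_insert, Finset.mem_singleton]
        exact hcon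
      rw [hu p this] at hp; norm_num at hp
    have hqm : q = i ∨ q = j ∨ q = k ∨ q = l := by
      by_contra hcon
      have : q ∈ ({i, j, k, l}ᶜ : Finset (Fin (n+3))) := by
        simp only [Finset.mem_compl, Finset.mem_insert, Finset.mem_singleton]
        exact hcon
      rw [hu q this] at hq; norm_num at hq
    have hl := h1.1 ⟨hij, hjk, hik, hf⟩
    rw [h2, h3, h4]
    rcases hl with rfl | rfl
    · rcases hqm with rfl | rfl | rfl | rfl
      · right; right; refine ⟨?_, ?_, ?_⟩ <;> simp [hij, hjk, hik, hli, hlj, hlk, hij.symm, hjk.symm,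
          hik.symm, hli.symm, hlj.symm, hlk.symm]
      · right; left; refine ⟨?_, ?_, ?_⟩ <;> simp [hij, hjk, hik, hli, hlj, hlk, hij.symm, hjk.symm,
          hik.symm, hli.symm, hlj.symm, hlk.symm]
      · left; refine ⟨?_, ?_, ?_⟩ <;> simp [hij, hjk, hik, hli, hlj, hlk, hij.symm, hjk.symm,
          hik.symm, hli.symm, hlj.symm, hlk.symm]
      · exact absurd rfl hpq
    · rcases hpm with rfl | rfl | rfl | rfl
      · right; right; refine ⟨?_, ?_, ?_⟩ <;> simp [hij, hjk, hik, hli, hlj, hlk, hij.symm, hjk.symm,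
          hik.symm, hli.symm, hlj.symm, hlk.symm]
      · right; left; refine ⟨?_, ?_, ?_⟩ <;> simp [hij, hjk, hik, hli, hlj, hlk, hij.symm, hjk.symm,
          hik.symm, hli.symm, hlj.symm, hlk.symm]
      · left; refine ⟨?_, ?_, ?_⟩ <;> simp [hij, hjk, hik, hli, hlj, hlk, hij.symm, hjk.symm,
          hik.symm, hli.symm, hlj.symm, hlk.symm]
      · exact absurd rfl hpq
  · intro i j k l hb hb'
    by_cases hkl : k = l
    · rw [hkl]
    have hli : l ≠ i := hb'.2.2.1.symm
    have hlj : l ≠ j := hb'.2.1.symm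
    have hlk : l ≠ k := fun h => hkl h.symm
    obtain ⟨u, p, q, hu, hp, hq, h1, h2, h3, h4, hc4⟩ := ridge4 i j k l hb hli hlj hlk
    have hl := h1.1 hb
    have hk := h2.1 hb'
    obtain ⟨hij, hjk, hik, hf⟩ := hb
    have hsum : ipz u (X.ray k + X.ray l) = 0 := by
      rw [ipz_add]
      rcases hl with rfl | rfl
      · rcases hk with rfl | rfl
        · exact absurd rfl hkl
        · rw [hp, hq]; norm_num
      · rcases hk with rfl | rfl
        · rw [hp, hq]; norm_num
        · exact absurd rfl hkl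
    have hl0 : ipz u (X.ray l) ≠ 0 := by
      rcases hl with rfl | rfl
      · rw [hp]; norm_num
      · rw [hq]; norm_num
    obtain ⟨a, ha0, ha⟩ := ker_ridge (X := X) hc4 hu (q := l) (by simp)
      (by rw [compl_insert4 hli hlj hlk]; exact hf) hl0 hsum
    let c : Fin (n+3) → ℤ := fun x => (if x = k then 1 else 0) + (if x = l then 1 else 0) - a x
    have hc : ∑ x, c x • X.ray x = 0 := by
      simp only [c, sub_smul, add_smul]
      rw [Finset.sum_sub_distrib, Finset.sum_add_distrib, ← ha]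
      simp
    have hai : a i = 0 := ha0 i (by simp)
    have haj : a j = 0 := ha0 j (by simp)
    have hak : a k = 0 := ha0 k (by simp)
    have hal : a l = 0 := ha0 l (by simp)
    have ri : ∑ s, D i s * c (t s) = 0 := by
      rw [← hG.relation hc i]; simp [c, hai, hik, hli.symm]
    have rj : ∑ s, D j s * c (t s) = 0 := by
      rw [← hG.relation hc j]; simp [c, haj, hjk, hlj.symm]
    have rk : ∑ s, D k s * c (t s) = 1 := by
      rw [← hG.relation hc k]; simp [c, hak, hkl]
    have rl : ∑ s, D l s * c (t s) = 1 := by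
      rw [← hG.relation hc l]; simp [c, hal, hlk]
    have hz : (zmat (D i) (D j) (D k - D l)).det = 0 := by
      rw [← Matrix.exists_mulVec_eq_zero_iff]
      refine ⟨fun s => c (t s), ?_, ?_⟩
      · intro h0
        have : ∀ s, c (t s) = 0 := fun s => congrFun h0 s
        simp [this] at rk
      · ext b
        fin_cases b
        · exact ri
        · exact rj
        · have : ∑ s, (D k s - D l s) * c (t s) = 0 := by
            simp_rw [sub_mul]
            rw [Finset.sum_sub_distrib, rk, rl, sub_self]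
          exact this
    have h5 : zdet (D i) (D j) (D k - D l) = zdet (D i) (D j) (D k) - zdet (D i) (D j) (D l) := by
      rw [zdet_eq, zdet_eq, zdet_eq]
      simp only [Pi.sub_apply]
      ring
    have h6 : zdet (D i) (D j) (D k - D l) = 0 := hz
    rw [h5] at h6
    linarith

end three

end Pool.Agent.Helper21.Toric
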