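import Pool.Agent.Helper21.LinForms

namespace Pool.Agent.Helper21.Toric

open MvPolynomial

/-- the degree `d` component of a product with a homogeneous polynomial -/
lemma homogComp_mul {s d : ℕ} (E f : S) (hf : f.IsHomogeneous s) :
    homogeneousComponent d (E * f) =
      if s ≤ d then homogeneousComponent (d - s) E * f else 0 := by
  conv_lhs => rw [← sum_homogeneousComponent E, Finset.sum_mul, map_sum]
  have h1 : ∀ i ∈ Finset.range (E.totalDegree + 1),
      homogeneousComponent d (homogeneousComponent i E * f) =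
        if i + s = d then homogeneousComponent i E * f else 0 := by
    intro i _
    have h2 : (homogeneousComponent i E * f) ∈ homogeneousSubmodule (Fin 3) ℚ (i + s) :=
      (homogeneousComponent_isHomogeneous i E).mul hf
    rw [homogeneousComponent_of_mem h2]
    by_cases h : i + s = d
    · simp [h]
    · have : ¬ d = i + s := fun h' => h h'.symm
      simp [h, this]
  rw [Finset.sum_congr rfl h1]
  by_cases hsd : s ≤ d
  · rw [if_pos hsd]
    by_cases hr : d - s ∈ Finset.range (E.totalDegree + 1)
    · rw [Finset.sum_eq_single_of_mem (d - s) hr]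
      · rw [if_pos (by omega)]
      · intro b _ hb
        rw [if_neg (by omega)]
    · have : homogeneousComponent (d - s) E = 0 := by
        apply homogeneousComponent_eq_zero
        simp at hr; omega
      rw [this, zero_mul]
      apply Finset.sum_eq_zero
      intro i hi
      rw [Finset.mem_range] at hi hr
      rw [if_neg (by omega)]
  · rw [if_neg hsd]
    apply Finset.sum_eq_zero
    intro i _
    rw [if_neg (by omega)]

lemma homogComp_self {s : ℕ} {f : S} (hf : f.IsHomogeneous s) :
    homogeneousComponent s f = f := homogeneousComponent_eq_self hf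

/-- homogeneous coefficients -/
lemma exists_homog_coeffs {κ : Type*} [Fintype κ] {g : κ → S} {t : κ → ℕ}
    (hg : ∀ j, (g j).IsHomogeneous (t j)) {f : S} {s : ℕ} (hf : f.IsHomogeneous s)
    (hfg : f ∈ Ideal.span (Set.range g)) :
    ∃ c : κ → S, f = ∑ j, c j * g j ∧
      ∀ j, (t j ≤ s ∧ (c j).IsHomogeneous (s - t j)) ∨ (¬ t j ≤ s ∧ c j = 0) := by
  obtain ⟨c, hc⟩ := (Ideal.mem_span_range_iff_exists_fun).1 hfg
  refine ⟨fun j => if t j ≤ s then homogeneousComponent (s - t j) (c j) else 0, ?_, ?_⟩
  · have h1 := congrArg (homogeneousComponent s) hc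
    rw [map_sum, homogComp_self hf] at h1
    rw [← h1]
    apply Finset.sum_congr rfl
    intro j _
    rw [homogComp_mul _ _ (hg j)]
    by_cases h : t j ≤ s
    · simp [h]
    · simp [h]
  · intro j
    by_cases h : t j ≤ s
    · left
      refine ⟨h, ?_⟩
      simp only [h, if_true]
      exact homogeneousComponent_isHomogeneous _ _
    · right
      exact ⟨h, by simp [h]⟩

lemma span_le_deg_aux {ι κ : Type*} [Fintype κ] {f : ι → S} {s : ι → ℕ}
    {g : κ → S} {t : κ → ℕ}
    (hf : ∀ i, (f i).IsHomogeneous (s i)) (hg : ∀ j, (g j).IsHomogeneous (t j))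
    (h : Ideal.span (Set.range f) ≤ Ideal.span (Set.range g)) (d : ℕ) :
    Ideal.span (f '' {i | s i ≤ d}) ≤ Ideal.span (g '' {j | t j ≤ d}) := by
  rw [Ideal.span_le]
  rintro _ ⟨i, hi, rfl⟩
  have h1 : f i ∈ Ideal.span (Set.range g) := h (Ideal.subset_span ⟨i, rfl⟩)
  obtain ⟨c, hc, hc2⟩ := exists_homog_coeffs hg (hf i) h1
  rw [SetLike.mem_coe, hc]
  apply Ideal.sum_mem
  intro j _
  rcases hc2 j with ⟨h3, _⟩ | ⟨_, h3⟩
  · apply Ideal.mul_mem_left
    apply Ideal.subset_span
    exact ⟨j, le_trans h3 hi, rfl⟩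
  · rw [h3, zero_mul]; exact Ideal.zero_mem _

lemma span_le_deg {ι κ : Type*} [Fintype ι] [Fintype κ] {f : ι → S} {s : ι → ℕ}
    {g : κ → S} {t : κ → ℕ}
    (hf : ∀ i, (f i).IsHomogeneous (s i)) (hg : ∀ j, (g j).IsHomogeneous (t j))
    (h : Ideal.span (Set.range f) = Ideal.span (Set.range g)) (d : ℕ) :
    Ideal.span (f '' {i | s i ≤ d}) = Ideal.span (g '' {j | t j ≤ d}) :=
  le_antisymm (span_le_deg_aux hf hg h.le d) (span_le_deg_aux hg hf h.ge d)

/-- constant coefficients of a syzygy of a minimal family vanish -/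
lemma syz_const {ι : Type*} [Fintype ι] [DecidableEq ι] {f : ι → S} {s : ι → ℕ}
    (hf : ∀ i, (f i).IsHomogeneous (s i))
    (hmin : ∀ i, f i ∉ Ideal.span (f '' {j | j ≠ i}))
    (E : ι → S) (hE : ∑ k, E k * f k = 0) (k : ι) : constantCoeff (E k) = 0 := by
  by_contra hk
  apply hmin k
  have h1 := congrArg (homogeneousComponent (s k)) hE
  rw [map_sum, map_zero] at h1
  have h2 : ∀ j, homogeneousComponent (s k) (E j * f j) =
      (if s j ≤ s k then homogeneousComponent (s k - s j) (E j) else 0) * f j := by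
    intro j
    rw [homogComp_mul _ _ (hf j)]
    split_ifs <;> simp
  simp_rw [h2] at h1
  rw [← Finset.add_sum_erase _ _ (Finset.mem_univ k)] at h1
  simp only [le_refl, if_true, Nat.sub_self, homogeneousComponent_zero] at h1
  have h3 : (coeff 0 (E k)) ≠ 0 := hk
  have h4 : f k = - ∑ x ∈ Finset.univ.erase k, C ((coeff 0 (E k))⁻¹) *
      ((if s x ≤ s k then homogeneousComponent (s k - s x) (E x) else 0) * f x) := by
    rw [← Finset.mul_sum]
    have h5 : C ((coeff 0 (E k))⁻¹) * (C (coeff 0 (E k)) * f k) = f k := by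
      rw [← mul_assoc, ← C_mul, inv_mul_cancel₀ h3, C_1, one_mul]
    rw [← h5, eq_neg_of_add_eq_zero_left h1]
    ring
  rw [h4]
  apply neg_mem
  apply Ideal.sum_mem
  intro j hj
  apply Ideal.mul_mem_left
  apply Ideal.mul_mem_left
  apply Ideal.subset_span
  exact ⟨j, Finset.ne_of_mem_erase hj, rfl⟩

lemma constCoeff_homog {c : S} {n : ℕ} (h : c.IsHomogeneous n) (hn : n ≠ 0) :
    constantCoeff c = 0 := by
  rw [constantCoeff_eq]
  apply h.coeff_eq_zero
  simpa using hn.symm

lemma sum_sub {κ : Type} [Fintype κ] (p : κ → Prop) [DecidablePred p] (F : κ → ℚ)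
    (h : ∀ j, ¬ p j → F j = 0) : ∑ j : {j // p j}, F j.1 = ∑ j, F j := by
  have h1 : ∑ j, F j = ∑ j ∈ Finset.univ.filter p, F j := by
    rw [Finset.sum_filter_of_ne]
    intro j _ hne
    by_contra hj
    exact hne (h j hj)
  rw [h1]
  exact (Finset.sum_subtype _ (by simp) F).symm

/-- minimal homogeneous generating families of the same ideal have the same degrees -/
lemma card_deg_eq {ι κ : Type} [Fintype ι] [Fintype κ] [DecidableEq ι] [DecidableEq κ]
    {f : ι → S} {s : ι → ℕ} {g : κ → S} {t : κ → ℕ}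
    (hf : ∀ i, (f i).IsHomogeneous (s i)) (hg : ∀ j, (g j).IsHomogeneous (t j))
    (hfmin : ∀ i, f i ∉ Ideal.span (f '' {j | j ≠ i}))
    (hgmin : ∀ i, g i ∉ Ideal.span (g '' {j | j ≠ i}))
    (h : Ideal.span (Set.range f) = Ideal.span (Set.range g)) (d : ℕ) :
    Fintype.card {i // s i = d} = Fintype.card {j // t j = d} := by
  have h1 : ∀ i, ∃ c : κ → S, f i = ∑ j, c j * g j ∧
      ∀ j, (t j ≤ s i ∧ (c j).IsHomogeneous (s i - t j)) ∨ (¬ t j ≤ s i ∧ c j = 0) := by
    intro i
    exact exists_homog_coeffs hg (hf i) (h ▸ Ideal.subset_span ⟨i, rfl⟩)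
  have h2 : ∀ j, ∃ c : ι → S, g j = ∑ i, c i * f i ∧
      ∀ i, (s i ≤ t j ∧ (c i).IsHomogeneous (t j - s i)) ∨ (¬ s i ≤ t j ∧ c i = 0) := by
    intro j
    exact exists_homog_coeffs hf (hg j) (h ▸ Ideal.subset_span ⟨j, rfl⟩)
  choose G hG hG2 using h1
  choose H hH hH2 using h2
  have hGc : ∀ i j, s i ≠ t j → constantCoeff (G i j) = 0 := by
    intro i j hij
    rcases hG2 i j with ⟨h3, h4⟩ | ⟨_, h3⟩
    · exact constCoeff_homog h4 (by omega)
    · rw [h3, map_zero]
  have hHc : ∀ j i, t j ≠ s i → constantCoeff (H j i) = 0 := by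
    intro j i hij
    rcases hH2 j i with ⟨h3, h4⟩ | ⟨_, h3⟩
    · exact constCoeff_homog h4 (by omega)
    · rw [h3, map_zero]
  have hGH : ∀ i k, ∑ j, constantCoeff (G i j) * constantCoeff (H j k) = if i = k then 1 else 0 := by
    intro i k
    have hs := syz_const hf hfmin (fun k => (∑ j, G i j * H j k) - if i = k then 1 else 0) (by
      simp_rw [sub_mul]
      rw [Finset.sum_sub_distrib]
      have : ∑ x, (if i = x then (1 : S) else 0) * f x = f i := by simp
      rw [this]
      have h5 : ∑ x, (∑ j, G i j * H j x) * f x = f i := by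
        simp_rw [Finset.sum_mul]
        rw [Finset.sum_comm]
        conv_rhs => rw [hG i]
        apply Finset.sum_congr rfl
        intro j _
        conv_rhs => rw [hH j, Finset.mul_sum]
        apply Finset.sum_congr rfl
        intro x _
        ring
      rw [h5, sub_self]) k
    rw [map_sub, map_sum] at hs
    simp_rw [map_mul] at hs
    rw [sub_eq_zero] at hs
    rw [hs]
    split_ifs <;> simp
  have hHG : ∀ i k, ∑ j, constantCoeff (H i j) * constantCoeff (G j k) = if i = k then 1 else 0 := by
    intro i k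
    have hs := syz_const hg hgmin (fun k => (∑ j, H i j * G j k) - if i = k then 1 else 0) (by
      simp_rw [sub_mul]
      rw [Finset.sum_sub_distrib]
      have : ∑ x, (if i = x then (1 : S) else 0) * g x = g i := by simp
      rw [this]
      have h5 : ∑ x, (∑ j, H i j * G j x) * g x = g i := by
        simp_rw [Finset.sum_mul]
        rw [Finset.sum_comm]
        conv_rhs => rw [hH i]
        apply Finset.sum_congr rfl
        intro j _
        conv_rhs => rw [hG j, Finset.mul_sum]
        apply Finset.sum_congr rfl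
        intro x _
        ring
      rw [h5, sub_self]) k
    rw [map_sub, map_sum] at hs
    simp_rw [map_mul] at hs
    rw [sub_eq_zero] at hs
    rw [hs]
    split_ifs <;> simp
  -- block matrices
  let Gd : Matrix {i // s i = d} {j // t j = d} ℚ :=
    Matrix.of fun i j => constantCoeff (G i.1 j.1)
  let Hd : Matrix {j // t j = d} {i // s i = d} ℚ :=
    Matrix.of fun j i => constantCoeff (H j.1 i.1)
  have e1 : Gd * Hd = 1 := by
    ext i k
    rw [Matrix.mul_apply, Matrix.one_apply]
    have := hGH i.1 k.1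
    have h6 : ∑ j : {j // t j = d}, Gd i j * Hd j k =
        ∑ j, constantCoeff (G i.1 j) * constantCoeff (H j k.1) := by
      simp only [Gd, Hd, Matrix.of_apply]
      apply sum_sub (fun j => t j = d) (fun j => constantCoeff (G i.1 j) * constantCoeff (H j k.1))
      intro j hj
      show constantCoeff (G i.1 j) * constantCoeff (H j k.1) = 0
      rw [hGc i.1 j (by rw [i.2]; exact fun h => hj h.symm), zero_mul]
    rw [h6, this]
    simp [Subtype.ext_iff]
  have e2 : Hd * Gd = 1 := by
    ext i k
    rw [Matrix.mul_apply, Matrix.one_apply]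
    have := hHG i.1 k.1
    have h6 : ∑ j : {j // s j = d}, Hd i j * Gd j k =
        ∑ j, constantCoeff (H i.1 j) * constantCoeff (G j k.1) := by
      simp only [Gd, Hd, Matrix.of_apply]
      apply sum_sub (fun j => s j = d) (fun j => constantCoeff (H i.1 j) * constantCoeff (G j k.1))
      intro j hj
      show constantCoeff (H i.1 j) * constantCoeff (G j k.1) = 0
      rw [hHc i.1 j (by rw [i.2]; exact fun h => hj h.symm), zero_mul]
    rw [h6, this]
    simp [Subtype.ext_iff]
  have e3 : ({j // t j = d} → ℚ) ≃ₗ[ℚ] ({i // s i = d} → ℚ) :=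
    LinearEquiv.ofLinearMap (Matrix.mulVecLin Gd) (Matrix.mulVecLin Hd)
      (by rw [← Matrix.mulVecLin_mul, e1, Matrix.mulVecLin_one])
      (by rw [← Matrix.mulVecLin_mul, e2, Matrix.mulVecLin_one])
  have := e3.finrank_eq
  simpa using this.symm

end Pool.Agent.Helper21.Toric
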