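import Mathlib

namespace Pool.Agent.Helper21.Toric

open MvPolynomial

section general
variable {R : Type*} [CommRing R] [IsDomain R] [DecompositionMonoid R]

/-- `l` is a nonzerodivisor modulo the ideal `(f, g)`. -/
def NZ (l f g : R) : Prop :=
  ∀ h, l * h ∈ Ideal.span ({f, g} : Set R) → h ∈ Ideal.span ({f, g} : Set R)

omit [IsDomain R] [DecompositionMonoid R] in
lemma NZ.symm {l f g : R} (h : NZ l f g) : NZ l g f := by
  intro x hx
  rw [Set.pair_comm] at hx ⊢
  exact h x hx

omit [IsDomain R] in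
lemma NZ.mul {l a f g : R} (hc : IsRelPrime f g) (h1 : NZ l f g) (h2 : NZ l a g) :
    NZ l (a * f) g := by
  intro h hh
  obtain ⟨α, β, hαβ⟩ := Ideal.mem_span_pair.1 hh
  have h3 : h ∈ Ideal.span ({f, g} : Set R) := by
    apply h1
    rw [Ideal.mem_span_pair]
    exact ⟨α * a, β, by rw [← hαβ]; ring⟩
  obtain ⟨γ, δ, hγδ⟩ := Ideal.mem_span_pair.1 h3
  have h4 : f * (l * γ - α * a) = g * (β - l * δ) := by
    rw [← hγδ] at hαβ
    linear_combination (-1 : R) * hαβ
  have h5 : g ∣ l * γ - α * a := by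
    have : g ∣ f * (l * γ - α * a) := ⟨_, h4⟩
    exact (hc.symm).dvd_of_dvd_mul_left this
  obtain ⟨ε, hε⟩ := h5
  have h6 : γ ∈ Ideal.span ({a, g} : Set R) := by
    apply h2
    rw [Ideal.mem_span_pair]
    exact ⟨α, ε, by linear_combination (-1 : R) * hε⟩
  obtain ⟨μ, ν, hμν⟩ := Ideal.mem_span_pair.1 h6
  rw [Ideal.mem_span_pair]
  exact ⟨μ, ν * f + δ, by rw [← hγδ, ← hμν]; ring⟩

end general

/-- The polynomial ring in three variables over `ℚ`. -/
abbrev S := MvPolynomial (Fin 3) ℚ
abbrev V := Fin 3 → ℚ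

/-- The linear form with coefficient vector `a`. -/
noncomputable def lf (a : V) : S := ∑ k, C (a k) * X k

/-- the matrix with rows `a, b, c` -/
def mat3 (a b c : V) : Matrix (Fin 3) (Fin 3) ℚ := Matrix.of ![a, b, c]

/-- determinant of three vectors -/
def det3 (a b c : V) : ℚ := (mat3 a b c).det

lemma det3_eq (a b c : V) : det3 a b c =
    a 0 * b 1 * c 2 - a 0 * b 2 * c 1 - a 1 * b 0 * c 2 + a 1 * b 2 * c 0 +
        a 2 * b 0 * c 1 - a 2 * b 1 * c 0 := by
  unfold det3
  rw [Matrix.det_fin_three]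
  simp [mat3]

lemma lf_eq (a : V) : lf a = C (a 0) * X 0 + C (a 1) * X 1 + C (a 2) * X 2 := by
  unfold lf
  rw [Fin.sum_univ_three]

lemma lf_homog (a : V) : (lf a).IsHomogeneous 1 := by
  unfold lf
  apply IsHomogeneous.sum
  intro i _
  have := (isHomogeneous_C (Fin 3) (a i)).mul (isHomogeneous_X ℚ i)
  simpa using this

lemma eval_lf (q a : V) : eval q (lf a) = a 0 * q 0 + a 1 * q 1 + a 2 * q 2 := by
  rw [lf_eq]; simp

noncomputable def lin (M : Matrix (Fin 3) (Fin 3) ℚ) : S →ₐ[ℚ] S := aeval (fun i => lf (M i))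

lemma lin_X (M : Matrix (Fin 3) (Fin 3) ℚ) (i : Fin 3) : lin M (X i) = lf (M i) := by
  simp [lin]

lemma lin_C (M : Matrix (Fin 3) (Fin 3) ℚ) (r : ℚ) : lin M (C r) = C r := by
  simp [lin, algebraMap_eq]

lemma lin_lf (M : Matrix (Fin 3) (Fin 3) ℚ) (a : V) : lin M (lf a) = lf (Matrix.vecMul a M) := by
  rw [lf_eq, lf_eq]
  simp only [map_add, map_mul, lin_C, lin_X, lf_eq]
  simp only [Matrix.vecMul, dotProduct, Fin.sum_univ_three, map_add, map_mul]
  ring

lemma lin_comp (M N : Matrix (Fin 3) (Fin 3) ℚ) (x : S) : lin M (lin N x) = lin (N * M) x := by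
  have : (lin M).comp (lin N) = lin (N * M) := by
    apply MvPolynomial.algHom_ext
    intro i
    simp only [AlgHom.comp_apply, lin_X, lin_lf]
    congr 1
  rw [← this]; rfl

lemma lin_one (x : S) : lin 1 x = x := by
  have : lin (1 : Matrix (Fin 3) (Fin 3) ℚ) = AlgHom.id ℚ S := by
    apply MvPolynomial.algHom_ext
    intro i
    rw [lin_X, lf_eq]
    fin_cases i <;> simp [Matrix.one_apply]
  rw [this]; rfl

noncomputable def linEquiv (M : Matrix (Fin 3) (Fin 3) ℚ) (h : M.det ≠ 0) : S ≃ₐ[ℚ] S :=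
  AlgEquiv.ofAlgHom (lin M) (lin M⁻¹)
    (by
      ext1 i
      have hu : IsUnit M.det := isUnit_iff_ne_zero.2 h
      simp only [AlgHom.comp_apply, AlgHom.coe_id, id_eq]
      rw [lin_comp, Matrix.nonsing_inv_mul _ hu, lin_one])
    (by
      ext1 i
      have hu : IsUnit M.det := isUnit_iff_ne_zero.2 h
      simp only [AlgHom.comp_apply, AlgHom.coe_id, id_eq]
      rw [lin_comp, Matrix.mul_nonsing_inv _ hu, lin_one])

lemma linEquiv_apply (M : Matrix (Fin 3) (Fin 3) ℚ) (h : M.det ≠ 0) (x : S) :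
    linEquiv M h x = lin M x := rfl

lemma prime_lf {a b c : V} (h0 : det3 a b c ≠ 0) : Prime (lf a) := by
  have h : (mat3 a b c).det ≠ 0 := h0
  have h1 : lf a = linEquiv (mat3 a b c) h (X 0) := by
    rw [linEquiv_apply, lin_X]; rfl
  rw [h1]
  exact (MulEquiv.prime_iff (linEquiv (mat3 a b c) h).toMulEquiv).2 X_prime

lemma not_dvd_lf {a b c : V} (h : det3 a b c ≠ 0) : ¬ lf a ∣ lf b := by
  rintro ⟨x, hx⟩
  apply h
  -- q = c × a
  have := congrArg (eval (![c 1 * a 2 - c 2 * a 1, c 2 * a 0 - c 0 * a 2, c 0 * a 1 - c 1 * a 0] : V)) hx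
  rw [map_mul, eval_lf, eval_lf] at this
  simp at this
  rw [det3_eq]
  have h0 : (a 0 * (c 1 * a 2 - c 2 * a 1) + a 1 * (c 2 * a 0 - c 0 * a 2) + a 2 * (c 0 * a 1 - c 1 * a 0)) = 0 := by ring
  rw [h0, zero_mul] at this
  linarith

lemma relPrime_lf {a b c : V} (h : det3 a b c ≠ 0) : IsRelPrime (lf a) (lf b) := by
  have hp := prime_lf h
  exact (hp.irreducible.isRelPrime_iff_not_dvd).2 (not_dvd_lf h)

lemma nz_base {a b c : V} (h0 : det3 a b c ≠ 0) : NZ (lf c) (lf a) (lf b) := by
  have h : (mat3 a b c).det ≠ 0 := h0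
  intro x hx
  set e := linEquiv (mat3 a b c) h with he
  have ha : lf a = e (X 0) := by rw [he, linEquiv_apply, lin_X]; rfl
  have hb : lf b = e (X 1) := by rw [he, linEquiv_apply, lin_X]; rfl
  have hc : lf c = e (X 2) := by rw [he, linEquiv_apply, lin_X]; rfl
  obtain ⟨y, rfl⟩ := e.surjective x
  rw [ha, hb, hc] at hx
  rw [ha, hb]
  have key : y ∈ Ideal.span ({X 0, X 1} : Set S) := by
    have h1 : (X 2 : S) * y ∈ Ideal.span ({X 0, X 1} : Set S) := by
      rw [Ideal.mem_span_pair] at hx ⊢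
      obtain ⟨p, q, hpq⟩ := hx
      refine ⟨e.symm p, e.symm q, ?_⟩
      apply e.injective
      simp only [map_add, map_mul, AlgEquiv.apply_symm_apply]
      exact hpq
    have h2 : ({X 0, X 1} : Set S) = (X '' ({0, 1} : Set (Fin 3))) := by
      rw [Set.image_pair]
    rw [h2, mem_ideal_span_X_image] at h1 ⊢
    intro m hm
    have h3 : m + Finsupp.single 2 1 ∈ (X 2 * y : S).support := by
      rw [mem_support_iff] at hm ⊢
      rw [mul_comm, coeff_mul_X]
      exact hm
    obtain ⟨i, hi, hi2⟩ := h1 _ h3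
    refine ⟨i, hi, ?_⟩
    have : i ≠ 2 := by
      rcases hi with rfl | rfl <;> decide
    simpa [Finsupp.single_apply, this.symm] using hi2
  rw [Ideal.mem_span_pair] at key ⊢
  obtain ⟨p, q, hpq⟩ := key
  exact ⟨e p, e q, by rw [← map_mul, ← map_mul, ← map_add, hpq]⟩

/-- product of the linear forms in a multiset -/
noncomputable def pr (A : Multiset V) : S := (A.map lf).prod

lemma pr_cons (a : V) (A : Multiset V) : pr (a ::ₘ A) = lf a * pr A := by
  simp [pr]

lemma pr_zero : pr 0 = 1 := by simp [pr]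

lemma pr_homog (A : Multiset V) : (pr A).IsHomogeneous (Multiset.card A) := by
  induction A using Multiset.induction_on with
  | empty => rw [pr_zero]; exact isHomogeneous_one _ _
  | cons a A ih =>
    rw [pr_cons, Multiset.card_cons, add_comm]
    exact (lf_homog a).mul ih

/-- all pairs are linearly independent -/
def Ind2 (a b : V) : Prop := ∃ c, det3 a b c ≠ 0

lemma det3_perm1 (a b c : V) : det3 a b c = det3 b c a := by
  rw [det3_eq, det3_eq]; ring
lemma det3_swap (a b c : V) : det3 a b c = - det3 b a c := by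
  rw [det3_eq, det3_eq]; ring

lemma Ind2.symm {a b : V} (h : Ind2 a b) : Ind2 b a := by
  obtain ⟨c, hc⟩ := h
  exact ⟨c, by rw [det3_swap]; simpa using hc⟩

lemma Ind2.relPrime {a b : V} (h : Ind2 a b) : IsRelPrime (lf a) (lf b) := by
  obtain ⟨c, hc⟩ := h
  exact relPrime_lf hc

lemma relPrime_pr {A B : Multiset V} (h : ∀ a ∈ A, ∀ b ∈ B, Ind2 a b) :
    IsRelPrime (pr A) (pr B) := by
  have h1 : ∀ a (B : Multiset V), (∀ b ∈ B, Ind2 a b) → IsRelPrime (lf a) (pr B) := by
    intro a B
    induction B using Multiset.induction_on with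
    | empty => intro _; rw [pr_zero]; exact isRelPrime_one_right
    | cons b B ih =>
      intro hb
      rw [pr_cons]
      exact (hb b (Multiset.mem_cons_self _ _)).relPrime.mul_right
        (ih (fun x hx => hb x (Multiset.mem_cons_of_mem hx)))
  induction A using Multiset.induction_on with
  | empty => rw [pr_zero]; exact isRelPrime_one_left
  | cons a A ih =>
    rw [pr_cons]
    exact (h1 a B (h a (Multiset.mem_cons_self _ _))).mul_left
      (ih (fun x hx => h x (Multiset.mem_cons_of_mem hx)))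

lemma nz_one_left (l g : S) : NZ l 1 g := by
  intro h _
  rw [Ideal.mem_span_pair]
  exact ⟨h, 0, by ring⟩

lemma nz_pr {c : V} {A B : Multiset V} (h : ∀ a ∈ A, ∀ b ∈ B, det3 a b c ≠ 0) :
    NZ (lf c) (pr A) (pr B) := by
  have h1 : ∀ a (B : Multiset V), (∀ b ∈ B, det3 a b c ≠ 0) → NZ (lf c) (lf a) (pr B) := by
    intro a B
    induction B using Multiset.induction_on with
    | empty => intro _; rw [pr_zero]; exact (nz_one_left _ _).symm
    | cons b B ih =>
      intro hb
      rw [pr_cons]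
      apply NZ.symm
      apply NZ.mul
      · apply IsRelPrime.symm
        have := relPrime_pr (A := {a}) (B := B) (by
          intro x hx y hy
          rw [Multiset.mem_singleton] at hx
          subst hx
          exact ⟨c, hb y (Multiset.mem_cons_of_mem hy)⟩)
        simpa [pr] using this
      · exact (ih (fun x hx => hb x (Multiset.mem_cons_of_mem hx))).symm
      · exact (nz_base (hb b (Multiset.mem_cons_self _ _))).symm
  induction A using Multiset.induction_on with
  | empty => rw [pr_zero]; exact nz_one_left _ _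
  | cons a A ih =>
    rw [pr_cons]
    apply NZ.mul
    · exact relPrime_pr (fun x hx y hy => ⟨c, h x (Multiset.mem_cons_of_mem hx) y hy⟩)
    · exact ih (fun x hx => h x (Multiset.mem_cons_of_mem hx))
    · exact h1 a B (h a (Multiset.mem_cons_self _ _))

end Pool.Agent.Helper21.Toric
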