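import Pool.Agent.Helper21.HomogIdeal

namespace Pool.Agent.Helper21.Toric

open MvPolynomial

/-- the irrelevant ideal -/
noncomputable def mm : Ideal S := Ideal.span (Set.range X)

lemma X_mem_mm (i : Fin 3) : (X i : S) ∈ mm := Ideal.subset_span ⟨i, rfl⟩

lemma lf_mem_mm (a : V) : lf a ∈ mm := by
  unfold lf
  apply Ideal.sum_mem
  intro i _
  exact Ideal.mul_mem_left _ _ (X_mem_mm i)

lemma eval_mm {x : S} (h : x ∈ mm) : constantCoeff x = 0 := by
  have : mm ≤ RingHom.ker (constantCoeff (σ := Fin 3) (R := ℚ)) := by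
    unfold mm
    rw [Ideal.span_le]
    rintro _ ⟨i, rfl⟩
    simp [RingHom.mem_ker]
  exact this h

lemma pr_mem_mm {A : Multiset V} (h : A ≠ 0) : pr A ∈ mm := by
  obtain ⟨a, ha⟩ := Multiset.exists_mem_of_ne_zero h
  obtain ⟨B, rfl⟩ := Multiset.exists_cons_of_mem ha
  rw [pr_cons]
  exact Ideal.mul_mem_right _ _ (lf_mem_mm a)

lemma pr_add (A B : Multiset V) : pr (A + B) = pr A * pr B := by
  simp [pr]

lemma mm_le_of_det {a b c : V} (h0 : det3 a b c ≠ 0) :
    mm ≤ Ideal.span {lf a} ⊔ (Ideal.span {lf b} ⊔ Ideal.span {lf c}) := by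
  have h : (mat3 a b c).det ≠ 0 := h0
  have hu : IsUnit (mat3 a b c).det := isUnit_iff_ne_zero.2 h
  unfold mm
  rw [Ideal.span_le]
  rintro _ ⟨k, rfl⟩
  have h1 : (X k : S) = lin (mat3 a b c) (lin (mat3 a b c)⁻¹ (X k)) := by
    rw [lin_comp, Matrix.nonsing_inv_mul _ hu, lin_one]
  rw [lin_X, lf_eq, map_add, map_add, map_mul, map_mul, map_mul, lin_C, lin_C, lin_C,
    lin_X, lin_X, lin_X] at h1
  rw [SetLike.mem_coe, h1]
  have e0 : mat3 a b c 0 = a := rfl
  have e1 : mat3 a b c 1 = b := rfl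
  have e2 : mat3 a b c 2 = c := rfl
  rw [e0, e1, e2]
  rw [add_assoc]
  apply Submodule.add_mem_sup
  · exact Ideal.mul_mem_left _ _ (Ideal.mem_span_singleton_self _)
  · apply Submodule.add_mem_sup
    · exact Ideal.mul_mem_left _ _ (Ideal.mem_span_singleton_self _)
    · exact Ideal.mul_mem_left _ _ (Ideal.mem_span_singleton_self _)

lemma span_sup_mul_le (J : Ideal S) (f g : S) :
    (Ideal.span {f} ⊔ J) * (Ideal.span {g} ⊔ J) ≤ Ideal.span {f * g} ⊔ J := by
  rw [Ideal.sup_mul, Ideal.mul_sup]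
  apply sup_le
  · apply sup_le
    · rw [Ideal.span_singleton_mul_span_singleton]
      exact le_sup_left
    · exact le_trans Ideal.mul_le_right le_sup_right
  · exact le_trans Ideal.mul_le_left le_sup_right

lemma mm_pow_pr (J : Ideal S) (N : ℕ) (A : Multiset V)
    (h : ∀ a ∈ A, mm ^ N ≤ Ideal.span {lf a} ⊔ J) :
    mm ^ (N * Multiset.card A) ≤ Ideal.span {pr A} ⊔ J := by
  induction A using Multiset.induction_on with
  | empty =>
    rw [pr_zero, Ideal.span_singleton_one, top_sup_eq]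
    exact le_top
  | cons a A ih =>
    rw [pr_cons, Multiset.card_cons, Nat.mul_succ, add_comm, pow_add]
    refine le_trans (Ideal.mul_mono (h a (Multiset.mem_cons_self _ _))
      (ih (fun x hx => h x (Multiset.mem_cons_of_mem hx)))) (span_sup_mul_le J _ _)

lemma mm_pow_triple {A B D : Multiset V} (h : ∀ a ∈ A, ∀ b ∈ B, ∀ c ∈ D, det3 a b c ≠ 0) :
    ∃ N, mm ^ N ≤ Ideal.span {pr A} ⊔ (Ideal.span {pr B} ⊔ Ideal.span {pr D}) := by
  have h1 : ∀ b ∈ B, ∀ c ∈ D, mm ^ (1 * Multiset.card A) ≤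
      Ideal.span {pr A} ⊔ (Ideal.span {lf b} ⊔ Ideal.span {lf c}) := by
    intro b hb c hc
    apply mm_pow_pr
    intro a ha
    rw [pow_one]
    exact mm_le_of_det (h a ha b hb c hc)
  have h2 : ∀ c ∈ D, mm ^ ((1 * Multiset.card A) * Multiset.card B) ≤
      Ideal.span {pr B} ⊔ (Ideal.span {pr A} ⊔ Ideal.span {lf c}) := by
    intro c hc
    apply mm_pow_pr
    intro b hb
    refine le_trans (h1 b hb c hc) ?_
    rw [← sup_assoc, ← sup_assoc, sup_comm (Ideal.span {pr A})]
  refine ⟨((1 * Multiset.card A) * Multiset.card B) * Multiset.card D, ?_⟩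
  have h3 : mm ^ (((1 * Multiset.card A) * Multiset.card B) * Multiset.card D) ≤
      Ideal.span {pr D} ⊔ (Ideal.span {pr A} ⊔ Ideal.span {pr B}) := by
    apply mm_pow_pr
    intro c hc
    refine le_trans (h2 c hc) ?_
    rw [← sup_assoc, sup_comm (Ideal.span {lf c}), sup_comm (Ideal.span {pr B})]
  refine le_trans h3 ?_
  rw [sup_comm, sup_assoc]

/-- `f` lies in the saturation of `J` -/
def Sat (J : Ideal S) (f : S) : Prop := ∃ N, mm ^ N * Ideal.span {f} ≤ J

lemma sat_of_triple {A B D : Multiset V} {J : Ideal S} {f : S}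
    (h : ∀ a ∈ A, ∀ b ∈ B, ∀ c ∈ D, det3 a b c ≠ 0)
    (hA : f * pr A ∈ J) (hB : f * pr B ∈ J) (hD : f * pr D ∈ J) : Sat J f := by
  obtain ⟨N, hN⟩ := mm_pow_triple h
  refine ⟨N, le_trans (Ideal.mul_mono_left hN) ?_⟩
  rw [Ideal.sup_mul, Ideal.sup_mul, Ideal.span_singleton_mul_span_singleton,
    Ideal.span_singleton_mul_span_singleton, Ideal.span_singleton_mul_span_singleton]
  refine sup_le ?_ (sup_le ?_ ?_)
  · rw [Ideal.span_singleton_le_iff_mem, mul_comm]; exact hA
  · rw [Ideal.span_singleton_le_iff_mem, mul_comm]; exact hB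
  · rw [Ideal.span_singleton_le_iff_mem, mul_comm]; exact hD

lemma Sat.mono {J J' : Ideal S} {f : S} (h : Sat J f) (hJ : J ≤ J') : Sat J' f := by
  obtain ⟨N, hN⟩ := h
  exact ⟨N, le_trans hN hJ⟩

/-- if a linear form is a nonzerodivisor modulo `Q` then `Q` is saturated -/
lemma mem_of_sat {Q : Ideal S} {d : V} (hd : ∀ x, lf d * x ∈ Q → x ∈ Q) {f : S}
    (h : Sat Q f) : f ∈ Q := by
  obtain ⟨N, hN⟩ := h
  have h1 : (lf d) ^ N * f ∈ Q := by
    apply hN
    exact Ideal.mul_mem_mul (Ideal.pow_mem_pow (lf_mem_mm d) N) (Ideal.mem_span_singleton_self f)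
  clear hN
  induction N with
  | zero => simpa using h1
  | succ n ih =>
    apply ih
    apply hd
    rw [← mul_assoc, ← pow_succ']
    exact h1

/-- cross product -/
def cross (a b : V) : V :=
  ![a 1 * b 2 - a 2 * b 1, a 2 * b 0 - a 0 * b 2, a 0 * b 1 - a 1 * b 0]

lemma eval_cross (a b d : V) : eval d (lf (cross a b)) = det3 a b d := by
  rw [eval_lf, det3_eq]
  simp [cross]
  ring

/-- a vector generic for finitely many independent pairs -/
lemma exists_generic (L : List (V × V)) (h : ∀ x ∈ L, Ind2 x.1 x.2) :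
    ∃ d, ∀ x ∈ L, det3 x.1 x.2 d ≠ 0 := by
  have h1 : ((L.map (fun x => lf (cross x.1 x.2))).prod : S) ≠ 0 := by
    apply List.prod_ne_zero
    intro h0
    rw [List.mem_map] at h0
    obtain ⟨x, hx, hx0⟩ := h0
    obtain ⟨c, hc⟩ := h x hx
    apply hc
    rw [← eval_cross, hx0, map_zero]
  have h2 : ∃ d : V, eval d ((L.map (fun x => lf (cross x.1 x.2))).prod : S) ≠ 0 := by
    by_contra hcon
    push Not at hcon
    apply h1
    apply MvPolynomial.funext
    intro d
    rw [hcon d, map_zero]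
  obtain ⟨d, hd⟩ := h2
  refine ⟨d, fun x hx h0 => hd ?_⟩
  rw [map_list_prod, List.map_map]
  apply List.prod_eq_zero
  rw [List.mem_map]
  exact ⟨x, hx, by simp only [Function.comp]; rw [eval_cross, h0]⟩

/-- the pairs of two multisets -/
noncomputable def pairs (A B : Multiset V) : List (V × V) := (A ×ˢ B).toList

lemma mem_pairs {A B : Multiset V} {x : V × V} : x ∈ pairs A B ↔ x.1 ∈ A ∧ x.2 ∈ B := by
  unfold pairs
  rw [Multiset.mem_toList, Multiset.mem_product]

def Ind (A B : Multiset V) : Prop := ∀ a ∈ A, ∀ b ∈ B, Ind2 a b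

lemma Ind.symm {A B : Multiset V} (h : Ind A B) : Ind B A :=
  fun b hb a ha => (h a ha b hb).symm

lemma Ind.relPrime {A B : Multiset V} (h : Ind A B) : IsRelPrime (pr A) (pr B) :=
  relPrime_pr h

lemma Ind.add_right {A B D : Multiset V} (h1 : Ind A B) (h2 : Ind A D) : Ind A (B + D) := by
  intro a ha b hb
  rw [Multiset.mem_add] at hb
  rcases hb with hb | hb
  · exact h1 a ha b hb
  · exact h2 a ha b hb

lemma Ind.add_left {A B D : Multiset V} (h1 : Ind A D) (h2 : Ind B D) : Ind (A + B) D :=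
  (h1.symm.add_right h2.symm).symm

/-- complete intersections are saturated -/
lemma ci_sat {B D : Multiset V} (h : Ind B D) {f : S}
    (hf : Sat (Ideal.span {pr B, pr D}) f) : f ∈ Ideal.span ({pr B, pr D} : Set S) := by
  obtain ⟨d, hd⟩ := exists_generic (pairs B D) (fun x hx => by
    rw [mem_pairs] at hx
    exact h x.1 hx.1 x.2 hx.2)
  have hnz : NZ (lf d) (pr B) (pr D) := by
    apply nz_pr
    intro a ha b hb
    exact hd (a, b) (mem_pairs.2 ⟨ha, hb⟩)
  exact mem_of_sat hnz hf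

lemma pr_ne_zero {B D : Multiset V} (hD : D ≠ 0) (h : Ind B D) : pr B ≠ 0 := by
  unfold pr
  apply Multiset.prod_ne_zero
  intro h0
  rw [Multiset.mem_map] at h0
  obtain ⟨b, hb, hb0⟩ := h0
  obtain ⟨e, he⟩ := Multiset.exists_mem_of_ne_zero hD
  obtain ⟨c, hc⟩ := h b hb e he
  exact (prime_lf hc).ne_zero hb0

/-- the path ideals are saturated -/
lemma path_sat {A B D E : Multiset V} (hD0 : D ≠ 0) (hAD : Ind A D) (hBD : Ind B D)
    (hBE : Ind B E) {f : S}
    (hf : Sat (Ideal.span {pr A * pr B, pr B * pr D, pr D * pr E}) f) :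
    f ∈ Ideal.span ({pr A * pr B, pr B * pr D, pr D * pr E} : Set S) := by
  obtain ⟨d, hd⟩ := exists_generic (pairs A D ++ (pairs B D ++ pairs B E)) (fun x hx => by
    rw [List.mem_append, List.mem_append, mem_pairs, mem_pairs, mem_pairs] at hx
    rcases hx with hx | hx | hx
    · exact hAD x.1 hx.1 x.2 hx.2
    · exact hBD x.1 hx.1 x.2 hx.2
    · exact hBE x.1 hx.1 x.2 hx.2)
  have hnz1 : NZ (lf d) (pr A) (pr D) := by
    apply nz_pr
    intro a ha b hb
    exact hd (a, b) (List.mem_append_left _ (mem_pairs.2 ⟨ha, hb⟩))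
  have hnz2 : NZ (lf d) (pr B) (pr (D + E)) := by
    apply nz_pr
    intro a ha b hb
    rw [Multiset.mem_add] at hb
    rcases hb with hb | hb
    · exact hd (a, b) (List.mem_append_right _ (List.mem_append_left _ (mem_pairs.2 ⟨ha, hb⟩)))
    · exact hd (a, b) (List.mem_append_right _ (List.mem_append_right _ (mem_pairs.2 ⟨ha, hb⟩)))
  apply mem_of_sat (d := d) _ hf
  intro x hx
  have mem3 : ∀ {z : S}, z ∈ Ideal.span ({pr A * pr B, pr B * pr D, pr D * pr E} : Set S) ↔
      ∃ α β γ, z = α * (pr A * pr B) + β * (pr B * pr D) + γ * (pr D * pr E) := by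
    intro z
    rw [Ideal.mem_span_insert]
    constructor
    · rintro ⟨α, w, hw, rfl⟩
      obtain ⟨β, γ, rfl⟩ := Ideal.mem_span_pair.1 hw
      exact ⟨α, β, γ, by ring⟩
    · rintro ⟨α, β, γ, rfl⟩
      exact ⟨α, β * (pr B * pr D) + γ * (pr D * pr E), Ideal.mem_span_pair.2 ⟨β, γ, rfl⟩, by ring⟩
  rw [mem3] at hx ⊢
  obtain ⟨α, β, γ, hx⟩ := hx
  have h1 : x ∈ Ideal.span ({pr B, pr (D + E)} : Set S) := by
    apply hnz2
    rw [Ideal.mem_span_pair]
    exact ⟨α * pr A + β * pr D, γ, by rw [hx, pr_add]; ring⟩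
  obtain ⟨μ, ν, hμν⟩ := Ideal.mem_span_pair.1 h1
  rw [pr_add] at hμν
  -- lf d * μ * X_b ∈ J
  have h2 : pr B * (lf d * μ - α * pr A - β * pr D) = (pr D * pr E) * (γ - lf d * ν) := by
    rw [← hμν] at hx
    linear_combination hx
  have h3 : pr B ∣ γ - lf d * ν := by
    have hrel : IsRelPrime (pr B) (pr D * pr E) := by
      rw [← pr_add]
      exact (hBD.add_right hBE).relPrime
    exact hrel.dvd_of_dvd_mul_left ⟨_, h2.symm⟩
  obtain ⟨γ', hγ'⟩ := h3
  have hB0 : pr B ≠ 0 := pr_ne_zero hD0 hBD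
  rw [hγ'] at h2
  have h4 : lf d * μ = (α * pr A + β * pr D) + (pr D * pr E) * γ' := by
    apply mul_left_cancel₀ hB0
    linear_combination h2
  have h5 : μ ∈ Ideal.span ({pr A, pr D} : Set S) := by
    apply hnz1
    rw [h4, Ideal.mem_span_pair]
    exact ⟨α, β + pr E * γ', by ring⟩
  obtain ⟨m1, m2, hm⟩ := Ideal.mem_span_pair.1 h5
  exact ⟨m1, m2, ν, by rw [← hμν, ← hm]; ring⟩

lemma not_unit_pr {A : Multiset V} (h : A ≠ 0) : ¬ IsUnit (pr A) := by
  intro hu
  have h1 := eval_mm (pr_mem_mm h)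
  have h2 : IsUnit (constantCoeff (pr A)) := hu.map constantCoeff
  rw [h1] at h2
  exact not_isUnit_zero h2

lemma dvd_of_dvd_of_relPrime {d x y z : S} (h1 : d ∣ x * y) (h2 : d ∣ y * z)
    (h : IsRelPrime x z) : d ∣ y := by
  by_cases hy : y = 0
  · rw [hy]; exact dvd_zero _
  rw [mul_comm] at h1
  obtain ⟨d1, d2, ⟨y1, rfl⟩, hd2, rfl⟩ := exists_dvd_and_dvd_of_dvd_mul h1
  have hd1 : d1 ≠ 0 := left_ne_zero_of_mul hy
  have h3 : d2 ∣ y1 * z := by
    rw [mul_assoc] at h2
    exact (mul_dvd_mul_iff_left hd1).1 h2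
  have h4 : IsRelPrime d2 z := h.of_dvd_left hd2
  exact mul_dvd_mul_left d1 (h4.dvd_of_dvd_mul_right h3)

lemma card_le_of_dvd {A B : Multiset V} (hB : pr B ≠ 0) (h : pr A ∣ pr B) :
    Multiset.card A ≤ Multiset.card B := by
  have hA : pr A ≠ 0 := fun h0 => hB (by rw [h0] at h; exact zero_dvd_iff.1 h)
  have h1 := totalDegree_le_of_dvd_of_isDomain h hB
  rwa [(pr_homog A).totalDegree hA, (pr_homog B).totalDegree hB] at h1

lemma span_pair_le_dvd {f g d : S} (h1 : d ∣ f) (h2 : d ∣ g) :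
    Ideal.span ({f, g} : Set S) ≤ Ideal.span {d} := by
  rw [Ideal.span_le]
  intro x hx
  rw [SetLike.mem_coe, Ideal.mem_span_singleton]
  rcases hx with rfl | hx
  · exact h1
  · rw [Set.mem_singleton_iff] at hx
    rw [hx]; exact h2

/-- `F2b` -/
lemma common_card {A B D A' B' D' : Multiset V} (hA0 : A ≠ 0) (hA0' : A' ≠ 0)
    (hBA : Ind B A) (hBA' : Ind B' A') (hAD : Ind A D) (hAD' : Ind A' D')
    (h : Ideal.span ({pr A * pr B, pr B * pr D} : Set S) =
      Ideal.span {pr A' * pr B', pr B' * pr D'}) :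
    Multiset.card B = Multiset.card B' := by
  have key : ∀ {A B D A' B' D' : Multiset V}, Ind A' D' →
      Ideal.span ({pr A * pr B, pr B * pr D} : Set S) =
        Ideal.span {pr A' * pr B', pr B' * pr D'} → pr B ∣ pr B' := by
    intro A B D A' B' D' hAD' h
    have h1 := span_pair_le_dvd (f := pr A * pr B) (g := pr B * pr D) (d := pr B)
      (dvd_mul_left _ _) (dvd_mul_right _ _)
    rw [h] at h1
    have h2 : pr B ∣ pr A' * pr B' := Ideal.mem_span_singleton.1 (h1 (Ideal.subset_span (by simp)))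
    have h3 : pr B ∣ pr B' * pr D' := Ideal.mem_span_singleton.1 (h1 (Ideal.subset_span (by simp)))
    exact dvd_of_dvd_of_relPrime h2 h3 hAD'.relPrime
  apply le_antisymm
  · exact card_le_of_dvd (pr_ne_zero hA0' hBA') (key hAD' h)
  · exact card_le_of_dvd (pr_ne_zero hA0 hBA) (key hAD h.symm)

/-- `F2a` -/
lemma no_common {A B D : Multiset V} (hB : B ≠ 0) {P Q : S} (hPQ : IsRelPrime P Q)
    (h : Ideal.span ({pr A * pr B, pr B * pr D} : Set S) = Ideal.span {P, Q}) : False := by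
  have h1 := span_pair_le_dvd (f := pr A * pr B) (g := pr B * pr D) (d := pr B)
    (dvd_mul_left _ _) (dvd_mul_right _ _)
  rw [h] at h1
  have h2 : pr B ∣ P := Ideal.mem_span_singleton.1 (h1 (Ideal.subset_span (by simp)))
  have h3 : pr B ∣ Q := Ideal.mem_span_singleton.1 (h1 (Ideal.subset_span (by simp)))
  exact not_unit_pr hB (hPQ h2 h3)

lemma exists_equiv_of_card {ι κ : Type} [Fintype ι] [Fintype κ] {s : ι → ℕ} {t : κ → ℕ}
    (h : ∀ d, Fintype.card {i // s i = d} = Fintype.card {j // t j = d}) :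
    ∃ e : ι ≃ κ, ∀ i, t (e i) = s i := by
  have h1 : ∀ d, Nonempty ({i // s i = d} ≃ {j // t j = d}) := fun d =>
    Fintype.card_eq.1 (h d)
  let e := fun d => (h1 d).some
  refine ⟨(Equiv.sigmaFiberEquiv s).symm.trans
    ((Equiv.sigmaCongrRight e).trans (Equiv.sigmaFiberEquiv t)), ?_⟩
  intro i
  simp only [Equiv.trans_apply, Equiv.sigmaFiberEquiv, Equiv.coe_fn_symm_mk, Equiv.coe_fn_mk,
    Equiv.sigmaCongrRight_apply]
  exact (e (s i) ⟨i, rfl⟩).2

lemma ci_not_mem {A B : Multiset V} (hB : B ≠ 0) (h : Ind A B) :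
    pr A ∉ Ideal.span ({pr B} : Set S) := by
  intro h1
  rw [Ideal.mem_span_singleton] at h1
  have h2 := h.relPrime h1 (dvd_refl _)
  exact not_unit_pr hB h2

/-- degrees of complete intersections -/
lemma ci_deg {A B A' B' : Multiset V} (hA : A ≠ 0) (hB : B ≠ 0) (hA' : A' ≠ 0) (hB' : B' ≠ 0)
    (hAB : Ind A B) (hAB' : Ind A' B')
    (h : Ideal.span ({pr A, pr B} : Set S) = Ideal.span {pr A', pr B'}) :
    (Multiset.card A = Multiset.card A' ∧ Multiset.card B = Multiset.card B') ∨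
    (Multiset.card A = Multiset.card B' ∧ Multiset.card B = Multiset.card A') := by
  have hr : ∀ x y : S, Set.range ![x, y] = {x, y} := by
    intro x y; simp [Matrix.range_cons, Matrix.range_empty, Set.pair_comm]
  have hmin : ∀ {A B : Multiset V}, A ≠ 0 → B ≠ 0 → Ind A B → ∀ i : Fin 2,
      (![pr A, pr B] : Fin 2 → S) i ∉ Ideal.span ((![pr A, pr B] : Fin 2 → S) '' {j | j ≠ i}) := by
    intro A B hA hB hAB i
    fin_cases i
    · have : ({j | j ≠ (0 : Fin 2)} : Set (Fin 2)) = {1} := by ext j; fin_cases j <;> simp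
      simp only [Fin.zero_eta, Fin.isValue, Matrix.cons_val_zero]
      rw [this, Set.image_singleton]
      exact ci_not_mem hB hAB
    · have : ({j | j ≠ (1 : Fin 2)} : Set (Fin 2)) = {0} := by ext j; fin_cases j <;> simp
      simp only [Fin.mk_one, Fin.isValue, Matrix.cons_val_one]
      rw [this, Set.image_singleton]
      exact ci_not_mem hA hAB.symm
  have hh : ∀ (A B : Multiset V) (i : Fin 2), ((![pr A, pr B] : Fin 2 → S) i).IsHomogeneous
      ((![Multiset.card A, Multiset.card B] : Fin 2 → ℕ) i) := by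
    intro A B i
    fin_cases i
    · exact pr_homog A
    · exact pr_homog B
  obtain ⟨e, he⟩ := exists_equiv_of_card (card_deg_eq (hh A B) (hh A' B') (hmin hA hB hAB)
    (hmin hA' hB' hAB') (by rw [hr, hr]; exact h))
  have h0 := he 0
  have h1 := he 1
  have hne : e 0 ≠ e 1 := fun h' => by simpa using e.injective h'
  have h01 : ∀ k : Fin 2, k = 0 ∨ k = 1 := by decide
  rcases h01 (e 0) with h2 | h2 <;> rcases h01 (e 1) with h3 | h3
  · exact absurd (h2.trans h3.symm) hne
  · left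
    rw [h2] at h0
    rw [h3] at h1
    simp at h0 h1
    exact ⟨h0.symm, h1.symm⟩
  · right
    rw [h2] at h0
    rw [h3] at h1
    simp at h0 h1
    exact ⟨h0.symm, h1.symm⟩
  · exact absurd (h2.trans h3.symm) hne

/-- the middle lemma: `P = X_b X_c` is the middle generator of a path on the left hand side,
but an end generator on the right hand side; impossible -/
lemma mid_lemma {A B D E A' B' D' E' : Multiset V} (hE' : E' ≠ 0) (hD' : D' ≠ 0) (hA' : A' ≠ 0)
    (h3 : ∀ e ∈ E', ∀ d ∈ D', ∀ a ∈ A', det3 e d a ≠ 0) (hEB : Ind E' B')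
    (hP : Ideal.span ({pr B * pr D} : Set S) = Ideal.span {pr D' * pr E'})
    (h : Ideal.span ({pr A * pr B, pr B * pr D, pr D * pr E} : Set S) =
      Ideal.span {pr A' * pr B', pr B' * pr D', pr D' * pr E'}) : False := by
  have mem3 : ∀ {x1 x2 x3 z : S}, z ∈ Ideal.span ({x1, x2, x3} : Set S) ↔
      ∃ α β γ, z = α * x1 + β * x2 + γ * x3 := by
    intro x1 x2 x3 z
    rw [Ideal.mem_span_insert]
    constructor
    · rintro ⟨α, w, hw, rfl⟩
      obtain ⟨β, γ, rfl⟩ := Ideal.mem_span_pair.1 hw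
      exact ⟨α, β, γ, by ring⟩
    · rintro ⟨α, β, γ, rfl⟩
      exact ⟨α, β * x2 + γ * x3, Ideal.mem_span_pair.2 ⟨β, γ, rfl⟩, by ring⟩
  obtain ⟨l, hl⟩ := Multiset.exists_mem_of_ne_zero hE'
  obtain ⟨d0, hd0⟩ := Multiset.exists_mem_of_ne_zero hD'
  obtain ⟨a0, ha0⟩ := Multiset.exists_mem_of_ne_zero hA'
  have hlp : Prime (lf l) := prime_lf (h3 l hl d0 hd0 a0 ha0)
  have hlE : lf l ∣ pr E' := by
    obtain ⟨E1, rfl⟩ := Multiset.exists_cons_of_mem hl
    rw [pr_cons]; exact dvd_mul_right _ _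
  have hlP : lf l ∣ pr B * pr D := by
    have : pr B * pr D ∈ Ideal.span ({pr D' * pr E'} : Set S) := by
      rw [← hP]; exact Ideal.mem_span_singleton_self _
    rw [Ideal.mem_span_singleton] at this
    exact (hlE.mul_left _).trans this
  -- core argument: g is one of the two other generators
  have core : ∀ g : S, (pr A' * pr B') ∈ Ideal.span ({lf l, g} : Set S) →
      (pr B' * pr D') ∈ Ideal.span ({lf l, g} : Set S) →
      g ∈ Ideal.span ({pr A' * pr B', pr B' * pr D', pr D' * pr E'} : Set S) → False := by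
    intro g hg1 hg2 hg3
    obtain ⟨α, β, h4⟩ := Ideal.mem_span_pair.1 hg1
    obtain ⟨γ, δ, h5⟩ := Ideal.mem_span_pair.1 hg2
    obtain ⟨ζ, η, θ, h6⟩ := mem3.1 hg3
    obtain ⟨E1, hE1⟩ := hlE
    have hlB : ¬ lf l ∣ pr B' := by
      intro hdvd
      have hrel : IsRelPrime (pr E') (pr B') := hEB.relPrime
      exact hlp.not_isUnit (hrel (Dvd.intro _ hE1.symm) hdvd)
    have h7 : lf l ∣ pr A' - β * (ζ * pr A' + η * pr D') := by
      have h8 : lf l ∣ pr B' * (pr A' - β * (ζ * pr A' + η * pr D')) := by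
        refine ⟨α + β * θ * pr D' * E1, ?_⟩
        rw [h6, hE1] at h4
        linear_combination (-1 : S) * h4
      exact (hlp.dvd_or_dvd h8).resolve_left hlB
    have h9 : lf l ∣ pr D' - δ * (ζ * pr A' + η * pr D') := by
      have h8 : lf l ∣ pr B' * (pr D' - δ * (ζ * pr A' + η * pr D')) := by
        refine ⟨γ + δ * θ * pr D' * E1, ?_⟩
        rw [h6, hE1] at h5
        linear_combination (-1 : S) * h5
      exact (hlp.dvd_or_dvd h8).resolve_left hlB
    obtain ⟨u, hu⟩ := h7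
    obtain ⟨v, hv⟩ := h9
    -- δ X_a ∈ (l, X_d)
    have h10 : pr A' * δ ∈ Ideal.span ({lf l, pr D'} : Set S) := by
      rw [Ideal.mem_span_pair]
      refine ⟨δ * u - β * v, β, ?_⟩
      linear_combination δ * (-1 : S) * hu + β * hv
    have h11 : δ ∈ Ideal.span ({lf l, pr D'} : Set S) := by
      have key : ∀ (A : Multiset V), (∀ a ∈ A, a ∈ A') → ∀ δ : S,
          pr A * δ ∈ Ideal.span ({lf l, pr D'} : Set S) → δ ∈ Ideal.span ({lf l, pr D'} : Set S) := by
        intro A
        induction A using Multiset.induction_on with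
        | empty => intro _ δ h; simpa [pr_zero] using h
        | cons a A ih =>
          intro hA δ h
          apply ih (fun x hx => hA x (Multiset.mem_cons_of_mem hx))
          rw [pr_cons, mul_assoc] at h
          have hnz : NZ (lf a) (pr {l}) (pr D') := by
            apply nz_pr
            intro x hx y hy
            rw [Multiset.mem_singleton] at hx
            subst hx
            exact h3 x hl y hy a (hA a (Multiset.mem_cons_self _ _))
          have e1 : pr {l} = lf l := by simp [pr]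
          rw [e1] at hnz
          exact hnz _ h
      exact key A' (fun _ h => h) δ h10
    obtain ⟨δ1, κ, h12⟩ := Ideal.mem_span_pair.1 h11
    -- β ≡ κ X_a mod l
    have hlD : ¬ lf l ∣ pr D' := by
      intro hdvd
      have hrel : IsRelPrime (pr E') (pr D') := by
        apply Ind.relPrime
        intro e he d hd
        exact ⟨a0, h3 e he d hd a0 ha0⟩
      exact hlp.not_isUnit (hrel (Dvd.intro _ hE1.symm) hdvd)
    have h13 : lf l ∣ β - κ * pr A' := by
      have h8 : lf l ∣ pr D' * (β - κ * pr A') := by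
        refine ⟨β * v - δ * u + δ1 * pr A', ?_⟩
        linear_combination (-1 : S) * δ * hu + β * hv - pr A' * h12
      exact (hlp.dvd_or_dvd h8).resolve_left hlD
    obtain ⟨w, hw⟩ := h13
    have hlA : ¬ lf l ∣ pr A' := by
      intro hdvd
      have hrel : IsRelPrime (pr E') (pr A') := by
        apply Ind.relPrime
        intro e he a ha
        refine ⟨d0, ?_⟩
        have := h3 e he d0 hd0 a ha
        rw [det3_eq] at this ⊢
        intro h'; apply this; linarith
      exact hlp.not_isUnit (hrel (Dvd.intro _ hE1.symm) hdvd)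
    have h14 : lf l ∣ 1 - κ * (ζ * pr A' + η * pr D') := by
      have h8 : lf l ∣ pr A' * (1 - κ * (ζ * pr A' + η * pr D')) := by
        refine ⟨u + w * (ζ * pr A' + η * pr D'), ?_⟩
        linear_combination hu + (ζ * pr A' + η * pr D') * hw
      exact (hlp.dvd_or_dvd h8).resolve_left hlA
    obtain ⟨r, hr⟩ := h14
    have h15 := congrArg constantCoeff hr
    rw [map_mul, eval_mm (lf_mem_mm l), zero_mul, map_sub, map_one, map_mul, map_add, map_mul,
      map_mul, eval_mm (pr_mem_mm hA'), eval_mm (pr_mem_mm hD')] at h15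
    simp at h15
  have hfg : lf l ∣ (pr A * pr B) * (pr D * pr E) := by
    have : (pr A * pr B) * (pr D * pr E) = (pr B * pr D) * (pr A * pr E) := by ring
    rw [this]
    exact hlP.mul_right _
  have m1 : pr A' * pr B' ∈ Ideal.span ({pr A * pr B, pr B * pr D, pr D * pr E} : Set S) := by
    rw [h]; exact Ideal.subset_span (by simp)
  have m2 : pr B' * pr D' ∈ Ideal.span ({pr A * pr B, pr B * pr D, pr D * pr E} : Set S) := by
    rw [h]; exact Ideal.subset_span (by simp)
  obtain ⟨c, hc⟩ := hlP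
  rcases hlp.dvd_or_dvd hfg with ⟨q, hq⟩ | ⟨q, hq⟩
  · apply core (pr D * pr E)
    · obtain ⟨x, y, z, hxyz⟩ := mem3.1 m1
      rw [Ideal.mem_span_pair]
      exact ⟨x * q + y * c, z, by rw [hxyz, hq, hc]; ring⟩
    · obtain ⟨x, y, z, hxyz⟩ := mem3.1 m2
      rw [Ideal.mem_span_pair]
      exact ⟨x * q + y * c, z, by rw [hxyz, hq, hc]; ring⟩
    · rw [← h]; exact Ideal.subset_span (by simp)
  · apply core (pr A * pr B)
    · obtain ⟨x, y, z, hxyz⟩ := mem3.1 m1
      rw [Ideal.mem_span_pair]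
      exact ⟨z * q + y * c, x, by rw [hxyz, hq, hc]; ring⟩
    · obtain ⟨x, y, z, hxyz⟩ := mem3.1 m2
      rw [Ideal.mem_span_pair]
      exact ⟨z * q + y * c, x, by rw [hxyz, hq, hc]; ring⟩
    · rw [← h]; exact Ideal.subset_span (by simp)

end Pool.Agent.Helper21.Toric
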