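import Pool.Agent.Helper21.PentAlg

namespace Pool.Agent.Helper21.Toric

open MvPolynomial

/-- A pentagonal family: five nonempty multisets of linear forms, such that all transversals of
the vertex covers `{i, i+1, i+3}` of the pentagon are linearly independent. -/
structure Pent (A : Fin 5 → Multiset V) : Prop where
  ne : ∀ i, A i ≠ 0
  ind : ∀ i, ∀ a ∈ A i, ∀ b ∈ A (i+1), ∀ c ∈ A (i+3), det3 a b c ≠ 0

lemma f11 (i : Fin 5) : i + 1 + 1 = i + 2 := by revert i; decide
lemma f21 (i : Fin 5) : i + 2 + 1 = i + 3 := by revert i; decide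
lemma f31 (i : Fin 5) : i + 3 + 1 = i + 4 := by revert i; decide
lemma f41 (i : Fin 5) : i + 4 + 1 = i := by revert i; decide
lemma f13 (i : Fin 5) : i + 1 + 3 = i + 4 := by revert i; decide
lemma f23 (i : Fin 5) : i + 2 + 3 = i := by revert i; decide
lemma f33 (i : Fin 5) : i + 3 + 3 = i + 1 := by revert i; decide
lemma f43 (i : Fin 5) : i + 4 + 3 = i + 2 := by revert i; decide

lemma n01 (i : Fin 5) : i ≠ i + 1 := by revert i; decide
lemma n02 (i : Fin 5) : i ≠ i + 2 := by revert i; decide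
lemma n03 (i : Fin 5) : i ≠ i + 3 := by revert i; decide
lemma n04 (i : Fin 5) : i ≠ i + 4 := by revert i; decide
lemma n12 (i : Fin 5) : i + 1 ≠ i + 2 := by revert i; decide
lemma n13 (i : Fin 5) : i + 1 ≠ i + 3 := by revert i; decide
lemma n14 (i : Fin 5) : i + 1 ≠ i + 4 := by revert i; decide
lemma n23 (i : Fin 5) : i + 2 ≠ i + 3 := by revert i; decide
lemma n24 (i : Fin 5) : i + 2 ≠ i + 4 := by revert i; decide
lemma n34 (i : Fin 5) : i + 3 ≠ i + 4 := by revert i; decide
lemma n31 (i : Fin 5) : i + 3 ≠ i + 1 := by revert i; decide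
lemma ne_cases (i j : Fin 5) (h : j ≠ i) : j = i + 1 ∨ j = i + 2 ∨ j = i + 3 ∨ j = i + 4 := by
  revert i j; decide

namespace Pent
variable {A : Fin 5 → Multiset V} (h : Pent A)
include h

lemma ind0 (i : Fin 5) : ∀ a ∈ A i, ∀ b ∈ A (i+1), ∀ c ∈ A (i+3), det3 a b c ≠ 0 := h.ind i
lemma ind1 (i : Fin 5) : ∀ a ∈ A (i+1), ∀ b ∈ A (i+2), ∀ c ∈ A (i+4), det3 a b c ≠ 0 := by
  have := h.ind (i+1); rwa [f11, f13] at this
lemma ind2' (i : Fin 5) : ∀ a ∈ A (i+2), ∀ b ∈ A (i+3), ∀ c ∈ A i, det3 a b c ≠ 0 := by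
  have := h.ind (i+2); rwa [f21, f23] at this
lemma ind3 (i : Fin 5) : ∀ a ∈ A (i+3), ∀ b ∈ A (i+4), ∀ c ∈ A (i+1), det3 a b c ≠ 0 := by
  have := h.ind (i+3); rwa [f31, f33] at this
lemma ind4 (i : Fin 5) : ∀ a ∈ A (i+4), ∀ b ∈ A i, ∀ c ∈ A (i+2), det3 a b c ≠ 0 := by
  have := h.ind (i+4); rwa [f41, f43] at this

lemma I01 (i : Fin 5) : Ind (A i) (A (i+1)) := by
  intro a ha b hb
  obtain ⟨c, hc⟩ := Multiset.exists_mem_of_ne_zero (h.ne (i+3))
  exact ⟨c, h.ind i a ha b hb c hc⟩

lemma I02 (i : Fin 5) : Ind (A i) (A (i+2)) := by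
  intro a ha b hb
  obtain ⟨c, hc⟩ := Multiset.exists_mem_of_ne_zero (h.ne (i+4))
  refine ⟨c, ?_⟩
  have := h.ind4 i c hc a ha b hb
  rw [det3_perm1] at this
  exact this

lemma pair (i j : Fin 5) (hij : i ≠ j) : Ind (A i) (A j) := by
  have : j = i + 1 ∨ j = i + 2 ∨ i = j + 1 ∨ i = j + 2 := by revert i j; decide
  rcases this with rfl | rfl | rfl | rfl
  · exact h.I01 i
  · exact h.I02 i
  · exact (h.I01 j).symm
  · exact (h.I02 j).symm

lemma rot (k : Fin 5) : Pent (fun i => A (i + k)) := by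
  constructor
  · intro i; exact h.ne _
  · intro i
    have e1 : i + 1 + k = i + k + 1 := by revert i k; decide
    have e3 : i + 3 + k = i + k + 3 := by revert i k; decide
    simp only [e1, e3]
    exact h.ind (i + k)

end Pent

/-- the generators -/
noncomputable def PP (A : Fin 5 → Multiset V) (i : Fin 5) : S := pr (A i) * pr (A (i+1))

/-- their degrees -/
def sd (A : Fin 5 → Multiset V) (i : Fin 5) : ℕ := Multiset.card (A i) + Multiset.card (A (i+1))

lemma PP_homog (A : Fin 5 → Multiset V) (i : Fin 5) : (PP A i).IsHomogeneous (sd A i) :=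
  (pr_homog _).mul (pr_homog _)

lemma eval_pr_eq_zero {A : Multiset V} {a q : V} (ha : a ∈ A) (h : eval q (lf a) = 0) :
    eval q (pr A) = 0 := by
  obtain ⟨B, rfl⟩ := Multiset.exists_cons_of_mem ha
  rw [pr_cons, map_mul, h, zero_mul]

lemma eval_pr_ne_zero {A : Multiset V} {q : V} (h : ∀ a ∈ A, eval q (lf a) ≠ 0) :
    eval q (pr A) ≠ 0 := by
  induction A using Multiset.induction_on with
  | empty => rw [pr_zero, map_one]; exact one_ne_zero
  | cons a A ih =>
    rw [pr_cons, map_mul]
    exact mul_ne_zero (h a (Multiset.mem_cons_self _ _))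
      (ih (fun x hx => h x (Multiset.mem_cons_of_mem hx)))

lemma eval_lf_cross (a b d : V) : eval (cross a b) (lf d) = det3 a b d := by
  rw [eval_lf, det3_eq]
  simp [cross]
  ring

lemma det3_self1 (a b : V) : det3 a b a = 0 := by rw [det3_eq]; ring
lemma det3_self2 (a b : V) : det3 a b b = 0 := by rw [det3_eq]; ring

lemma PP_min {A : Fin 5 → Multiset V} (h : Pent A) (i : Fin 5) :
    PP A i ∉ Ideal.span (PP A '' {j | j ≠ i}) := by
  obtain ⟨a, ha⟩ := Multiset.exists_mem_of_ne_zero (h.ne (i+2))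
  obtain ⟨b, hb⟩ := Multiset.exists_mem_of_ne_zero (h.ne (i+4))
  have z2 : eval (cross a b) (pr (A (i+2))) = 0 :=
    eval_pr_eq_zero ha (by rw [eval_lf_cross, det3_self1])
  have z4 : eval (cross a b) (pr (A (i+4))) = 0 :=
    eval_pr_eq_zero hb (by rw [eval_lf_cross, det3_self2])
  have n0 : eval (cross a b) (pr (A i)) ≠ 0 := by
    apply eval_pr_ne_zero
    intro c hc
    rw [eval_lf_cross]
    have := h.ind4 i b hb c hc a ha
    rw [det3_perm1, det3_perm1] at this
    exact this
  have n1 : eval (cross a b) (pr (A (i+1))) ≠ 0 := by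
    apply eval_pr_ne_zero
    intro c hc
    rw [eval_lf_cross]
    have := h.ind1 i c hc a ha b hb
    rw [det3_perm1] at this
    exact this
  intro hmem
  have hle : Ideal.span (PP A '' {j | j ≠ i}) ≤ RingHom.ker (eval (cross a b)) := by
    rw [Ideal.span_le]
    rintro _ ⟨j, hj, rfl⟩
    rw [SetLike.mem_coe, RingHom.mem_ker]
    have : j = i + 1 ∨ j = i + 2 ∨ j = i + 3 ∨ j = i + 4 := ne_cases i j hj
    unfold PP
    rcases this with rfl | rfl | rfl | rfl
    · rw [f11, map_mul, z2, mul_zero]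
    · rw [map_mul, z2, zero_mul]
    · rw [f31, map_mul, z4, mul_zero]
    · rw [map_mul, z4, zero_mul]
  have := hle hmem
  rw [RingHom.mem_ker] at this
  unfold PP at this
  rw [map_mul] at this
  exact (mul_ne_zero n0 n1) this

/-- the ideal generated by some of the generators -/
noncomputable def JJ (A : Fin 5 → Multiset V) (T : Set (Fin 5)) : Ideal S := Ideal.span (PP A '' T)

lemma JJ_pair (A : Fin 5 → Multiset V) (i j : Fin 5) : JJ A {i, j} = Ideal.span {PP A i, PP A j} := by
  unfold JJ; rw [Set.image_pair]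

lemma JJ_triple (A : Fin 5 → Multiset V) (i j k : Fin 5) :
    JJ A {i, j, k} = Ideal.span {PP A i, PP A j, PP A k} := by
  unfold JJ
  rw [Set.image_insert_eq, Set.image_pair]

section facts
variable {A B : Fin 5 → Multiset V} (hA : Pent A) (hB : Pent B)
include hA hB

/-- two adjacent edges on both sides -/
lemma fact_adj_adj (i j : Fin 5) (h : JJ A {i, i+1} = JJ B {j, j+1}) :
    Multiset.card (A (i+1)) = Multiset.card (B (j+1)) := by
  rw [JJ_pair, JJ_pair] at h
  unfold PP at h
  rw [f11, f11] at h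
  exact common_card (hA.ne i) (hB.ne j) (hA.I01 i).symm (hB.I01 j).symm (hA.I02 i) (hB.I02 j) h

omit hA in
/-- adjacent on the left, nonadjacent on the right -/
lemma fact_adj_gap (hA : Pent A) (i j : Fin 5) (h : JJ A {i, i+1} = JJ B {j, j+2}) : False := by
  rw [JJ_pair, JJ_pair] at h
  unfold PP at h
  rw [f11, f21] at h
  refine no_common (hA.ne (i+1)) ?_ h
  rw [← pr_add, ← pr_add]
  apply Ind.relPrime
  exact Ind.add_left (Ind.add_right (hB.pair _ _ (n02 j)) (hB.pair _ _ (n03 j)))
    (Ind.add_right (hB.pair _ _ (n12 j)) (hB.pair _ _ (n13 j)))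

/-- the saturation of the separated ideal -/
lemma sep_le (i j : Fin 5) (h : JJ A {i, i+1, i+3} = JJ B {j, j+1, j+3}) :
    Ideal.span ({pr (A (i+1)), pr (A (i+3) + A (i+4))} : Set S) ≤
      Ideal.span {pr (B (j+1)), pr (B (j+3) + B (j+4))} := by
  have hQB : JJ B {j, j+1, j+3} ≤ Ideal.span {pr (B (j+1)), pr (B (j+3) + B (j+4))} := by
    rw [JJ_triple, Ideal.span_le]
    unfold PP
    rw [f11, f31]
    rintro x hx
    simp only [Set.mem_insert_iff, Set.mem_singleton_iff] at hx
    rcases hx with rfl | rfl | rfl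
    · exact Ideal.mul_mem_left _ _ (Ideal.subset_span (by simp))
    · exact Ideal.mul_mem_right _ _ (Ideal.subset_span (by simp))
    · rw [← pr_add]; exact Ideal.subset_span (by simp)
  have hJA : ∀ x ∈ ({pr (A i) * pr (A (i+1)), pr (A (i+1)) * pr (A (i+2)),
      pr (A (i+3)) * pr (A (i+4))} : Set S), x ∈ JJ B {j, j+1, j+3} := by
    intro x hx
    rw [← h, JJ_triple]
    unfold PP
    rw [f11, f31]
    exact Ideal.subset_span hx
  have hIndB : Ind (B (j+1)) (B (j+3) + B (j+4)) :=
    Ind.add_right (hB.pair _ _ (n13 j)) (hB.pair _ _ (n14 j))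
  have hs : Sat (JJ B {j, j+1, j+3}) (pr (A (i+1))) := by
    apply sat_of_triple (A := A i) (B := A (i+2)) (D := A (i+3) + A (i+4))
    · intro a ha b hb c hc
      rw [Multiset.mem_add] at hc
      rcases hc with hc | hc
      · have := hA.ind2' i b hb c hc a ha
        rw [det3_perm1, det3_perm1] at this
        exact this
      · have := hA.ind4 i c hc a ha b hb
        rw [det3_perm1] at this
        exact this
    · rw [mul_comm]; exact hJA _ (by simp)
    · exact hJA _ (by simp)
    · rw [pr_add]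
      exact Ideal.mul_mem_left _ _ (hJA (pr (A (i+3)) * pr (A (i+4))) (by simp))
  rw [Ideal.span_le]
  rintro x hx
  simp only [Set.mem_insert_iff, Set.mem_singleton_iff] at hx
  rcases hx with rfl | rfl
  · exact ci_sat hIndB (hs.mono hQB)
  · rw [pr_add (A (i+3)) (A (i+4))]
    exact hQB (hJA (pr (A (i+3)) * pr (A (i+4))) (by simp))

end facts

lemma fact_sep_sep {A B : Fin 5 → Multiset V} (hA : Pent A) (hB : Pent B)
    (i j : Fin 5) (h : JJ A {i, i+1, i+3} = JJ B {j, j+1, j+3}) :
    (Multiset.card (A (i+1)) = Multiset.card (B (j+1)) ∧ sd A (i+3) = sd B (j+3)) ∨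
    (Multiset.card (A (i+1)) = sd B (j+3) ∧ sd A (i+3) = Multiset.card (B (j+1))) := by
  have h1 := le_antisymm (sep_le hA hB i j h) (sep_le hB hA j i h.symm)
  have hIndA : Ind (A (i+1)) (A (i+3) + A (i+4)) :=
    Ind.add_right (hA.pair _ _ (n13 i)) (hA.pair _ _ (n14 i))
  have hIndB : Ind (B (j+1)) (B (j+3) + B (j+4)) :=
    Ind.add_right (hB.pair _ _ (n13 j)) (hB.pair _ _ (n14 j))
  have n1 : A (i+3) + A (i+4) ≠ 0 := by
    intro h0
    have h0' := congrArg Multiset.card h0
    rw [Multiset.card_add, Multiset.card_zero] at h0'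
    exact hA.ne (i+3) (Multiset.card_eq_zero.1 (by omega))
  have n2 : B (j+3) + B (j+4) ≠ 0 := by
    intro h0
    have h0' := congrArg Multiset.card h0
    rw [Multiset.card_add, Multiset.card_zero] at h0'
    exact hB.ne (j+3) (Multiset.card_eq_zero.1 (by omega))
  have := ci_deg (hA.ne (i+1)) n1 (hB.ne (j+1)) n2 hIndA hIndB h1
  unfold sd
  rw [f31, f31]
  rw [Multiset.card_add, Multiset.card_add] at this
  exact this

/-- separated on the left, path on the right -/
lemma fact_sep_path {A B : Fin 5 → Multiset V} (hA : Pent A) (hB : Pent B)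
    (i j : Fin 5) (h : JJ A {i, i+1, i+3} = JJ B {j, j+1, j+2}) : False := by
  have hJA : ∀ x ∈ ({pr (A i) * pr (A (i+1)), pr (A (i+1)) * pr (A (i+2)),
      pr (A (i+3)) * pr (A (i+4))} : Set S), x ∈ JJ B {j, j+1, j+2} := by
    intro x hx
    rw [← h, JJ_triple]
    unfold PP
    rw [f11, f31]
    exact Ideal.subset_span hx
  have hs : Sat (JJ B {j, j+1, j+2}) (pr (A (i+1))) := by
    apply sat_of_triple (A := A i) (B := A (i+2)) (D := A (i+3) + A (i+4))
    · intro a ha b hb c hc
      rw [Multiset.mem_add] at hc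
      rcases hc with hc | hc
      · have := hA.ind2' i b hb c hc a ha
        rw [det3_perm1, det3_perm1] at this
        exact this
      · have := hA.ind4 i c hc a ha b hb
        rw [det3_perm1] at this
        exact this
    · rw [mul_comm]; exact hJA _ (by simp)
    · exact hJA _ (by simp)
    · rw [pr_add]
      exact Ideal.mul_mem_left _ _ (hJA (pr (A (i+3)) * pr (A (i+4))) (by simp))
  have h1 : JJ B {j, j+1, j+2} = Ideal.span {pr (B j) * pr (B (j+1)), pr (B (j+1)) * pr (B (j+2)),
      pr (B (j+2)) * pr (B (j+3))} := by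
    rw [JJ_triple]; unfold PP; rw [f11, f21]
  rw [h1] at hs
  have h2 := path_sat (hB.ne (j+2)) (hB.pair j (j+2) (n02 j))
    (hB.pair (j+1) (j+2) (n12 j)) (hB.pair (j+1) (j+3) (n13 j)) hs
  rw [← h1, ← h, JJ_triple] at h2
  unfold PP at h2
  rw [f11, f31] at h2
  -- now a degree argument
  have h3 : pr (A (i+1)) ∈ Ideal.span (Set.range (![pr (A i) * pr (A (i+1)),
      pr (A (i+1)) * pr (A (i+2)), pr (A (i+3)) * pr (A (i+4))] : Fin 3 → S)) := by
    have : Set.range (![pr (A i) * pr (A (i+1)),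
      pr (A (i+1)) * pr (A (i+2)), pr (A (i+3)) * pr (A (i+4))] : Fin 3 → S) =
      {pr (A i) * pr (A (i+1)), pr (A (i+1)) * pr (A (i+2)), pr (A (i+3)) * pr (A (i+4))} := by
      ext x
      simp only [Set.mem_range, Fin.exists_fin_succ, Set.mem_insert_iff, Set.mem_singleton_iff]
      simp [eq_comm]
    rw [this]; exact h2
  have hh : ∀ k : Fin 3, ((![pr (A i) * pr (A (i+1)),
      pr (A (i+1)) * pr (A (i+2)), pr (A (i+3)) * pr (A (i+4))] : Fin 3 → S) k).IsHomogeneous
      ((![Multiset.card (A i) + Multiset.card (A (i+1)),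
        Multiset.card (A (i+1)) + Multiset.card (A (i+2)),
        Multiset.card (A (i+3)) + Multiset.card (A (i+4))] : Fin 3 → ℕ) k) := by
    intro k
    fin_cases k
    · exact (pr_homog _).mul (pr_homog _)
    · exact (pr_homog _).mul (pr_homog _)
    · exact (pr_homog _).mul (pr_homog _)
  obtain ⟨c, hc, hc2⟩ := exists_homog_coeffs hh (pr_homog _) h3
  have p0 : 0 < Multiset.card (A i) := Multiset.card_pos.2 (hA.ne i)
  have p2 : 0 < Multiset.card (A (i+2)) := Multiset.card_pos.2 (hA.ne (i+2))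
  have c0 : c 0 = 0 := by
    rcases hc2 0 with ⟨h4, _⟩ | ⟨_, h4⟩
    · have h4' : Multiset.card (A i) + Multiset.card (A (i+1)) ≤ Multiset.card (A (i+1)) := h4
      omega
    · exact h4
  have c1 : c 1 = 0 := by
    rcases hc2 1 with ⟨h4, _⟩ | ⟨_, h4⟩
    · have h4' : Multiset.card (A (i+1)) + Multiset.card (A (i+2)) ≤ Multiset.card (A (i+1)) := h4
      omega
    · exact h4
  rw [Fin.sum_univ_three, c0, c1] at hc
  simp only [zero_mul, zero_add, Matrix.cons_val] at hc
  have h5 : pr (A (i+3)) ∣ pr (A (i+1)) := ⟨c 2 * pr (A (i+4)), by rw [hc]; ring⟩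
  have h6 := (hA.pair (i+3) (i+1) (n31 i)).relPrime (dvd_refl _) h5
  exact not_unit_pr (hA.ne (i+3)) h6

/-- paths on both sides; the generator of lowest degree is the middle one on the left,
and an end on the right -/
lemma fact_mid {A B : Fin 5 → Multiset V} (hB : Pent B)
    (i j : Fin 5) (h : JJ A {i, i+1, i+2} = JJ B {j, j+1, j+2})
    (h1 : Ideal.span ({PP A (i+1)} : Set S) = Ideal.span {PP B (j+2)}) : False := by
  rw [JJ_triple, JJ_triple] at h
  unfold PP at h h1
  rw [f21, f11] at h1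
  rw [f11, f11, f21, f21] at h
  refine mid_lemma (A := A i) (B := A (i+1)) (D := A (i+2)) (E := A (i+3)) (A' := B j)
    (B' := B (j+1)) (D' := B (j+2)) (E' := B (j+3)) (hB.ne _) (hB.ne _) (hB.ne _) ?_
    (hB.pair _ _ (n31 j)) h1 h
  intro e he d hd a ha
  have := hB.ind2' j d hd e he a ha
  rw [det3_swap]
  simpa using this

lemma fact_mid' {A B : Fin 5 → Multiset V} (hB : Pent B)
    (i j : Fin 5) (h : JJ A {i, i+1, i+2} = JJ B {j, j+1, j+2})
    (h1 : Ideal.span ({PP A (i+1)} : Set S) = Ideal.span {PP B j}) : False := by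
  rw [JJ_triple, JJ_triple] at h
  unfold PP at h h1
  rw [f11] at h1
  rw [f11, f11, f21, f21] at h
  refine mid_lemma (A := A i) (B := A (i+1)) (D := A (i+2)) (E := A (i+3)) (A' := B (j+3))
    (B' := B (j+2)) (D' := B (j+1)) (E' := B j) (hB.ne _) (hB.ne _) (hB.ne _) ?_
    (hB.pair _ _ (n02 j)) ?_ ?_
  · intro e he d hd a ha
    exact hB.ind0 j e he d hd a ha
  · rw [h1, mul_comm]
  · rw [h]
    congr 1
    ext x
    simp only [Set.mem_insert_iff, Set.mem_singleton_iff]
    constructor
    · rintro (h | h | h)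
      · right; right; rw [h, mul_comm]
      · right; left; rw [h, mul_comm]
      · left; rw [h, mul_comm]
    · rintro (h | h | h)
      · right; right; rw [h, mul_comm]
      · right; left; rw [h, mul_comm]
      · left; rw [h, mul_comm]

lemma JJ_four (A : Fin 5 → Multiset V) (i : Fin 5) :
    JJ A {k | k ≠ i} = Ideal.span {PP A (i+1), PP A (i+2), PP A (i+3), PP A (i+4)} := by
  unfold JJ
  have : ({k | k ≠ i} : Set (Fin 5)) = {i+1, i+2, i+3, i+4} := by
    ext k
    simp only [Set.mem_insert_iff, Set.mem_singleton_iff]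
    constructor
    · exact ne_cases i k
    · intro h
      show k ≠ i
      revert i k; decide
  rw [this]
  rw [Set.image_insert_eq, Set.image_insert_eq, Set.image_pair]

lemma four_le {A B : Fin 5 → Multiset V} (hA : Pent A) (hB : Pent B)
    (i j : Fin 5) (h : JJ A {k | k ≠ i} = JJ B {k | k ≠ j}) :
    Ideal.span ({pr (A (i+2)), pr (A (i+4))} : Set S) ≤
      Ideal.span {pr (B (j+2)), pr (B (j+4))} := by
  have hQB : JJ B {k | k ≠ j} ≤ Ideal.span {pr (B (j+2)), pr (B (j+4))} := by
    rw [JJ_four, Ideal.span_le]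
    unfold PP
    rw [f11, f21, f31, f41]
    rintro x hx
    simp only [Set.mem_insert_iff, Set.mem_singleton_iff] at hx
    rcases hx with rfl | rfl | rfl | rfl
    · exact Ideal.mul_mem_left _ _ (Ideal.subset_span (by simp))
    · exact Ideal.mul_mem_right _ _ (Ideal.subset_span (by simp))
    · exact Ideal.mul_mem_left _ _ (Ideal.subset_span (by simp))
    · exact Ideal.mul_mem_right _ _ (Ideal.subset_span (by simp))
  have hJA : ∀ x ∈ ({pr (A (i+1)) * pr (A (i+2)), pr (A (i+2)) * pr (A (i+3)),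
      pr (A (i+3)) * pr (A (i+4)), pr (A (i+4)) * pr (A i)} : Set S), x ∈ JJ B {k | k ≠ j} := by
    intro x hx
    rw [← h, JJ_four]
    unfold PP
    rw [f11, f21, f31, f41]
    exact Ideal.subset_span hx
  have m1 := hJA (pr (A (i+1)) * pr (A (i+2))) (by simp)
  have m2 := hJA (pr (A (i+2)) * pr (A (i+3))) (by simp)
  have m3 := hJA (pr (A (i+3)) * pr (A (i+4))) (by simp)
  have m4 := hJA (pr (A (i+4)) * pr (A i)) (by simp)
  have hIndB : Ind (B (j+2)) (B (j+4)) := hB.pair _ _ (n24 j)
  have s2 : Sat (JJ B {k | k ≠ j}) (pr (A (i+2))) := by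
    apply sat_of_triple (A := A (i+1)) (B := A (i+3)) (D := A (i+4) + A i)
    · intro a ha b hb c hc
      rw [Multiset.mem_add] at hc
      rcases hc with hc | hc
      · have := hA.ind3 i b hb c hc a ha
        rw [det3_perm1, det3_perm1] at this
        exact this
      · have := hA.ind0 i c hc a ha b hb
        rw [det3_perm1] at this
        exact this
    · rw [mul_comm]; exact m1
    · exact m2
    · rw [pr_add]
      have : pr (A (i+2)) * (pr (A (i+4)) * pr (A i)) = pr (A (i+2)) * (pr (A (i+4)) * pr (A i)) := rfl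
      exact Ideal.mul_mem_left _ _ m4
  have s4 : Sat (JJ B {k | k ≠ j}) (pr (A (i+4))) := by
    apply sat_of_triple (A := A (i+3)) (B := A i) (D := A (i+1) + A (i+2))
    · intro a ha b hb c hc
      rw [Multiset.mem_add] at hc
      rcases hc with hc | hc
      · have := hA.ind0 i b hb c hc a ha
        rw [det3_perm1, det3_perm1] at this
        exact this
      · have := hA.ind2' i c hc a ha b hb
        rw [det3_perm1] at this
        exact this
    · rw [mul_comm]; exact m3
    · exact m4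
    · rw [pr_add]
      exact Ideal.mul_mem_left _ _ m1
  rw [Ideal.span_le]
  rintro x hx
  simp only [Set.mem_insert_iff, Set.mem_singleton_iff] at hx
  rcases hx with rfl | rfl
  · exact ci_sat hIndB (s2.mono hQB)
  · exact ci_sat hIndB (s4.mono hQB)

lemma fact_four {A B : Fin 5 → Multiset V} (hA : Pent A) (hB : Pent B)
    (i j : Fin 5) (h : JJ A {k | k ≠ i} = JJ B {k | k ≠ j}) :
    (Multiset.card (A (i+2)) = Multiset.card (B (j+2)) ∧
      Multiset.card (A (i+4)) = Multiset.card (B (j+4))) ∨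
    (Multiset.card (A (i+2)) = Multiset.card (B (j+4)) ∧
      Multiset.card (A (i+4)) = Multiset.card (B (j+2))) := by
  have h1 := le_antisymm (four_le hA hB i j h) (four_le hB hA j i h.symm)
  exact ci_deg (hA.ne _) (hA.ne _) (hB.ne _) (hB.ne _) (hA.pair _ _ (n24 i))
    (hB.pair _ _ (n24 j)) h1

end Pool.Agent.Helper21.Toric
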