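import Mathlib

/-!
Definitions: complete nonsingular fans, their simplicial complexes, and the graded cohomology
ring of the corresponding toric manifold in the Danilov-Jurkiewicz presentation.
-/

namespace Pool.Agent.Helper21.Toric

/-- The real cone spanned by the integer vectors `ray i`, `i ∈ σ`. -/
def realCone {n m : ℕ} (ray : Fin m → Fin n → ℤ) (σ : Finset (Fin m)) : Set (Fin n → ℝ) :=
  {v | ∃ c : Fin m → ℝ, (∀ i, 0 ≤ c i) ∧ v = fun j => ∑ i ∈ σ, c i * (ray i j : ℝ)}

/-- A complete nonsingular fan in `ℝ^n` with `m` rays, the rays being numbered by `Fin m`.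
`ray i` is the primitive integer vector on the `i`-th ray, and `faces` is the set of those sets of
rays that span a cone of the fan. -/
structure Fan (n m : ℕ) where
  ray : Fin m → Fin n → ℤ
  faces : Set (Finset (Fin m))
  empty_mem : ∅ ∈ faces
  down_closed : ∀ σ ∈ faces, ∀ τ, τ ⊆ σ → τ ∈ faces
  vertex_mem : ∀ i, {i} ∈ faces
  /-- nonsingular: the rays of a cone are part of a basis of the lattice -/
  smooth : ∀ σ ∈ faces, ∃ (b : Module.Basis (Fin n) ℤ (Fin n → ℤ)) (f : Fin m → Fin n),
    Set.InjOn f σ ∧ ∀ i ∈ σ, b (f i) = ray i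
  /-- two cones meet in the cone spanned by their common rays -/
  inter : ∀ σ ∈ faces, ∀ τ ∈ faces,
    realCone ray σ ∩ realCone ray τ = realCone ray (σ ∩ τ)
  /-- complete: the cones cover `ℝ^n` -/
  complete : ∀ v : Fin n → ℝ, ∃ σ ∈ faces, v ∈ realCone ray σ

open MvPolynomial in
/-- The Stanley-Reisner ideal together with the linear relations. -/
noncomputable def relIdeal {n m : ℕ} (X : Fan n m) : Ideal (MvPolynomial (Fin m) ℤ) :=
  Ideal.span {q | ∃ σ : Finset (Fin m), σ ∉ X.faces ∧ q = ∏ i ∈ σ, MvPolynomial.X i} ⊔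
  Ideal.span (Set.range fun j : Fin n => ∑ i, C (X.ray i j) * MvPolynomial.X i)

/-- The integral cohomology ring of the toric manifold of the fan `X`, by the theorem of
Danilov and Jurkiewicz. -/
abbrev Coh {n m : ℕ} (X : Fan n m) : Type := MvPolynomial (Fin m) ℤ ⧸ relIdeal X

/-- The homogeneous part of degree `2 k` of the cohomology ring. -/
def piece {n m : ℕ} (X : Fan n m) (k : ℕ) : Set (Coh X) :=
  {a | ∃ q : MvPolynomial (Fin m) ℤ, q.IsHomogeneous k ∧ Ideal.Quotient.mk (relIdeal X) q = a}

/-- The cohomology rings of two toric manifolds are isomorphic as graded rings. -/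
def GradedIso {n m n' m' : ℕ} (X : Fan n m) (Y : Fan n' m') : Prop :=
  ∃ e : Coh X ≃+* Coh Y, ∀ k a, a ∈ piece X k ↔ e a ∈ piece Y k

/-- Combinatorial isomorphism of families of finite sets (simplicial complexes). -/
def ComplexIso {m m' : ℕ} (K : Set (Finset (Fin m))) (L : Set (Finset (Fin m'))) : Prop :=
  ∃ φ : Fin m ≃ Fin m', ∀ σ : Finset (Fin m), σ ∈ K ↔ σ.map φ.toEmbedding ∈ L

/-- A simplicial complex `K` is rigid: it is the complex of a toric manifold, and whenever
`X` is a toric manifold with complex `K` and `Y` is a toric manifold with isomorphic graded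
cohomology ring, then the complex of `Y` is isomorphic to `K`. -/
def Rigid {m : ℕ} (K : Set (Finset (Fin m))) : Prop :=
  (∃ (n : ℕ) (X : Fan n m), ComplexIso X.faces K) ∧
  ∀ (n : ℕ) (X : Fan n m), ComplexIso X.faces K →
    ∀ (n' m' : ℕ) (Y : Fan n' m'), GradedIso X Y → ComplexIso Y.faces K

end Pool.Agent.Helper21.Toric
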