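import Pool.Agent.Helper21.FanGale

namespace Pool.Agent.Helper21.Toric

open MvPolynomial

section
variable {r : ℕ}

/-- integral linear form -/
noncomputable def zl (v : Fin r → ℤ) : MvPolynomial (Fin r) ℤ := ∑ s, C (v s) * X s

lemma zl_homog (v : Fin r → ℤ) : (zl v).IsHomogeneous 1 := by
  apply IsHomogeneous.sum
  intro s _
  have h1 : (C (v s) : MvPolynomial (Fin r) ℤ).IsHomogeneous 0 := isHomogeneous_C _ _
  have h2 := h1.mul (isHomogeneous_X ℤ s)
  simpa using h2

lemma zl_sub (v w : Fin r → ℤ) : zl (v - w) = zl v - zl w := by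
  unfold zl
  rw [← Finset.sum_sub_distrib]
  exact Finset.sum_congr rfl (fun s _ => by simp; ring)

lemma zl_single (s : Fin r) : zl (Pi.single s 1) = X s := by
  unfold zl
  rw [Finset.sum_eq_single s]
  · simp
  · intro j _ hj; simp [hj]
  · intro h; exact absurd (Finset.mem_univ s) h

lemma exists_zl {q : MvPolynomial (Fin r) ℤ} (h : q.IsHomogeneous 1) : ∃ v, q = zl v := by
  have h1 : q ∈ homogeneousSubmodule (Fin r) ℤ 1 := h
  rw [homogeneousSubmodule_one_eq_span_X] at h1
  rw [Submodule.mem_span_range_iff_exists_fun] at h1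
  obtain ⟨c, hc⟩ := h1
  refine ⟨c, ?_⟩
  rw [← hc, zl]
  exact Finset.sum_congr rfl (fun s _ => by rw [smul_eq_C_mul])

/-- the ideal generated by the products of linear forms over nonfaces -/
noncomputable def JJI {m : ℕ} (K : Set (Finset (Fin m))) (D : Fin m → Fin r → ℤ) :
    Ideal (MvPolynomial (Fin r) ℤ) :=
  Ideal.span {q | ∃ σ : Finset (Fin m), σ ∉ K ∧ q = ∏ i ∈ σ, zl (D i)}

/-- linear part -/
noncomputable def linPart (r : ℕ) :
    MvPolynomial (Fin r) ℤ →ₐ[ℤ] TrivSqZeroExt ℤ (Fin r → ℤ) :=
  aeval (fun s => TrivSqZeroExt.inr (Pi.single s 1))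

lemma linPart_zl (v : Fin r → ℤ) : linPart r (zl v) = TrivSqZeroExt.inr v := by
  unfold zl linPart
  rw [map_sum]
  have h1 : ∀ s, (aeval (fun s => (TrivSqZeroExt.inr (Pi.single s 1) :
      TrivSqZeroExt ℤ (Fin r → ℤ)))) ((C (v s) : MvPolynomial (Fin r) ℤ) * X s) =
      TrivSqZeroExt.inr (Pi.single s (v s)) := by
    intro s
    rw [map_mul, aeval_X, aeval_C, ← Algebra.smul_def, ← TrivSqZeroExt.inr_smul]
    congr 1
    ext j
    by_cases h : j = s
    · subst h; simp
    · simp [h]
  simp_rw [h1]
  rw [← TrivSqZeroExt.inr_sum]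
  congr 1
  exact Finset.univ_sum_single v

lemma JJI_low {n m : ℕ} (X : Fan n m) (D : Fin m → Fin r → ℤ) {v : Fin r → ℤ}
    (h : zl v ∈ JJI X.faces D) : v = 0 := by
  have h1 : JJI X.faces D ≤ RingHom.ker (linPart r) := by
    unfold JJI
    rw [Ideal.span_le]
    rintro _ ⟨σ, hσ, rfl⟩
    rw [SetLike.mem_coe, RingHom.mem_ker, map_prod]
    have hne : σ.Nontrivial := by
      rcases Finset.eq_empty_or_nonempty σ with rfl | ⟨i, hi⟩
      · exact absurd X.empty_mem hσ
      · by_contra hcon
        have : σ = {i} := by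
          ext j
          simp only [Finset.mem_singleton]
          constructor
          · intro hj
            by_contra hji
            exact hcon ⟨j, hj, i, hi, hji⟩
          · rintro rfl; exact hi
        exact hσ (this ▸ X.vertex_mem i)
    obtain ⟨i, hi, j, hj, hij⟩ := hne
    rw [← Finset.mul_prod_erase σ _ hi, ← Finset.mul_prod_erase (σ.erase i) _
      (Finset.mem_erase.2 ⟨hij.symm, hj⟩), linPart_zl, linPart_zl, ← mul_assoc,
      TrivSqZeroExt.inr_mul_inr, zero_mul]
  have h2 := h1 h
  rw [RingHom.mem_ker, linPart_zl] at h2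
  exact TrivSqZeroExt.inr_injective (by rw [h2, TrivSqZeroExt.inr_zero])

end

section
variable {n m r : ℕ} {X : Fan n m} {D : Fin m → Fin r → ℤ} {t : Fin r → Fin m}

/-- substitution of the Gale forms -/
noncomputable def phi (D : Fin m → Fin r → ℤ) : MvPolynomial (Fin m) ℤ →ₐ[ℤ] MvPolynomial (Fin r) ℤ :=
  aeval (fun i => zl (D i))

/-- the presentation of the cohomology ring by `r` generators -/
noncomputable def alpha (X : Fan n m) (t : Fin r → Fin m) : MvPolynomial (Fin r) ℤ →+* Coh X :=
  (Ideal.Quotient.mk (relIdeal X)).comp (rename t).toRingHom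

lemma alpha_X (s : Fin r) : alpha X t (MvPolynomial.X s) =
    Ideal.Quotient.mk (relIdeal X) (MvPolynomial.X (t s)) := by
  simp [alpha]

lemma linear_mem (X : Fan n m) (u : Fin n → ℤ) :
    ∑ i, C (ipz u (X.ray i)) * MvPolynomial.X i ∈ relIdeal X := by
  have h1 : ∑ i, C (ipz u (X.ray i)) * MvPolynomial.X i =
      ∑ j, C (u j) * ∑ i, C (X.ray i j) * (MvPolynomial.X i : MvPolynomial (Fin m) ℤ) := by
    simp_rw [Finset.mul_sum]
    rw [Finset.sum_comm]
    apply Finset.sum_congr rfl
    intro i _
    unfold ipz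
    rw [map_sum, Finset.sum_mul]
    exact Finset.sum_congr rfl (fun j _ => by rw [map_mul]; ring)
  rw [h1]
  apply Ideal.sum_mem
  intro j _
  apply Ideal.mul_mem_left
  exact Ideal.mem_sup_right (Ideal.subset_span ⟨j, rfl⟩)

lemma alpha_phi (h : Gale X D t) (q : MvPolynomial (Fin m) ℤ) :
    alpha X t (phi D q) = Ideal.Quotient.mk (relIdeal X) q := by
  have h1 : (alpha X t).comp (phi D).toRingHom = Ideal.Quotient.mk (relIdeal X) := by
    apply MvPolynomial.ringHom_ext
    · intro a; simp
    · intro i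
      simp only [RingHom.comp_apply]
      have e1 : (phi D).toRingHom (MvPolynomial.X i) = zl (D i) := by
        show (phi D) (MvPolynomial.X i) = _
        simp [phi]
      rw [e1, zl, map_sum]
      simp_rw [map_mul, alpha_X]
      obtain ⟨u, hu⟩ := h.span i
      have h2 := linear_mem X u
      simp_rw [hu] at h2
      have h3 : ∑ j, C ((if i = j then (1 : ℤ) else 0) - ∑ s, D i s * (if j = t s then 1 else 0)) *
          (MvPolynomial.X j : MvPolynomial (Fin m) ℤ) =
          MvPolynomial.X i - ∑ s, C (D i s) * MvPolynomial.X (t s) := by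
        simp_rw [map_sub, sub_mul]
        rw [Finset.sum_sub_distrib]
        congr 1
        · rw [Finset.sum_eq_single i]
          · simp
          · intro j _ hj; rw [if_neg hj.symm]; simp
          · intro h; exact absurd (Finset.mem_univ i) h
        · simp_rw [map_sum, Finset.sum_mul]
          rw [Finset.sum_comm]
          apply Finset.sum_congr rfl
          intro s _
          rw [Finset.sum_eq_single (t s)]
          · simp
          · intro j _ hj; simp [hj]
          · intro h; exact absurd (Finset.mem_univ _) h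
      rw [h3] at h2
      have h4 := (Ideal.Quotient.eq_zero_iff_mem).2 h2
      rw [map_sub, sub_eq_zero] at h4
      rw [h4, map_sum]
      apply Finset.sum_congr rfl
      intro s _
      rw [map_mul]
      congr 1
      simp [alpha]
  have := congrArg (fun g => g q) h1
  simpa using this

lemma phi_rename (h : Gale X D t) (f : MvPolynomial (Fin r) ℤ) : phi D (rename t f) = f := by
  unfold phi
  rw [aeval_rename]
  have h1 : ((fun i => zl (D i)) ∘ t) = MvPolynomial.X := by
    ext1 s
    simp only [Function.comp_apply]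
    have : D (t s) = Pi.single s 1 := by
      ext s'; rw [h.std]; simp [Pi.single_apply, eq_comm]
    rw [this, zl_single]
  rw [h1]
  simp

lemma phi_rel (h : Gale X D t) {q : MvPolynomial (Fin m) ℤ} (hq : q ∈ relIdeal X) :
    phi D q ∈ JJI X.faces D := by
  have h1 : relIdeal X ≤ (JJI X.faces D).comap (phi D) := by
    unfold relIdeal
    rw [sup_le_iff, Ideal.span_le, Ideal.span_le]
    constructor
    · rintro _ ⟨σ, hσ, rfl⟩
      rw [SetLike.mem_coe, Ideal.mem_comap, map_prod]
      apply Ideal.subset_span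
      refine ⟨σ, hσ, ?_⟩
      simp [phi]
    · rintro _ ⟨j, rfl⟩
      rw [SetLike.mem_coe, Ideal.mem_comap]
      have h2 : phi D (∑ i, C (X.ray i j) * MvPolynomial.X i) = 0 := by
        rw [map_sum]
        simp_rw [map_mul]
        have h3 : ∀ i, phi D (C (X.ray i j)) * phi D (MvPolynomial.X i) =
            ∑ s, C (D i s * X.ray i j) * MvPolynomial.X s := by
          intro i
          simp only [phi, aeval_X, zl, Finset.mul_sum]
          apply Finset.sum_congr rfl
          intro s _
          simp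
          ring
        simp_rw [h3]
        rw [Finset.sum_comm]
        apply Finset.sum_eq_zero
        intro s _
        rw [← Finset.sum_mul, ← map_sum]
        have h4 := congrFun (h.rel s) j
        simp only [Finset.sum_apply, Pi.smul_apply, smul_eq_mul, Pi.zero_apply] at h4
        rw [h4]
        simp
      rw [h2]
      exact Ideal.zero_mem _
  exact h1 hq

lemma ker_alpha (h : Gale X D t) (f : MvPolynomial (Fin r) ℤ) :
    alpha X t f = 0 ↔ f ∈ JJI X.faces D := by
  constructor
  · intro hf
    have h1 : rename t f ∈ relIdeal X := Ideal.Quotient.eq_zero_iff_mem.1 hf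
    have h2 := phi_rel h h1
    rwa [phi_rename h] at h2
  · intro hf
    have h1 : JJI X.faces D ≤ RingHom.ker (alpha X t) := by
      unfold JJI
      rw [Ideal.span_le]
      rintro _ ⟨σ, hσ, rfl⟩
      rw [SetLike.mem_coe, RingHom.mem_ker]
      have h2 : ∏ i ∈ σ, zl (D i) = phi D (∏ i ∈ σ, MvPolynomial.X i) := by
        rw [map_prod]; simp [phi]
      rw [h2, alpha_phi h]
      apply Ideal.Quotient.eq_zero_iff_mem.2
      exact Ideal.mem_sup_left (Ideal.subset_span ⟨σ, hσ, rfl⟩)
    exact h1 hf

lemma phi_homog {k : ℕ} {q : MvPolynomial (Fin m) ℤ} (hq : q.IsHomogeneous k) :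
    (phi D q).IsHomogeneous k := by
  have := hq.aeval (fun i => zl (D i)) (fun i => zl_homog (D i))
  rw [one_mul] at this
  exact this

end

section
variable {n m r n' m' r' : ℕ} {X : Fan n m} {Y : Fan n' m'}
  {D : Fin m → Fin r → ℤ} {t : Fin r → Fin m} {D' : Fin m' → Fin r' → ℤ} {t' : Fin r' → Fin m'}

/-- linear substitution with integer matrix -/
noncomputable def theta (M : Matrix (Fin r) (Fin r') ℤ) :
    MvPolynomial (Fin r) ℤ →ₐ[ℤ] MvPolynomial (Fin r') ℤ := aeval (fun s => zl (M s))

lemma theta_zl (M : Matrix (Fin r) (Fin r') ℤ) (v : Fin r → ℤ) :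
    theta M (zl v) = zl (Matrix.vecMul v M) := by
  unfold theta zl
  rw [map_sum]
  simp_rw [map_mul, aeval_X, aeval_C, Finset.mul_sum]
  rw [Finset.sum_comm]
  apply Finset.sum_congr rfl
  intro s _
  simp only [Matrix.vecMul, dotProduct]
  rw [map_sum, Finset.sum_mul]
  apply Finset.sum_congr rfl
  intro x _
  simp
  ring

lemma one_side (hX : Gale X D t) (hY : Gale Y D' t') (e : Coh X ≃+* Coh Y)
    (he : ∀ a, a ∈ piece X 1 → e a ∈ piece Y 1) :
    ∃ M : Matrix (Fin r) (Fin r') ℤ, ∀ f, alpha Y t' (theta M f) = e (alpha X t f) := by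
  have h1 : ∀ s : Fin r, ∃ v : Fin r' → ℤ, alpha Y t' (zl v) = e (alpha X t (MvPolynomial.X s)) := by
    intro s
    have h2 : alpha X t (MvPolynomial.X s) ∈ piece X 1 :=
      ⟨MvPolynomial.X (t s), isHomogeneous_X ℤ (t s), (alpha_X s).symm⟩
    obtain ⟨q, hq, hqe⟩ := he _ h2
    obtain ⟨v, hv⟩ := exists_zl (phi_homog (D := D') hq)
    refine ⟨v, ?_⟩
    rw [← hv, alpha_phi hY, hqe]
  choose M hM using h1
  refine ⟨M, ?_⟩
  intro f
  have h3 : (alpha Y t').comp (theta M).toRingHom = (e : Coh X →+* Coh Y).comp (alpha X t) := by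
    apply MvPolynomial.ringHom_ext
    · intro a; simp
    · intro s
      simp only [RingHom.comp_apply]
      have e1 : (theta M).toRingHom (MvPolynomial.X s) = zl (M s) := by
        show (theta M) (MvPolynomial.X s) = _
        simp [theta]
      rw [e1, hM s]
      rfl
  exact congrArg (fun g => g f) h3

lemma comp_side (hX : Gale X D t) (e : Coh X ≃+* Coh Y)
    {M : Matrix (Fin r) (Fin r') ℤ} {M' : Matrix (Fin r') (Fin r) ℤ}
    (hM : ∀ f, alpha Y t' (theta M f) = e (alpha X t f))
    (hM' : ∀ f, alpha X t (theta M' f) = e.symm (alpha Y t' f)) : M * M' = 1 := by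
  have h1 : ∀ s, (M * M') s = (1 : Matrix (Fin r) (Fin r) ℤ) s := by
    intro s
    have h2 : alpha X t (theta M' (theta M (MvPolynomial.X s))) = alpha X t (MvPolynomial.X s) := by
      rw [hM', hM, e.symm_apply_apply]
    have h3 : theta M' (theta M (MvPolynomial.X s)) = zl ((M * M') s) := by
      have : theta M (MvPolynomial.X s) = zl (M s) := by simp [theta]
      rw [this, theta_zl]
      rfl
    rw [h3, ← sub_eq_zero, ← map_sub, ← zl_single s, ← zl_sub, ker_alpha hX] at h2
    have h4 := JJI_low X D h2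
    rw [sub_eq_zero] at h4
    rw [h4]
    ext j
    simp [Matrix.one_apply, Pi.single_apply, eq_comm]
  ext i j
  exact congrFun (h1 i) j

lemma theta_comp (M : Matrix (Fin r) (Fin r') ℤ) (M' : Matrix (Fin r') (Fin r) ℤ)
    (h : M' * M = 1) (f : MvPolynomial (Fin r') ℤ) : theta M (theta M' f) = f := by
  have h3 : (theta M).comp (theta M') = AlgHom.id ℤ _ := by
    apply MvPolynomial.algHom_ext
    intro s
    simp only [AlgHom.comp_apply, AlgHom.id_apply]
    have : theta M' (MvPolynomial.X s) = zl (M' s) := by simp [theta]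
    rw [this, theta_zl]
    have h5 : Matrix.vecMul (M' s) M = (M' * M) s := rfl
    rw [h5, h, ← zl_single s]
    congr 1
    ext j
    simp [Matrix.one_apply, Pi.single_apply, eq_comm]
  exact congrArg (fun g => g f) h3

theorem transport (hX : Gale X D t) (hY : Gale Y D' t') (h : GradedIso X Y) :
    ∃ (M : Matrix (Fin r) (Fin r') ℤ) (M' : Matrix (Fin r') (Fin r) ℤ), M * M' = 1 ∧ M' * M = 1 ∧
      JJI X.faces (fun i => Matrix.vecMul (D i) M) = JJI Y.faces D' := by
  obtain ⟨e, he⟩ := h
  obtain ⟨M, hM⟩ := one_side hX hY e (fun a ha => (he 1 a).1 ha)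
  obtain ⟨M', hM'⟩ := one_side hY hX e.symm (fun a ha => (he 1 _).2 (by
    rw [e.apply_symm_apply]; exact ha))
  have h1 : M * M' = 1 := comp_side hX e hM hM'
  have h2 : M' * M = 1 := comp_side hY e.symm hM' (by
    intro f; rw [RingEquiv.symm_symm]; exact hM f)
  refine ⟨M, M', h1, h2, ?_⟩
  apply le_antisymm
  · unfold JJI
    rw [Ideal.span_le]
    rintro _ ⟨σ, hσ, rfl⟩
    have h3 : ∏ i ∈ σ, zl (Matrix.vecMul (D i) M) = theta M (∏ i ∈ σ, zl (D i)) := by
      rw [map_prod]
      exact Finset.prod_congr rfl (fun i _ => (theta_zl M (D i)).symm)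
    rw [SetLike.mem_coe, h3]
    have h4 : ∏ i ∈ σ, zl (D i) ∈ JJI X.faces D := Ideal.subset_span ⟨σ, hσ, rfl⟩
    have h5 : alpha Y t' (theta M (∏ i ∈ σ, zl (D i))) = 0 := by
      rw [hM, (ker_alpha hX _).2 h4, map_zero]
    exact (ker_alpha hY _).1 h5
  · intro f hf
    have h4 : alpha X t (theta M' f) = 0 := by
      rw [hM', (ker_alpha hY _).2 hf, map_zero]
    have h5 : theta M' f ∈ JJI X.faces D := (ker_alpha hX _).1 h4
    have h6 : JJI X.faces D ≤ (JJI X.faces (fun i => Matrix.vecMul (D i) M)).comap (theta M) := by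
      conv_lhs => unfold JJI
      rw [Ideal.span_le]
      rintro _ ⟨σ, hσ, rfl⟩
      rw [SetLike.mem_coe, Ideal.mem_comap, map_prod]
      apply Ideal.subset_span
      refine ⟨σ, hσ, ?_⟩
      exact Finset.prod_congr rfl (fun i _ => theta_zl M (D i))
    have h7 := h6 h5
    rw [Ideal.mem_comap, theta_comp M M' h2] at h7
    exact h7

end

end Pool.Agent.Helper21.Toric
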